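import Pool.Agent.MP_a2955b_co.Gen.Stm

section
/-! The number of connected components: basic facts and the complement of a compact convex set
in a flat. -/

set_option autoImplicit false

namespace Pool.Agent.MP_a2955b_co.Gen

open Set Module Pool.Agent.MP_a2955b_co.Up
open scoped Classical

theorem comp_Wc {E : Type} [TopologicalSpace E] {A A' U V : Set E} (hU : IsOpen U) (hV : IsOpen V)
    (hUV : Disjoint U V) (h1 : A ⊆ U) (h2 : A' ⊆ V) {y : E} (hy : y ∈ A) :
    connectedComponentIn (A ∪ A') y = connectedComponentIn A y := by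
  refine Subset.antisymm ?_ (connectedComponentIn_mono y subset_union_left)
  have hs := connectedComponentIn_subset (A ∪ A') y
  have hm := mem_connectedComponentIn (F := A ∪ A') (Or.inl hy)
  have h3 : connectedComponentIn (A ∪ A') y ⊆ U :=
    isPreconnected_connectedComponentIn.subset_left_of_subset_union hU hV hUV
      (hs.trans (union_subset_union h1 h2)) ⟨y, hm, h1 hy⟩
  exact isPreconnected_connectedComponentIn.subset_connectedComponentIn hm fun x hx =>
    (hs hx).resolve_right fun h => disjoint_left.1 hUV (h3 hx) (h2 h)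

theorem cover_Wc {E : Type} [NormedAddCommGroup E] (I : Type) (s : Finset I) (A : Set E)
    (P : I → Set E) (h1 : ∀ i ∈ s, IsPreconnected (P i) ∧ P i ⊆ A)
    (h2 : ∀ y ∈ A, ∃ i ∈ s, y ∈ P i) : wc A ≤ s.card := by
  have key : ∀ i, ∃ C : Set E, ∀ y ∈ P i, i ∈ s → connectedComponentIn A y = C := by
    intro i
    rcases (P i).eq_empty_or_nonempty with h | ⟨x, hx⟩
    · exact ⟨∅, fun y hy => by simp [h] at hy⟩
    · exact ⟨connectedComponentIn A x, fun y hy hi =>
        (connectedComponentIn_eq ((h1 i hi).1.subset_connectedComponentIn hx (h1 i hi).2 hy)).symm⟩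
  choose C hC using key
  have h3 : {D : Set E | ∃ y ∈ A, D = connectedComponentIn A y} ⊆ C '' (s : Set I) := by
    rintro _ ⟨y, hy, rfl⟩
    obtain ⟨i, hi, hyi⟩ := h2 y hy
    exact ⟨i, hi, (hC i y hyi hi).symm⟩
  refine (encard_le_encard h3).trans ((encard_image_le _ _).trans ?_)
  rw [encard_coe_eq_coe_finsetCard]

theorem sWc : SWc := by
  intro E _ _ _
  refine ⟨fun A A' z h1 h2 => ?_, fun A ⟨y, hy⟩ => ?_, fun A hA => ?_, ?_, cover_Wc⟩
  · have hU : IsOpen {y | 0 < z y} := isOpen_lt continuous_const (af_continuous z)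
    have hV : IsOpen {y | z y < 0} := isOpen_lt (af_continuous z) continuous_const
    have hUV : Disjoint {y | 0 < z y} {y | z y < 0} :=
      disjoint_left.2 fun y (a : 0 < z y) (b : z y < 0) => lt_asymm a b
    unfold wc
    rw [← encard_union_eq]
    · refine encard_le_encard ?_
      rintro _ (⟨y, hy, rfl⟩ | ⟨y, hy, rfl⟩)
      · exact ⟨y, Or.inl hy, (comp_Wc hU hV hUV h1 h2 hy).symm⟩
      · refine ⟨y, Or.inr hy, ?_⟩
        rw [union_comm]
        exact (comp_Wc hV hU hUV.symm h2 h1 hy).symm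
    · rw [disjoint_left]
      rintro _ ⟨y, hy, rfl⟩ ⟨y', -, h⟩
      have h3 := mem_connectedComponentIn hy
      rw [h] at h3
      exact lt_asymm (h1 y hy) (h2 y (connectedComponentIn_subset _ _ h3))
  · exact one_le_encard_iff_nonempty.2 ⟨_, y, hy, rfl⟩
  · exact cover_Wc Unit {()} A (fun _ => A) (fun _ _ => ⟨hA, Subset.rfl⟩)
      fun y hy => ⟨(), Finset.mem_singleton_self _, hy⟩
  · simp [wc]

theorem sOut (h : SWc) : SOut := by
  intro E _ _ _ K L hK hKc hL ⟨c, hcL, hcK⟩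
  let b := Module.finBasis ℝ E
  let f : Fin (finrank ℝ E) × Bool → E →ₗ[ℝ] ℝ := fun i =>
    if i.2 then b.coord i.1 else -b.coord i.1
  have hb : ∀ i, ∃ ρ : ℝ, ∀ y ∈ K, f i y ≤ ρ := fun i => by
    obtain ⟨ρ, hρ⟩ := (hK.image (f i).continuous_of_finiteDimensional).bddAbove
    exact ⟨ρ, fun y hy => hρ ⟨y, hy, rfl⟩⟩
  choose ρ hρ using hb
  have hQ : ∀ i, Convex ℝ (L ∩ {y | ρ i < f i y}) := fun i =>
    hL.convex.inter (convex_halfSpace_gt (f i).isLinear _)
  have hQs : ∀ i, L ∩ {y | ρ i < f i y} ⊆ L \ K := fun i y hy =>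
    ⟨hy.1, fun hk => (hρ i y hk).not_gt hy.2⟩
  have key : ∀ i, ∃ P : Set E, IsPreconnected P ∧ P ⊆ L \ K ∧
      ∀ z ∈ L ∩ {y | ρ i < f i y}, connectedComponentIn (L \ K) z = P := by
    intro i
    rcases (L ∩ {y | ρ i < f i y}).eq_empty_or_nonempty with h | ⟨x, hx⟩
    · exact ⟨∅, isPreconnected_empty, empty_subset _, fun y hy => by simp [h] at hy⟩
    · exact ⟨connectedComponentIn (L \ K) x, isPreconnected_connectedComponentIn,
        connectedComponentIn_subset _ _, fun y hy => (connectedComponentIn_eq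
          ((hQ i).isPreconnected.subset_connectedComponentIn hx (hQs i) hy)).symm⟩
  choose P hP1 hP2 hP3 using key
  refine ((h E).2.2.2.2 _ Finset.univ (L \ K) P (fun i _ => ⟨hP1 i, hP2 i⟩) fun y hy => ?_).trans ?_
  · have hne : y - c ≠ 0 := fun h0 => hy.2 (sub_eq_zero.1 h0 ▸ hcK)
    obtain ⟨i, hi⟩ : ∃ i, 0 < f i (y - c) := by
      obtain ⟨j, hj⟩ : ∃ j, b.coord j (y - c) ≠ 0 := by
        by_contra hn
        push Not at hn
        exact hne (b.forall_coord_eq_zero_iff.1 hn)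
      rcases lt_or_gt_of_ne hj with h1 | h1
      · exact ⟨(j, false), neg_pos.2 h1⟩
      · exact ⟨(j, true), h1⟩
    have ray : ∀ a : ℝ, 0 ≤ a → y + a • (y - c) ∈ L \ K := by
      intro a ha
      refine ⟨?_, fun hk => hy.2 ?_⟩
      · have := hL c hcL y hy.1 (1 + a)
        convert this using 1
        module
      · have h1 : (0 : ℝ) < 1 + a := by linarith
        have := hKc hcK hk (div_nonneg ha h1.le) (div_nonneg zero_le_one h1.le)
          (by field_simp; ring)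
        convert this using 1
        have h2 : (1 + a) • y = a • c + (y + a • (y - c)) := by module
        rw [div_eq_inv_mul, mul_smul, one_div, ← smul_add, ← h2, smul_smul,
          inv_mul_cancel₀ h1.ne', one_smul]
    obtain ⟨a, ha, hz⟩ : ∃ a : ℝ, 0 ≤ a ∧ ρ i < f i (y + a • (y - c)) := by
      refine ⟨(|ρ i - f i y| + 1) / f i (y - c), div_nonneg (by positivity) hi.le, ?_⟩
      rw [map_add, map_smul, smul_eq_mul, div_mul_cancel₀ _ hi.ne']
      have := le_abs_self (ρ i - f i y)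
      linarith
    refine ⟨i, Finset.mem_univ _, ?_⟩
    rw [← hP3 i _ ⟨(ray a ha).1, hz⟩]
    refine (convex_segment y (y + a • (y - c))).isPreconnected.subset_connectedComponentIn
      (right_mem_segment ℝ _ _) ?_ (left_mem_segment ℝ _ _)
    rintro _ ⟨s, t, hs, ht, hst, rfl⟩
    have := ray (t * a) (mul_nonneg ht ha)
    convert this using 1
    obtain rfl : s = 1 - t := by linarith
    module
  · rw [Finset.card_univ, Fintype.card_prod, Fintype.card_fin, Fintype.card_bool, mul_comm]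

end Pool.Agent.MP_a2955b_co.Gen

end

section
/-! Removing a piece of a hyperplane whose two sides are connected. -/

set_option autoImplicit false

namespace Pool.Agent.MP_a2955b_co.Gen

open Set Module Pool.Agent.MP_a2955b_co.Up
open scoped Classical

section aux

variable {E : Type} [NormedAddCommGroup E] [NormedSpace ℝ E]

/-- A small relative ball lies in one component. -/
theorem ball_Split {L A : Set E} (hL : Flat L) (hA : RO L A) {a : E} (ha : a ∈ A) :
    ∃ δ : ℝ, 0 < δ ∧ Metric.ball a δ ∩ L ⊆ connectedComponentIn A a := by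
  obtain ⟨δ, hδ, hb⟩ := hA.2 a ha
  refine ⟨δ, hδ, ?_⟩
  exact ((convex_ball a δ).inter hL.convex).isPreconnected.subset_connectedComponentIn
    ⟨Metric.mem_ball_self hδ, hA.1 ha⟩ hb

/-- Moving off the hyperplane inside an open set. -/
theorem move_Split {L O : Set E} (h : Af E) (hL : Flat L) (hO : IsOpen O) {b y0 : E}
    (hb : b ∈ L) (hbO : b ∈ O) (hy0 : y0 ∈ L) (h0 : h y0 ≠ 0) (hb0 : h b = 0) :
    ∃ z ∈ O, z ∈ L ∧ h z ≠ 0 := by
  have hc : Continuous (fun t : ℝ => b + t • (y0 - b)) := by fun_prop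
  have h1 : ∀ᶠ t in nhds (0 : ℝ), b + t • (y0 - b) ∈ O := by
    refine hc.continuousAt.eventually (hO.mem_nhds ?_)
    simpa using hbO
  have h2 : ∀ᶠ t in nhdsWithin (0 : ℝ) ({0}ᶜ : Set ℝ), b + t • (y0 - b) ∈ O ∧ t ≠ 0 :=
    (h1.filter_mono nhdsWithin_le_nhds).and self_mem_nhdsWithin
  obtain ⟨t, ht, ht0⟩ := h2.exists
  refine ⟨_, ht, hL b hb y0 hy0 t, ?_⟩
  rw [af_add, map_smul, af_sub, hb0, smul_eq_mul]
  simpa using ⟨ht0, h0⟩

/-- A component of `V \ S` that avoids the two sides is a component of `V`. -/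
theorem comp_Split {L V S Cp Cm : Set E} (h : Af E) (hL : Flat L) (hV : RO L V)
    (hVS : RO L (V \ S)) (hy0 : ∃ y ∈ L, h y ≠ 0)
    (hloc : ∀ s ∈ S, ∃ ε : ℝ, 0 < ε ∧ ∀ y ∈ Metric.ball s ε, y ∈ L →
      (0 < h y → y ∈ Cp) ∧ (h y < 0 → y ∈ Cm))
    {y : E} (hy : y ∈ V \ S) (hp : ∀ z ∈ connectedComponentIn (V \ S) y, z ∉ Cp)
    (hm : ∀ z ∈ connectedComponentIn (V \ S) y, z ∉ Cm) :
    connectedComponentIn (V \ S) y = connectedComponentIn V y := by
  obtain ⟨y0, hy0L, hy0⟩ := hy0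
  refine Subset.antisymm (connectedComponentIn_mono y sdiff_subset) ?_
  intro x hx
  have key : y ∈ connectedComponentIn (V \ S) y ↔ x ∈ connectedComponentIn (V \ S) y := by
    refine (isPreconnected_connectedComponentIn (x := y) (F := V)).induction₂'
      (fun a b => a ∈ connectedComponentIn (V \ S) y ↔ b ∈ connectedComponentIn (V \ S) y)
      ?_ (fun _ _ _ _ _ _ h1 h2 => h1.trans h2) (mem_connectedComponentIn hy.1) hx
    intro a ha
    have haV : a ∈ V := connectedComponentIn_subset _ _ ha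
    suffices hs : ∃ ε : ℝ, 0 < ε ∧ ∀ b ∈ Metric.ball a ε, b ∈ L →
        (a ∈ connectedComponentIn (V \ S) y ↔ b ∈ connectedComponentIn (V \ S) y) by
      obtain ⟨ε, hε, hs⟩ := hs
      filter_upwards [mem_nhdsWithin_of_mem_nhds (Metric.ball_mem_nhds a hε),
        self_mem_nhdsWithin] with b hb hbW
      have := hs b hb (hV.1 (connectedComponentIn_subset _ _ hbW))
      exact ⟨this, this.symm⟩
    by_cases haS : a ∈ S
    · obtain ⟨ε, hε, hs⟩ := hloc a haS
      refine ⟨ε, hε, fun b hb hbL => ?_⟩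
      have hna : a ∉ connectedComponentIn (V \ S) y := fun h1 =>
        (connectedComponentIn_subset _ _ h1).2 haS
      refine iff_of_false hna fun hbG => ?_
      have hno : ∀ z ∈ connectedComponentIn (V \ S) y, z ∈ Metric.ball a ε → z ∈ L →
          h z = 0 := by
        intro z hz hzb hzL
        rcases lt_trichotomy (h z) 0 with h1 | h1 | h1
        · exact absurd ((hs z hzb hzL).2 h1) (hm z hz)
        · exact h1
        · exact absurd ((hs z hzb hzL).1 h1) (hp z hz)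
      obtain ⟨δ, hδ, hsub⟩ := ball_Split hL hVS (connectedComponentIn_subset _ _ hbG)
      obtain ⟨z, hzO, hzL, hz0⟩ := move_Split h hL
        (Metric.isOpen_ball.inter Metric.isOpen_ball) hbL ⟨hb, Metric.mem_ball_self hδ⟩
        hy0L hy0 (hno b hbG hb hbL)
      refine hz0 (hno z ?_ hzO.1 hzL)
      rw [connectedComponentIn_eq hbG]
      exact hsub ⟨hzO.2, hzL⟩
    · obtain ⟨δ, hδ, hsub⟩ := ball_Split hL hVS (⟨haV, haS⟩ : a ∈ V \ S)
      refine ⟨δ, hδ, fun b hb hbL => ?_⟩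
      have hba := hsub ⟨hb, hbL⟩
      constructor
      · intro h1
        rw [connectedComponentIn_eq h1]
        exact hba
      · intro h1
        rw [connectedComponentIn_eq h1, ← connectedComponentIn_eq hba]
        exact mem_connectedComponentIn ⟨haV, haS⟩
  exact key.1 (mem_connectedComponentIn hy)

omit [NormedSpace ℝ E] in
/-- The components meeting a preconnected subset are at most one. -/
theorem one_Split {A C : Set E} (hC : IsPreconnected C) (hCA : C ⊆ A) :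
    {G : Set E | ∃ z ∈ C, G = connectedComponentIn A z}.encard ≤ 1 := by
  rw [encard_le_one_iff]
  rintro _ _ ⟨a, ha, rfl⟩ ⟨b, hb, rfl⟩
  exact connectedComponentIn_eq (hC.subset_connectedComponentIn ha hCA hb)

end aux

theorem sSplit : SSplit := by
  intro E _ _ _ L V S Cp Cm h hL hV hVS hSV _ hy0 hCp hCm hpV hmV hloc
  rcases S.eq_empty_or_nonempty with rfl | ⟨s0, hs0⟩
  · rw [sdiff_empty]
    exact le_self_add
  have hG0 : connectedComponentIn V s0 ∈ {C : Set E | ∃ y ∈ V, C = connectedComponentIn V y} :=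
    ⟨s0, hSV hs0, rfl⟩
  have hsub : {C : Set E | ∃ y ∈ V \ S, C = connectedComponentIn (V \ S) y} ⊆
      ({G : Set E | ∃ z ∈ Cp, G = connectedComponentIn (V \ S) z} ∪
        {G : Set E | ∃ z ∈ Cm, G = connectedComponentIn (V \ S) z}) ∪
        ({C : Set E | ∃ y ∈ V, C = connectedComponentIn V y} \ {connectedComponentIn V s0}) := by
    rintro _ ⟨y, hy, rfl⟩
    by_cases hp : ∃ z ∈ connectedComponentIn (V \ S) y, z ∈ Cp
    · obtain ⟨z, hz, hzp⟩ := hp
      exact Or.inl (Or.inl ⟨z, hzp, connectedComponentIn_eq hz⟩)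
    by_cases hm : ∃ z ∈ connectedComponentIn (V \ S) y, z ∈ Cm
    · obtain ⟨z, hz, hzm⟩ := hm
      exact Or.inl (Or.inr ⟨z, hzm, connectedComponentIn_eq hz⟩)
    have heq := comp_Split h hL hV hVS hy0 hloc hy (fun z hz hzp => hp ⟨z, hz, hzp⟩)
      (fun z hz hzm => hm ⟨z, hz, hzm⟩)
    refine Or.inr ⟨⟨y, hy.1, heq⟩, fun h1 => ?_⟩
    have h2 : connectedComponentIn (V \ S) y = connectedComponentIn V s0 := h1
    have h3 : s0 ∈ connectedComponentIn (V \ S) y := by
      rw [h2]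
      exact mem_connectedComponentIn (hSV hs0)
    exact (connectedComponentIn_subset _ _ h3).2 hs0
  unfold wc
  rw [← encard_sdiff_singleton_add_one hG0]
  refine (encard_le_encard hsub).trans ((encard_union_le _ _).trans ?_)
  have h1 := (encard_union_le _ _).trans (add_le_add (one_Split hCp hpV) (one_Split hCm hmV))
  refine (add_le_add h1 le_rfl).trans (le_of_eq ?_)
  rw [add_comm, add_assoc]

end Pool.Agent.MP_a2955b_co.Gen

end

section
set_option autoImplicit false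

namespace Pool.Agent.MP_a2955b_co.Gen

open Set Module Pool.Agent.MP_a2955b_co.Up
open scoped Classical

section

variable {E : Type} [NormedAddCommGroup E] [NormedSpace ℝ E]

/-- Half balls. -/
def hb_One (L : Set E) (g : Af E) (s : E) (ε : ℝ) : Set E :=
  Metric.ball s ε ∩ L ∩ {y | 0 < g y}

/-- A half ball at `s` lies in `G`. -/
def nr_One (L : Set E) (g : Af E) (G : Set E) (s : E) : Prop :=
  ∃ ε : ℝ, 0 < ε ∧ hb_One L g s ε ⊆ G

theorem ne_One {L : Set E} (hL : Flat L) {g : Af E} (hg : ∃ y ∈ L, g y ≠ 0) {s : E} (hs : s ∈ L)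
    (h0 : g s = 0) {ε : ℝ} (hε : 0 < ε) : (hb_One L g s ε).Nonempty := by
  obtain ⟨y, hy, h1⟩ := hg
  have hc : Continuous fun t : ℝ => s + (t * g y) • (y - s) := by fun_prop
  have h2 : ∀ᶠ t in nhds (0 : ℝ), s + (t * g y) • (y - s) ∈ Metric.ball s ε :=
    hc.continuousAt.eventually (Metric.isOpen_ball.mem_nhds (by simpa using hε))
  obtain ⟨t, h3, h4⟩ := ((h2.filter_mono nhdsWithin_le_nhds).and
    (self_mem_nhdsWithin (s := Ioi (0 : ℝ)))).exists
  refine ⟨_, ⟨h3, hL s hs y hy _⟩, ?_⟩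
  show 0 < g (s + (t * g y) • (y - s))
  rw [af_add, map_smul, af_sub, h0, zero_add, sub_zero, smul_eq_mul, mul_assoc]
  exact mul_pos h4 (mul_self_pos.2 h1)

theorem in_One {C W : Set E} (hC : Convex ℝ C) (hW : C ⊆ W) {a x : E} (hx : x ∈ C)
    (ha : x ∈ connectedComponentIn W a) : C ⊆ connectedComponentIn W a := by
  rw [connectedComponentIn_eq ha]
  exact hC.isPreconnected.subset_connectedComponentIn hx hW

theorem cv_One {L : Set E} (hL : Flat L) (g : Af E) (s : E) (ε : ℝ) :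
    Convex ℝ (hb_One L g s ε) := ((convex_ball s ε).inter hL.convex).inter (convex_pos g)

theorem mono_One {L : Set E} {g : Af E} {s s' : E} {ε ε' : ℝ}
    (h : Metric.ball s ε ⊆ Metric.ball s' ε') : hb_One L g s ε ⊆ hb_One L g s' ε' :=
  fun _ hx => ⟨⟨h hx.1.1, hx.1.2⟩, hx.2⟩

theorem prop_One {L W S : Set E} (hL : Flat L) {g : Af E} (hg : ∃ y ∈ L, g y ≠ 0)
    (hS : IsPreconnected S) (h : ∀ s ∈ S, s ∈ L ∧ g s = 0 ∧ nr_One L g W s) (a : E) {s s' : E}
    (hs : s ∈ S) (hs' : s' ∈ S) :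
    nr_One L g (connectedComponentIn W a) s → nr_One L g (connectedComponentIn W a) s' := by
  refine hS.induction₂' (fun s s' => nr_One L g (connectedComponentIn W a) s →
    nr_One L g (connectedComponentIn W a) s') (fun s hs => ?_)
    (fun _ _ _ _ _ _ h1 h2 h3 => h2 (h1 h3)) hs hs'
  obtain ⟨h1, h2, ε, hε, h3⟩ := h s hs
  filter_upwards [self_mem_nhdsWithin, nhdsWithin_le_nhds (Metric.ball_mem_nhds s hε)]
    with y hy hy'
  have h4 : 0 < ε - dist y s := sub_pos.2 hy'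
  have h5 : Metric.ball y (ε - dist y s) ⊆ Metric.ball s ε := Metric.ball_subset_ball' (by linarith)
  refine ⟨fun ⟨δ, hδ, h6⟩ => ?_, fun ⟨δ, hδ, h6⟩ => ?_⟩
  · obtain ⟨x, hx⟩ := ne_One hL hg h1 h2 (lt_min hε hδ)
    exact ⟨_, h4, (mono_One h5).trans (in_One (cv_One hL g s ε) h3
      (mono_One (Metric.ball_subset_ball (min_le_left _ _)) hx)
      (h6 (mono_One (Metric.ball_subset_ball (min_le_right _ _)) hx)))⟩
  · obtain ⟨x, hx⟩ := ne_One hL hg (h y hy).1 (h y hy).2.1 (lt_min h4 hδ)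
    exact ⟨ε, hε, in_One (cv_One hL g s ε) h3
      (mono_One ((Metric.ball_subset_ball (min_le_left _ _)).trans h5) hx)
      (h6 (mono_One (Metric.ball_subset_ball (min_le_right _ _)) hx))⟩

theorem loc_One {L V S : Set E} (hV : RO L V) {g : Af E} (h0 : ∀ y ∈ S, g y = 0) {s : E}
    (hs : s ∈ V) : nr_One L g (V \ S) s := by
  obtain ⟨ε, hε, h⟩ := hV.2 s hs
  exact ⟨ε, hε, fun x hx => ⟨h hx.1, fun h1 => (h0 x h1).not_gt hx.2⟩⟩

theorem comb_One [FiniteDimensional ℝ E] (H : SSplit) {L V S : Set E} {h : Af E} (hL : Flat L)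
    (hV : RO L V) (hV' : RO L (V \ S)) (hS : S ⊆ V) (h0 : ∀ y ∈ S, h y = 0)
    (hg : ∃ y ∈ L, h y ≠ 0)
    (key : ∀ g : Af E, (∀ y, g y = 0 ↔ h y = 0) →
      ∃ a, ∀ s ∈ S, nr_One L g (connectedComponentIn (V \ S) a) s) : wc (V \ S) ≤ wc V + 1 := by
  obtain ⟨a, ha⟩ := key h fun _ => Iff.rfl
  obtain ⟨b, hb⟩ := key (-h) fun _ => neg_eq_zero
  refine H E L V S _ _ h hL hV hV' hS h0 hg (isPreconnected_connectedComponentIn (x := a))
    (isPreconnected_connectedComponentIn (x := b)) (connectedComponentIn_subset _ _)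
    (connectedComponentIn_subset _ _) fun s hs => ?_
  obtain ⟨ε, hε, h1⟩ := ha s hs
  obtain ⟨δ, hδ, h2⟩ := hb s hs
  exact ⟨min ε δ, lt_min hε hδ, fun y hy hy' =>
    ⟨fun h3 => h1 ⟨⟨Metric.ball_subset_ball (min_le_left _ _) hy, hy'⟩, h3⟩,
      fun h3 => h2 ⟨⟨Metric.ball_subset_ball (min_le_right _ _) hy, hy'⟩, neg_pos.2 h3⟩⟩⟩

end

theorem sSplitOne (h : SSplit) : SSplitOne := by
  intro E _ _ _ L V S z hL hV hV' hS h0 hg hc
  refine comb_One h hL hV hV' hS h0 hg fun g hz => ?_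
  rcases S.eq_empty_or_nonempty with rfl | ⟨s, hs⟩
  · exact ⟨0, fun s hs => hs.elim⟩
  have h1 : ∀ y ∈ S, g y = 0 := fun y hy => (hz y).2 (h0 y hy)
  have h2 : ∃ y ∈ L, g y ≠ 0 := hg.imp fun y hy => ⟨hy.1, fun h => hy.2 ((hz y).1 h)⟩
  obtain ⟨ε, hε, h3⟩ := loc_One hV h1 (hS hs)
  obtain ⟨x, hx⟩ := ne_One hL h2 (hV.1 (hS hs)) (h1 s hs) hε
  exact ⟨x, fun s' hs' => prop_One hL h2 hc
    (fun y hy => ⟨hV.1 (hS hy), h1 y hy, loc_One hV h1 (hS hy)⟩) x hs hs'
    ⟨ε, hε, in_One (cv_One hL g s ε) h3 hx (mem_connectedComponentIn (h3 hx))⟩⟩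

theorem sJob (h : SSplit) : SJob := by
  intro E _ _ _ V U z hV hU hUc hz hUV
  obtain ⟨S, hS⟩ : ∃ S : Set E, ∀ y, y ∈ S ↔ ∃ a ∈ V ∩ {y | z y = 0} ∩ U,
    y ∈ connectedComponentIn (V ∩ {y | z y = 0}) a := ⟨{y | _}, fun _ => Iff.rfl⟩
  have hsub : ∀ y ∈ S, y ∈ V ∧ z y = 0 := fun y hy => by
    obtain ⟨a, -, ha⟩ := (hS y).1 hy
    have h1 := connectedComponentIn_subset _ _ ha
    exact h1
  have hb : ∀ (q : E) (ε : ℝ), Metric.ball q ε ⊆ V → ∀ x ∈ Metric.ball q ε, x ∈ S →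
      ∀ y ∈ Metric.ball q ε, z y = 0 → y ∈ S := fun q ε h1 x hx hx' y hy hy' => by
    obtain ⟨a, ha, h2⟩ := (hS x).1 hx'
    exact (hS y).2 ⟨a, ha, in_One ((convex_ball q ε).inter (convex_zero z))
      (inter_subset_inter_left _ h1) ⟨hx, (hsub x hx').2⟩ h2 ⟨hy, hy'⟩⟩
  have ro : ∀ A : Set E, IsOpen A → RO univ A := fun A hA => ⟨subset_univ _, fun y hy =>
    (Metric.isOpen_iff.1 hA y hy).imp fun ε hε => ⟨hε.1, inter_subset_left.trans hε.2⟩⟩
  have ho : IsOpen (V \ S) := by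
    refine isOpen_iff_mem_nhds.2 fun y hy => ?_
    by_cases h1 : z y = 0
    · obtain ⟨ε, hε, h2⟩ := Metric.isOpen_iff.1 hV y hy.1
      filter_upwards [Metric.ball_mem_nhds y hε] with x hx
      exact ⟨h2 hx, fun h3 => hy.2 (hb y ε h2 x hx h3 y (Metric.mem_ball_self hε) h1)⟩
    · filter_upwards [hV.mem_nhds hy.1, (af_continuous z).continuousAt.eventually_ne h1]
        with x h2 h3
      exact ⟨h2, fun h4 => h3 (hsub x h4).2⟩
  have hg : ∃ y ∈ (univ : Set E), z y ≠ 0 := (dense_ne z hz).nonempty.imp fun y hy => ⟨trivial, hy⟩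
  refine ⟨V \ S, sdiff_subset, ho, comb_One h flat_univ (ro V hV) (ro _ ho)
    (fun y hy => (hsub y hy).1) (fun y hy => (hsub y hy).2) hg fun g hzg => ?_,
    fun y hy h1 => ⟨hy, fun h2 => h1 (hsub y h2).2⟩,
    fun y hy h1 h2 => h2.2 ((hS y).2 ⟨y, ⟨⟨h2.1, h1⟩, hy⟩, mem_connectedComponentIn ⟨h2.1, h1⟩⟩),
    fun q hq h1 => ?_⟩
  · have h1 : ∀ y ∈ S, g y = 0 := fun y hy => (hzg y).2 (hsub y hy).2
    have h2 : ∃ y ∈ (univ : Set E), g y ≠ 0 := hg.imp fun y hy => ⟨hy.1, fun h => hy.2 ((hzg y).1 h)⟩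
    rcases (U ∩ {y | 0 < g y}).eq_empty_or_nonempty with he | ⟨x, hx⟩
    · refine ⟨0, fun s hs => ?_⟩
      obtain ⟨a, ha, -⟩ := (hS s).1 hs
      obtain ⟨ε, hε, h3⟩ := Metric.isOpen_iff.1 hU a ha.2
      obtain ⟨x, hx⟩ := ne_One flat_univ h2 (mem_univ a) ((hzg a).2 ha.1.2) hε
      exact (he.subset ⟨h3 hx.1.1, hx.2⟩).elim
    have h3 : U ∩ {y | 0 < g y} ⊆ V \ S := fun y hy =>
      ⟨hUV y hy.1 fun h => ((hzg y).2 h).not_gt hy.2, fun h => (h1 y h).not_gt hy.2⟩
    have h4 := in_One (hUc.inter (convex_pos g)) h3 hx (mem_connectedComponentIn (h3 hx))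
    refine ⟨x, fun s hs => ?_⟩
    obtain ⟨a, ha, h5⟩ := (hS s).1 hs
    obtain ⟨ε, hε, h6⟩ := Metric.isOpen_iff.1 hU a ha.2
    refine prop_One flat_univ h2 isPreconnected_connectedComponentIn (fun y hy => ?_) x
      (mem_connectedComponentIn ha.1) h5 ⟨ε, hε, fun y hy => h4 ⟨h6 hy.1.1, hy.2⟩⟩
    have h7 := connectedComponentIn_subset _ _ hy
    exact ⟨trivial, (hzg y).2 h7.2, loc_One (ro V hV) h1 h7.1⟩
  · have h2 : q ∈ S := by
      by_contra h2
      exact h1 ⟨hq, h2⟩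
    obtain ⟨ε, hε, h3⟩ := Metric.isOpen_iff.1 hV q hq
    exact ⟨(hsub q h2).2, ε, hε, fun y hy h4 h5 =>
      h5.2 (hb q ε h3 q (Metric.mem_ball_self hε) h2 y hy h4)⟩

end Pool.Agent.MP_a2955b_co.Gen

end

section
/-! Removing a hyperplane, removing the plates. -/

set_option autoImplicit false

namespace Pool.Agent.MP_a2955b_co.Gen

open Set Module Pool.Agent.MP_a2955b_co.Up
open scoped Classical

theorem ro_Cut {E : Type} [NormedAddCommGroup E] [NormedSpace ℝ E] [FiniteDimensional ℝ E]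
    {L V : Set E} {h : Af E} (hL : Flat L) (hV : RO L V) {T : Set (Set E)}
    (hT : ∀ C ∈ T, ∃ y, C = connectedComponentIn (V ∩ {y | h y = 0}) y) : RO L (V \ ⋃₀ T) := by
  refine ⟨sdiff_subset.trans hV.1, fun y hy => ?_⟩
  obtain ⟨ε, e0, e1⟩ := hV.2 y hy.1
  by_cases h0 : h y = 0
  · refine ⟨ε, e0, fun w hw => ⟨e1 hw, fun ⟨C, hC, hwC⟩ => hy.2 ⟨C, hC, ?_⟩⟩⟩
    obtain ⟨y', rfl⟩ := hT C hC
    rw [connectedComponentIn_eq hwC]
    exact (((convex_ball y ε).inter hL.convex).inter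
      (convex_zero h)).isPreconnected.subset_connectedComponentIn
      ⟨hw, (connectedComponentIn_subset _ _ hwC).2⟩ (inter_subset_inter_left _ e1)
      ⟨⟨Metric.mem_ball_self e0, hV.1 hy.1⟩, h0⟩
  · obtain ⟨δ, d0, d1⟩ := Metric.isOpen_iff.1 (isOpen_ne_fun (af_continuous h) continuous_const) y h0
    refine ⟨min ε δ, lt_min e0 d0, fun w hw =>
      ⟨e1 ⟨Metric.ball_subset_ball (min_le_left _ _) hw.1, hw.2⟩, fun ⟨C, hC, hwC⟩ => ?_⟩⟩
    obtain ⟨y', rfl⟩ := hT C hC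
    exact d1 (Metric.ball_subset_ball (min_le_right _ _) hw.1)
      (connectedComponentIn_subset _ _ hwC).2

theorem sCut (_h0 : SWc) (h : SSplitOne) : SCut := by
  intro E _ _ _ L V g hL hV hg
  obtain ⟨W, hW⟩ : ∃ W, W = V ∩ {y | g y = 0} := ⟨_, rfl⟩
  obtain ⟨P, hP⟩ : ∃ P, P = {C : Set E | ∃ y ∈ W, C = connectedComponentIn W y} := ⟨_, rfl⟩
  have m : ∀ C ∈ P, ∃ y, C = connectedComponentIn (V ∩ {y | g y = 0}) y := fun C hC => by
    rw [hP, hW] at hC
    exact hC.imp fun _ => And.right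
  have e : V ∩ {y | g y ≠ 0} = V \ ⋃₀ P := by
    ext y
    refine and_congr_right fun hy => not_congr ⟨fun h0 => ?_, fun ⟨C, hC, hyC⟩ => ?_⟩
    · have : y ∈ W := hW ▸ ⟨hy, h0⟩
      exact ⟨_, hP ▸ ⟨y, this, rfl⟩, mem_connectedComponentIn this⟩
    · obtain ⟨y', rfl⟩ := m C hC
      exact (connectedComponentIn_subset _ _ hyC).2
  rw [e, ← hW, show wc W = P.encard by rw [hP, wc]]
  rcases P.finite_or_infinite with hf | hf
  · refine Set.Finite.induction_on_subset (motive := fun T _ => wc (V \ ⋃₀ T) ≤ wc V + T.encard)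
      P hf (by simp) fun {S T} hS hT hST ih => ?_
    have e2 : V \ ⋃₀ insert S T = (V \ ⋃₀ T) \ S := by
      rw [sUnion_insert, sdiff_sdiff, union_comm]
    have r := ro_Cut hL hV (T := insert S T) fun C hC => m C (insert_subset hS hT hC)
    obtain ⟨y, rfl⟩ := m S hS
    rw [encard_insert_of_notMem hST, ← add_assoc, e2]
    refine (h E L _ _ g hL (ro_Cut hL hV fun C hC => m C (hT hC)) (e2 ▸ r)
      (fun w hw => ⟨(connectedComponentIn_subset _ _ hw).1, fun ⟨C, hC, hwC⟩ => hST ?_⟩)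
      (fun w hw => (connectedComponentIn_subset _ _ hw).2) hg
      isPreconnected_connectedComponentIn).trans (add_le_add_left ih 1)
    obtain ⟨y', rfl⟩ := m C (hT hC)
    rwa [connectedComponentIn_eq hw, ← connectedComponentIn_eq hwC]
  · rw [hf.encard_eq, add_top]
    exact le_top

theorem sInit (h0 : SWc) (h : SSplitOne) : SInit := by
  intro E _ _ _ ι F R g hP O hO hc X
  have ro : ∀ Y : Finset ι, RO univ (O \ ⋃ x ∈ Y, F x) := fun Y =>
    ⟨subset_univ _, fun y hy => (Metric.isOpen_iff.1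
      (hO.sdiff (isClosed_biUnion_finset fun x _ => (hP.cpt x).isClosed)) y hy).imp
        fun ε e => ⟨e.1, inter_subset_left.trans e.2⟩⟩
  induction X using Finset.induction_on with
  | empty => simpa using (h0 E).2.2.1 O hc.isPreconnected
  | insert a X ha ih =>
    have e : O \ ⋃ x ∈ insert a X, F x =
        (O \ ⋃ x ∈ X, F x) \ (F a ∩ (O \ ⋃ x ∈ X, F x)) := by
      rw [Finset.set_biUnion_insert, sdiff_inter_self_eq_sdiff, sdiff_sdiff, union_comm]
    rw [Finset.card_insert_of_notMem ha, Nat.cast_succ, ← add_assoc, e]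
    refine (h E univ _ _ (g a) flat_univ (ro X) (e ▸ ro _) inter_subset_right
      (fun y hy => hP.on a y hy.1) ((dense_ne _ (hP.lin a)).nonempty.imp fun y hy => ⟨trivial, hy⟩)
      (((hP.rconv a).inter hc).isPreconnected.subset_closure (fun y hy => ⟨hP.sub a hy.1, hy.2, ?_⟩)
        fun y hy => hO.closure_inter ⟨hP.dense a hy.1, hy.2.1⟩)).trans (add_le_add_left ih 1)
    rw [mem_iUnion₂]
    rintro ⟨x, hx, hyx⟩
    exact disjoint_left.1 (hP.disj a x fun e => ha (e ▸ hx)) hy.1 hyx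

end Pool.Agent.MP_a2955b_co.Gen

end

section
/-! Deletion and restriction for one cell. -/

set_option autoImplicit false

namespace Pool.Agent.MP_a2955b_co.Gen

open Set Module Pool.Agent.MP_a2955b_co.Up
open scoped Classical

section

variable {E : Type} [NormedAddCommGroup E] [NormedSpace ℝ E] [FiniteDimensional ℝ E]

theorem zero_Cell {S : Set E} (hS : Convex ℝ S) (z : Af E) {x y : E} (hx : x ∈ S) (hy : y ∈ S)
    (h1 : 0 ≤ z x) (h2 : z y ≤ 0) : ∃ w ∈ S, z w = 0 :=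
  hS.isPreconnected.intermediate_value hy hx (af_continuous z).continuousOn ⟨h2, h1⟩

omit [FiniteDimensional ℝ E] in
theorem both_Cell {L U : Set E} (hL : Flat L) (hU : IsOpen U) (z : Af E)
    (hz : ¬ ∀ y ∈ L, z y = 0) {y : E} (hy : y ∈ L) (hyU : y ∈ U) (h0 : z y = 0) :
    (∃ w ∈ L, w ∈ U ∧ 0 < z w) ∧ ∃ w ∈ L, w ∈ U ∧ z w < 0 := by
  push Not at hz
  obtain ⟨y0, hy0, hne⟩ := hz
  have hc : Continuous fun t : ℝ => y + t • (y0 - y) := by fun_prop
  obtain ⟨ε, hε, hb⟩ := Metric.isOpen_iff.mp (hU.preimage hc) 0 (by simpa using hyU)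
  have hv : ∀ t : ℝ, z (y + t • (y0 - y)) = t * z y0 := fun t => by
    rw [af_add, map_smul, af_sub, h0]
    simp
  have hp : y + (ε / 2) • (y0 - y) ∈ U := hb (by
    rw [mem_ball_zero_iff, Real.norm_eq_abs, abs_lt]
    constructor <;> linarith)
  have hm : y + (-(ε / 2)) • (y0 - y) ∈ U := hb (by
    rw [mem_ball_zero_iff, Real.norm_eq_abs, abs_lt]
    constructor <;> linarith)
  rcases lt_or_gt_of_ne hne with h | h
  · exact ⟨⟨_, hL y hy y0 hy0 _, hm, by rw [hv]; nlinarith⟩,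
      ⟨_, hL y hy y0 hy0 _, hp, by rw [hv]; nlinarith⟩⟩
  · exact ⟨⟨_, hL y hy y0 hy0 _, hp, by rw [hv]; nlinarith⟩,
      ⟨_, hL y hy y0 hy0 _, hm, by rw [hv]; nlinarith⟩⟩

theorem one_Cell (h0 : SWc) {K A P M O : Set E} (hO : Convex ℝ O)
    (hs : wc (P \ K) + wc (M \ K) ≤ wc (A \ K) + wc (O \ K)) (h1 : ¬ M.Nonempty → P = A)
    (h2 : M.Nonempty → Disjoint M K ∧ Disjoint O K) : wc (P \ K) ≤ wc (A \ K) := by
  by_cases hM : M.Nonempty
  · obtain ⟨a1, a2⟩ := h2 hM
    rw [a1.sdiff_eq_left, a2.sdiff_eq_left] at hs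
    have b1 := (h0 E).2.1 M hM
    have b2 := (h0 E).2.2.1 O hO.isPreconnected
    have b3 : wc (P \ K) + 1 ≤ wc (A \ K) + 1 :=
      (add_le_add le_rfl b1).trans (hs.trans (add_le_add le_rfl b2))
    exact (ENat.add_le_add_iff_right ENat.one_ne_top).mp b3
  · rw [h1 hM]

theorem star_Cell (h0 : SWc) (h : SCut) {K L U : Set E} (z : Af E) (hK : IsClosed K)
    (hL : Flat L) (hU : IsOpen U) (hz : ¬ ∀ y ∈ L, z y = 0) :
    wc ((L ∩ (U ∩ {y | 0 < z y})) \ K) + wc ((L ∩ (U ∩ {y | z y < 0})) \ K) ≤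
      wc ((L ∩ U) \ K) + wc (((L ∩ {y | z y = 0}) ∩ U) \ K) := by
  have hV : RO L ((L ∩ U) \ K) := by
    refine ⟨fun y hy => hy.1.1, fun y hy => ?_⟩
    obtain ⟨ε, hε, hb⟩ := Metric.isOpen_iff.mp (hU.inter hK.isOpen_compl) y ⟨hy.1.2, hy.2⟩
    exact ⟨ε, hε, fun w hw => ⟨⟨hw.2, (hb hw.1).1⟩, (hb hw.1).2⟩⟩
  have h1 := h E L _ z hL hV (by push Not at hz; exact hz)
  have h2 := (h0 E).1 ((L ∩ (U ∩ {y | 0 < z y})) \ K) ((L ∩ (U ∩ {y | z y < 0})) \ K) z
    (fun y hy => hy.1.2.2) (fun y hy => hy.1.2.2)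
  have e1 : ((L ∩ (U ∩ {y | 0 < z y})) \ K) ∪ ((L ∩ (U ∩ {y | z y < 0})) \ K) =
      ((L ∩ U) \ K) ∩ {y | z y ≠ 0} := by
    ext y
    constructor
    · rintro (hy | hy)
      · exact ⟨⟨⟨hy.1.1, hy.1.2.1⟩, hy.2⟩, ne_of_gt hy.1.2.2⟩
      · exact ⟨⟨⟨hy.1.1, hy.1.2.1⟩, hy.2⟩, ne_of_lt hy.1.2.2⟩
    · rintro ⟨hy, hn⟩
      rcases lt_or_gt_of_ne (show z y ≠ 0 from hn) with a | a
      · exact Or.inr ⟨⟨hy.1.1, hy.1.2, a⟩, hy.2⟩
      · exact Or.inl ⟨⟨hy.1.1, hy.1.2, a⟩, hy.2⟩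
  have e2 : ((L ∩ U) \ K) ∩ {y | z y = 0} = ((L ∩ {y | z y = 0}) ∩ U) \ K := by
    ext y
    exact ⟨fun hy => ⟨⟨⟨hy.1.1.1, hy.2⟩, hy.1.1.2⟩, hy.1.2⟩,
      fun hy => ⟨⟨⟨hy.1.1.1, hy.1.2⟩, hy.2⟩, hy.1.1.2⟩⟩
  rw [e1] at h2
  rw [e2] at h1
  exact h2.trans h1

end

theorem sCell (h0 : SWc) (h : SCut) : SCell := by
  intro E _ _ _ K L U B z hK hKc hL hU hUc hB hs hz
  have st := star_Cell h0 h z hKc hL hU hz
  have hO : Convex ℝ ((L ∩ {y | z y = 0}) ∩ U) := (hL.convex.inter (convex_zero z)).inter hUc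
  unfold wt
  by_cases hp : (L ∩ (U ∩ {y | 0 < z y})).Nonempty ∧ (B ∩ {y | 0 ≤ z y} ∩ K).Nonempty
  · have hA : (L ∩ U).Nonempty ∧ (B ∩ K).Nonempty := by
      obtain ⟨⟨x, hx⟩, ⟨y, hy⟩⟩ := hp
      exact ⟨⟨x, hx.1, hx.2.1⟩, ⟨y, hy.1.1, hy.2⟩⟩
    rw [if_pos hp, if_pos hA]
    by_cases hm : (L ∩ (U ∩ {y | z y < 0})).Nonempty ∧ (B ∩ {y | z y ≤ 0} ∩ K).Nonempty
    · have h1 : ((L ∩ {y | z y = 0}) ∩ U).Nonempty ∧ (B ∩ {y | z y = 0} ∩ K).Nonempty := by
        obtain ⟨⟨x, hx⟩, ⟨y, hy⟩⟩ := hp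
        obtain ⟨⟨x', hx'⟩, ⟨y', hy'⟩⟩ := hm
        obtain ⟨w, hw, hw0⟩ := zero_Cell (hL.convex.inter hUc) z ⟨hx.1, hx.2.1⟩ ⟨hx'.1, hx'.2.1⟩
          (le_of_lt hx.2.2) (le_of_lt hx'.2.2)
        obtain ⟨v, hv, hv0⟩ := zero_Cell (hB.inter hK) z ⟨hy.1.1, hy.2⟩ ⟨hy'.1.1, hy'.2⟩
          hy.1.2 hy'.1.2
        exact ⟨⟨w, ⟨hw.1, hw0⟩, hw.2⟩, ⟨v, ⟨hv.1, hv0⟩, hv.2⟩⟩
      rw [if_pos hm, if_pos h1]
      exact st
    · rw [if_neg hm, add_zero]
      refine le_trans (one_Cell h0 hO st (fun hM => ?_) fun hM => ⟨?_, ?_⟩) le_self_add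
      · refine Subset.antisymm (fun y hy => ⟨hy.1, hy.2.1⟩) fun y hy => ⟨hy.1, hy.2, ?_⟩
        rcases lt_trichotomy (z y) 0 with a | a | a
        · exact absurd ⟨y, hy.1, hy.2, a⟩ hM
        · obtain ⟨w, b1, b2, b3⟩ := (both_Cell hL hU z hz hy.1 hy.2 a).2
          exact absurd ⟨w, b1, b2, b3⟩ hM
        · exact a
      · exact disjoint_left.mpr fun y hy hyK =>
          hm ⟨hM, y, ⟨hs ⟨hy.1, hy.2.1⟩, (le_of_lt hy.2.2 : z y ≤ 0)⟩, hyK⟩
      · exact disjoint_left.mpr fun y hy hyK =>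
          hm ⟨hM, y, ⟨hs ⟨hy.1.1, hy.2⟩, le_of_eq hy.1.2⟩, hyK⟩
  · rw [if_neg hp, zero_add]
    by_cases hm : (L ∩ (U ∩ {y | z y < 0})).Nonempty ∧ (B ∩ {y | z y ≤ 0} ∩ K).Nonempty
    · have hA : (L ∩ U).Nonempty ∧ (B ∩ K).Nonempty := by
        obtain ⟨⟨x, hx⟩, ⟨y, hy⟩⟩ := hm
        exact ⟨⟨x, hx.1, hx.2.1⟩, ⟨y, hy.1.1, hy.2⟩⟩
      rw [if_pos hm, if_pos hA]
      rw [add_comm] at st
      refine le_trans (one_Cell h0 hO st (fun hM => ?_) fun hM => ⟨?_, ?_⟩) le_self_add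
      · refine Subset.antisymm (fun y hy => ⟨hy.1, hy.2.1⟩) fun y hy => ⟨hy.1, hy.2, ?_⟩
        rcases lt_trichotomy (z y) 0 with a | a | a
        · exact a
        · obtain ⟨w, b1, b2, b3⟩ := (both_Cell hL hU z hz hy.1 hy.2 a).1
          exact absurd ⟨w, b1, b2, b3⟩ hM
        · exact absurd ⟨y, hy.1, hy.2, a⟩ hM
      · exact disjoint_left.mpr fun y hy hyK =>
          hp ⟨hM, y, ⟨hs ⟨hy.1, hy.2.1⟩, (le_of_lt hy.2.2 : 0 ≤ z y)⟩, hyK⟩
      · exact disjoint_left.mpr fun y hy hyK =>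
          hp ⟨hM, y, ⟨hs ⟨hy.1.1, hy.2⟩, ge_of_eq hy.1.2⟩, hyK⟩
    · rw [if_neg hm]
      exact zero_le

end Pool.Agent.MP_a2955b_co.Gen

end

section
/-! Deletion and restriction for the total weight, and the properties of the cells. -/

set_option autoImplicit false

namespace Pool.Agent.MP_a2955b_co.Gen

open Set Module Pool.Agent.MP_a2955b_co.Up
open scoped Classical

section aux

variable {E : Type} [NormedAddCommGroup E] [NormedSpace ℝ E]

theorem tot_empty_Key (K L : Set E) (Z : List (Af E)) :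
    ∀ U B : Set E, L ∩ U = ∅ → tot K Z L U B = 0 := by
  induction Z with
  | nil =>
    intro U B h
    rw [tot_nil, h, wt, if_neg]
    rintro ⟨h1, -⟩
    exact not_nonempty_empty h1
  | cons z Z ih =>
    intro U B h
    by_cases hz : ∀ y ∈ L, z y = 0
    · rw [tot_skip _ _ _ _ _ _ hz]; exact ih U B h
    · rw [tot_cons _ _ _ _ _ _ hz, ih, ih, add_zero]
      · rw [← inter_assoc, h, empty_inter]
      · rw [← inter_assoc, h, empty_inter]

variable [FiniteDimensional ℝ E]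

theorem open_pos_Key (g : Af E) : IsOpen {y | 0 < g y} :=
  isOpen_lt continuous_const (af_continuous g)

theorem open_neg_Key (g : Af E) : IsOpen {y | g y < 0} :=
  isOpen_lt (af_continuous g) continuous_const

theorem step_Key (h : SCell) (K L : Set E) (z : Af E) (hK : Convex ℝ K) (hK' : IsClosed K)
    (hL : Flat L) (hz : ¬ ∀ y ∈ L, z y = 0) (Z : List (Af E)) :
    ∀ U B : Set E, IsOpen U → Convex ℝ U → Convex ℝ B → L ∩ U ⊆ B →
      tot K Z L (U ∩ {y | 0 < z y}) (B ∩ {y | 0 ≤ z y}) +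
        tot K Z L (U ∩ {y | z y < 0}) (B ∩ {y | z y ≤ 0}) ≤
      tot K Z L U B + tot K Z (L ∩ {y | z y = 0}) U (B ∩ {y | z y = 0}) := by
  induction Z with
  | nil =>
    intro U B hU hU' hB hs
    simp only [tot_nil]
    exact h E K L U B z hK hK' hL hU hU' hB hs hz
  | cons z' Z ih =>
    intro U B hU hU' hB hs
    by_cases hz' : ∀ y ∈ L, z' y = 0
    · rw [tot_skip _ _ _ _ _ _ hz', tot_skip _ _ _ _ _ _ hz', tot_skip _ _ _ _ _ _ hz',
        tot_skip _ _ _ _ _ _ (fun y hy => hz' y hy.1)]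
      exact ih U B hU hU' hB hs
    · have i1 := ih (U ∩ {y | 0 < z' y}) (B ∩ {y | 0 ≤ z' y}) (hU.inter (open_pos_Key z'))
        (hU'.inter (convex_pos z')) (hB.inter (convex_nonneg z'))
        (fun y hy => ⟨hs ⟨hy.1, hy.2.1⟩, (le_of_lt (show 0 < z' y from hy.2.2) : 0 ≤ z' y)⟩)
      have i2 := ih (U ∩ {y | z' y < 0}) (B ∩ {y | z' y ≤ 0}) (hU.inter (open_neg_Key z'))
        (hU'.inter (convex_neg z')) (hB.inter (convex_nonpos z'))
        (fun y hy => ⟨hs ⟨hy.1, hy.2.1⟩, (le_of_lt (show z' y < 0 from hy.2.2) : z' y ≤ 0)⟩)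
      have i3 : tot K Z (L ∩ {y | z y = 0}) (U ∩ {y | 0 < z' y})
            (B ∩ {y | 0 ≤ z' y} ∩ {y | z y = 0}) +
          tot K Z (L ∩ {y | z y = 0}) (U ∩ {y | z' y < 0})
            (B ∩ {y | z' y ≤ 0} ∩ {y | z y = 0}) ≤
          tot K (z' :: Z) (L ∩ {y | z y = 0}) U (B ∩ {y | z y = 0}) := by
        by_cases h0 : ∀ y ∈ L ∩ {y | z y = 0}, z' y = 0
        · rw [tot_empty_Key, tot_empty_Key, add_zero]
          · exact zero_le
          · exact eq_empty_of_forall_notMem fun y hy => (ne_of_lt hy.2.2) (h0 y hy.1)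
          · exact eq_empty_of_forall_notMem fun y hy => (ne_of_gt hy.2.2) (h0 y hy.1)
        · rw [tot_cons _ _ _ _ _ _ h0, inter_right_comm B {y | z y = 0},
            inter_right_comm B {y | z y = 0}]
      rw [tot_cons _ _ _ _ _ _ hz', tot_cons _ _ _ _ _ _ hz', tot_cons _ _ _ _ _ _ hz',
        inter_right_comm U {y | 0 < z y} {y | 0 < z' y},
        inter_right_comm U {y | 0 < z y} {y | z' y < 0},
        inter_right_comm U {y | z y < 0} {y | 0 < z' y},
        inter_right_comm U {y | z y < 0} {y | z' y < 0},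
        inter_right_comm B {y | 0 ≤ z y} {y | 0 ≤ z' y},
        inter_right_comm B {y | 0 ≤ z y} {y | z' y ≤ 0},
        inter_right_comm B {y | z y ≤ 0} {y | 0 ≤ z' y},
        inter_right_comm B {y | z y ≤ 0} {y | z' y ≤ 0}, add_add_add_comm]
      refine (add_le_add i1 i2).trans ?_
      rw [add_add_add_comm]
      exact add_le_add le_rfl i3

theorem leaf_one_Key (L : Set E) (Z : List (Af E)) :
    ∀ U B : Set E, IsOpen U → Convex ℝ U → ∀ c ∈ lv Z L U B, IsOpen c.1 ∧ Convex ℝ c.1 ∧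
      c.1 ⊆ U ∧ ∀ z ∈ Z, (∀ y ∈ L, z y = 0) ∨ ∀ y ∈ c.1, z y ≠ 0 := by
  induction Z with
  | nil =>
    intro U B hU hU' c hc
    simp only [lv, List.mem_singleton] at hc
    subst hc
    exact ⟨hU, hU', subset_rfl, fun z hz => absurd hz List.not_mem_nil⟩
  | cons z Z ih =>
    intro U B hU hU' c hc
    by_cases hz : ∀ y ∈ L, z y = 0
    · simp only [lv, if_pos hz] at hc
      obtain ⟨h1, h2, h3, h4⟩ := ih U B hU hU' c hc
      refine ⟨h1, h2, h3, fun z' hz' => ?_⟩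
      rcases List.mem_cons.1 hz' with rfl | hz'
      · exact Or.inl hz
      · exact h4 z' hz'
    · simp only [lv, if_neg hz, List.mem_append] at hc
      rcases hc with hc | hc
      · obtain ⟨h1, h2, h3, h4⟩ := ih _ _ (hU.inter (open_pos_Key z))
          (hU'.inter (convex_pos z)) c hc
        refine ⟨h1, h2, fun y hy => (h3 hy).1, fun z' hz' => ?_⟩
        rcases List.mem_cons.1 hz' with rfl | hz'
        · exact Or.inr fun y hy => ne_of_gt (h3 hy).2
        · exact h4 z' hz'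
      · obtain ⟨h1, h2, h3, h4⟩ := ih _ _ (hU.inter (open_neg_Key z))
          (hU'.inter (convex_neg z)) c hc
        refine ⟨h1, h2, fun y hy => (h3 hy).1, fun z' hz' => ?_⟩
        rcases List.mem_cons.1 hz' with rfl | hz'
        · exact Or.inr fun y hy => ne_of_lt (h3 hy).2
        · exact h4 z' hz'

theorem leaf_two_Key (L : Set E) (hL : Flat L) (Z : List (Af E)) (q : E) :
    ∀ U B : Set E, IsOpen U → q ∈ B → ∃ ε : ℝ, 0 < ε ∧ Metric.ball q ε ∩ (L ∩ U) ⊆
      closure {y | ∃ c ∈ lv Z L U B, q ∈ c.2 ∧ y ∈ L ∩ c.1} := by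
  induction Z with
  | nil =>
    intro U B _ hq
    exact ⟨1, one_pos, fun y hy => subset_closure ⟨(U, B), by simp [lv], hq, hy.2⟩⟩
  | cons z Z ih =>
    intro U B hU hq
    by_cases hz : ∀ y ∈ L, z y = 0
    · simp only [lv, if_pos hz]
      exact ih U B hU hq
    simp only [lv, if_neg hz]
    have m1 : closure {y | ∃ c ∈ lv Z L (U ∩ {y | 0 < z y}) (B ∩ {y | 0 ≤ z y}),
        q ∈ c.2 ∧ y ∈ L ∩ c.1} ⊆ closure {y | ∃ c ∈ lv Z L (U ∩ {y | 0 < z y}) (B ∩ {y | 0 ≤ z y}) ++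
          lv Z L (U ∩ {y | z y < 0}) (B ∩ {y | z y ≤ 0}), q ∈ c.2 ∧ y ∈ L ∩ c.1} :=
      closure_mono fun y ⟨c, hc, h⟩ => ⟨c, List.mem_append_left _ hc, h⟩
    have m2 : closure {y | ∃ c ∈ lv Z L (U ∩ {y | z y < 0}) (B ∩ {y | z y ≤ 0}),
        q ∈ c.2 ∧ y ∈ L ∩ c.1} ⊆ closure {y | ∃ c ∈ lv Z L (U ∩ {y | 0 < z y}) (B ∩ {y | 0 ≤ z y}) ++
          lv Z L (U ∩ {y | z y < 0}) (B ∩ {y | z y ≤ 0}), q ∈ c.2 ∧ y ∈ L ∩ c.1} :=
      closure_mono fun y ⟨c, hc, h⟩ => ⟨c, List.mem_append_right _ hc, h⟩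
    rcases lt_trichotomy (z q) 0 with h | h | h
    · obtain ⟨ε, hε, hs⟩ := ih (U ∩ {y | z y < 0}) (B ∩ {y | z y ≤ 0})
        (hU.inter (open_neg_Key z)) ⟨hq, le_of_lt h⟩
      obtain ⟨δ, hδ, hb⟩ := Metric.isOpen_iff.1 (open_neg_Key z) q h
      exact ⟨min ε δ, lt_min hε hδ, fun y hy => m2 (hs
        ⟨Metric.ball_subset_ball (min_le_left _ _) hy.1, hy.2.1, hy.2.2,
          hb (Metric.ball_subset_ball (min_le_right _ _) hy.1)⟩)⟩
    · obtain ⟨ε, hε, hs⟩ := ih (U ∩ {y | z y < 0}) (B ∩ {y | z y ≤ 0})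
        (hU.inter (open_neg_Key z)) ⟨hq, le_of_eq h⟩
      obtain ⟨δ, hδ, hb⟩ := ih (U ∩ {y | 0 < z y}) (B ∩ {y | 0 ≤ z y})
        (hU.inter (open_pos_Key z)) ⟨hq, ge_of_eq h⟩
      refine ⟨min ε δ, lt_min hε hδ, ?_⟩
      have key : ∀ y ∈ Metric.ball q (min ε δ) ∩ (L ∩ U), z y ≠ 0 → y ∈ closure
          {y | ∃ c ∈ lv Z L (U ∩ {y | 0 < z y}) (B ∩ {y | 0 ≤ z y}) ++
            lv Z L (U ∩ {y | z y < 0}) (B ∩ {y | z y ≤ 0}), q ∈ c.2 ∧ y ∈ L ∩ c.1} := by
        intro y hy hne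
        rcases lt_or_gt_of_ne hne with h' | h'
        · exact m2 (hs ⟨Metric.ball_subset_ball (min_le_left _ _) hy.1, hy.2.1, hy.2.2, h'⟩)
        · exact m1 (hb ⟨Metric.ball_subset_ball (min_le_right _ _) hy.1, hy.2.1, hy.2.2, h'⟩)
      intro y hy
      by_cases hy0 : z y = 0
      swap
      · exact key y hy hy0
      push Not at hz
      obtain ⟨y0, hy0L, hy0z⟩ := hz
      have hc : Continuous fun t : ℝ => y + t • (y0 - y) := by fun_prop
      have ht : Filter.Tendsto (fun t : ℝ => y + t • (y0 - y)) (nhds 0) (nhds y) := by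
        have := hc.tendsto 0
        simpa using this
      have ht' := ht.mono_left (nhdsWithin_le_nhds (s := {(0 : ℝ)}ᶜ))
      refine isClosed_closure.mem_of_tendsto ht' ?_
      have e1 := ht'.eventually ((Metric.isOpen_ball.inter hU).mem_nhds ⟨hy.1, hy.2.2⟩)
      filter_upwards [e1, self_mem_nhdsWithin] with t h1 h2
      refine key _ ⟨h1.1, hL y hy.2.1 y0 hy0L t, h1.2⟩ ?_
      rw [af_add, map_smul, af_sub, hy0, zero_add, sub_zero, smul_eq_mul]
      exact mul_ne_zero h2 hy0z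
    · obtain ⟨ε, hε, hs⟩ := ih (U ∩ {y | 0 < z y}) (B ∩ {y | 0 ≤ z y})
        (hU.inter (open_pos_Key z)) ⟨hq, le_of_lt h⟩
      obtain ⟨δ, hδ, hb⟩ := Metric.isOpen_iff.1 (open_pos_Key z) q h
      exact ⟨min ε δ, lt_min hε hδ, fun y hy => m1 (hs
        ⟨Metric.ball_subset_ball (min_le_left _ _) hy.1, hy.2.1, hy.2.2,
          hb (Metric.ball_subset_ball (min_le_right _ _) hy.1)⟩)⟩

end aux

theorem sKey (h : SCell) : SKey := by
  intro E _ _ _ K Z L U B z hK hK' hL hU hU' hB hs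
  refine ⟨tot_empty_Key K L Z U B, fun hz => ?_⟩
  rw [tot_cons _ _ _ _ _ _ hz]
  exact step_Key h K L z hK hK' hL hz Z U B hU hU' hB hs

theorem sLeaf : SLeaf := by
  intro E _ _ _ Z L U B hL hU hU'
  exact ⟨leaf_one_Key L Z U B hU hU', fun q hq => leaf_two_Key L hL Z q U B hU hq⟩

end Pool.Agent.MP_a2955b_co.Gen

end

section
set_option autoImplicit false

namespace Pool.Agent.MP_a2955b_co.Gen

open Set Module Pool.Agent.MP_a2955b_co.Up
open scoped Classical

section aux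

variable {E : Type} [NormedAddCommGroup E] [NormedSpace ℝ E] [FiniteDimensional ℝ E]

theorem point_Count (h0 : SWc) (h : SKey) {K L U : Set E} (hK : Convex ℝ K) (hK' : IsClosed K)
    (hU : IsOpen U) (hU' : Convex ℝ U) (hL : Flat L) (hs : L.Subsingleton) (Z : List (Af E)) :
    tot K Z L U (L ∩ U) = 0 := by
  induction Z with
  | nil =>
    rw [tot_nil, wt]
    split_ifs with c
    · obtain ⟨y, y1, y2⟩ := c.2
      have e : (L ∩ U) \ K = ∅ :=
        eq_empty_of_forall_notMem fun x hx => hx.2 (hs y1.1 hx.1.1 ▸ y2)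
      rw [e]
      exact (h0 E).2.2.2.1
    · rfl
  | cons z Z ih =>
    by_cases c : ∀ y ∈ L, z y = 0
    · rw [tot_skip K z Z L U _ c, ih]
    · have h1 := (h E K Z L U (L ∩ U) z hK hK' hL hU hU' (hL.convex.inter hU') le_rfl).2 c
      have h2 := (h E K Z (L ∩ {y | z y = 0}) U (L ∩ U ∩ {y | z y = 0}) z hK hK'
        (hL.inter_zero z) hU hU' ((hL.convex.inter hU').inter (flat_univ.inter_zero z |>.convex
          |> fun hc => by simpa using hc)) (fun y hy => ⟨⟨hy.1.1, hy.2⟩, hy.1.2⟩)).1 (by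
          refine eq_empty_of_forall_notMem fun x hx => c fun y hy => ?_
          rw [hs hy hx.1.1]
          exact hx.1.2)
      rw [ih, h2, add_zero] at h1
      exact nonpos_iff_eq_zero.1 h1

theorem sub_Count {ι : Type} {h : ι → Af E} {t : Finset ι} (ht : Ind h t)
    (hc : t.card = finrank ℝ E) : (FL h t).Subsingleton := by
  intro x hx y hy
  have h1 := finrank_ker_add (fun i : t => (h i).linear) ht
  rw [Fintype.card_coe, hc, Nat.add_eq_right, Submodule.finrank_eq_zero] at h1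
  have h2 : x - y ∈ (⨅ i : t, LinearMap.ker (h i).linear : Submodule ℝ E) := by
    rw [Submodule.mem_iInf]
    intro i
    rw [LinearMap.mem_ker, af_sub, hx i i.2, hy i i.2, sub_self]
  rw [h1, Submodule.mem_bot] at h2
  exact sub_eq_zero.1 h2

omit [FiniteDimensional ℝ E] in
theorem ins_Count {ι : Type} {h : ι → Af E} {t : Finset ι} {x : ι} (ht : Ind h t) {y0 y1 : E}
    (h0 : y0 ∈ FL h t) (h0' : h x y0 = 0) (h1 : y1 ∈ FL h t) (h1' : h x y1 ≠ 0) :
    Ind h (insert x t) := by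
  have h2 : LinearIndepOn ℝ (fun i => (h i).linear) (t : Set ι) := ht
  have h3 := h2.insert (x := x) fun hx => h1' (by
    have h4 : (h x).linear (y1 - y0) = 0 := by
      refine Submodule.span_induction (p := fun f _ => f (y1 - y0) = 0) ?_ ?_ ?_ ?_ hx
      · rintro _ ⟨i, hi, rfl⟩
        show (h i).linear (y1 - y0) = 0
        rw [af_sub, h0 i hi, h1 i hi, sub_self]
      · simp
      · intro a b _ _ ha hb
        rw [LinearMap.add_apply, ha, hb, add_zero]
      · intro c a _ ha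
        rw [LinearMap.smul_apply, ha, smul_zero]
    rwa [af_sub, h0', sub_zero] at h4)
  rw [← Finset.coe_insert] at h3
  exact h3

omit [FiniteDimensional ℝ E] in
theorem FL_ins_Count {ι : Type} (h : ι → Af E) (t : Finset ι) (x : ι) :
    FL h t ∩ {y | h x y = 0} = FL h (insert x t) := by
  ext y
  simp only [FL, mem_inter_iff, mem_ofPred_eq, Finset.forall_mem_insert]
  exact and_comm

omit [FiniteDimensional ℝ E] in
theorem sum_Count {ι : Type} (h : ι → Af E) (β : Finset ι → ℕ) {t S : Finset ι} {x : ι}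
    (hx : x ∉ S) (hxt : x ∉ t) (r : ℕ) :
    ∑ s ∈ (S.powersetCard (r + 1)).filter (fun s => Disjoint t s ∧ Ind h (t ∪ s)), β (t ∪ s) +
      ∑ s ∈ (S.powersetCard r).filter (fun s => Disjoint (insert x t) s ∧ Ind h (insert x t ∪ s)),
        β (insert x t ∪ s) ≤
    ∑ s ∈ ((insert x S).powersetCard (r + 1)).filter (fun s => Disjoint t s ∧ Ind h (t ∪ s)),
      β (t ∪ s) := by
  have e : ∀ s : Finset ι, insert x t ∪ s = t ∪ insert x s := fun s => by
    rw [Finset.insert_union, Finset.union_insert]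
  have hn : ∀ {k : ℕ} {s : Finset ι}, s ∈ S.powersetCard k → x ∉ s := fun hs h1 =>
    hx ((Finset.mem_powersetCard.1 hs).1 h1)
  have h1 : ∑ s ∈ (S.powersetCard r).filter
        (fun s => Disjoint (insert x t) s ∧ Ind h (insert x t ∪ s)), β (insert x t ∪ s) =
      ∑ s ∈ ((S.powersetCard r).filter
        (fun s => Disjoint (insert x t) s ∧ Ind h (insert x t ∪ s))).image (insert x),
          β (t ∪ s) := by
    rw [Finset.sum_image fun a ha b hb hab => by
      rw [← Finset.erase_insert (hn (Finset.mem_filter.1 (Finset.mem_coe.1 ha)).1), hab,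
        Finset.erase_insert (hn (Finset.mem_filter.1 (Finset.mem_coe.1 hb)).1)]]
    exact Finset.sum_congr rfl fun s _ => by rw [e]
  rw [h1, ← Finset.sum_union (Finset.disjoint_left.2 fun s hs hs' => by
    obtain ⟨s', -, rfl⟩ := Finset.mem_image.1 hs'
    exact hn (Finset.mem_filter.1 hs).1 (Finset.mem_insert_self _ _))]
  refine Finset.sum_le_sum_of_subset fun s hs => ?_
  rcases Finset.mem_union.1 hs with hs | hs
  · obtain ⟨a1, a2⟩ := Finset.mem_filter.1 hs
    exact Finset.mem_filter.2 ⟨Finset.powersetCard_mono (Finset.subset_insert _ _) a1, a2⟩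
  · obtain ⟨s', hs', rfl⟩ := Finset.mem_image.1 hs
    obtain ⟨a1, a2, a3⟩ := Finset.mem_filter.1 hs'
    obtain ⟨a4, a5⟩ := Finset.mem_powersetCard.1 a1
    refine Finset.mem_filter.2 ⟨Finset.mem_powersetCard.2 ⟨Finset.insert_subset_insert _ a4, ?_⟩,
      Finset.disjoint_insert_right.2 ⟨hxt, (Finset.disjoint_insert_left.1 a2).2⟩, e s' ▸ a3⟩
    rw [Finset.card_insert_of_notMem (hn a1), a5]

theorem main_Count (h0 : SWc) (hk : SKey) {D : ℕ} (hD : finrank ℝ E = D + 1) {ι : Type}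
    {h : ι → Af E} {K U : Set E} (hK : Convex ℝ K) (hK' : IsClosed K) (hU : IsOpen U)
    (hU' : Convex ℝ U) {b0 : ℕ} {β : Finset ι → ℕ} {j : ι}
    (hb : ∀ t : Finset ι, Ind h t → t.card < D → wt K (FL h t ∩ U) (FL h t ∩ U) ≤ b0)
    (hβ : ∀ t : Finset ι, j ∈ t → Ind h t → t.card = D → wt K (FL h t ∩ U) (FL h t ∩ U) ≤ β t)
    (l : List ι) (hl : l.Nodup) : ∀ (t : Finset ι) (r : ℕ), j ∈ t → Ind h t → t.card + r = D →
    tot K (l.map h) (FL h t) U (FL h t ∩ U) ≤
      (((if r = 0 then 0 else b0 * (l.length + 1) ^ (r - 1)) +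
        ∑ s ∈ (l.toFinset.powersetCard r).filter (fun s => Disjoint t s ∧ Ind h (t ∪ s)),
          β (t ∪ s) : ℕ) : ℕ∞) := by
  induction l with
  | nil =>
    intro t r h1 h2 h3
    rw [List.map_nil, tot_nil]
    by_cases c : r = 0
    · subst c
      refine (hβ t h1 h2 h3).trans (Nat.cast_le.2 ?_)
      simp [Finset.filter_singleton, h2]
    · refine (hb t h2 (by omega)).trans (Nat.cast_le.2 ?_)
      simp [c]
  | cons x l ih =>
    intro t r h1 h2 h3
    obtain ⟨hx, hl'⟩ := List.nodup_cons.1 hl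
    have hF : ∀ s : Finset ι, Flat (FL h s) := fun s => flat_zeros h _
    have hmono : tot K (l.map h) (FL h t) U (FL h t ∩ U) ≤
        (((if r = 0 then 0 else b0 * ((x :: l).length + 1) ^ (r - 1)) +
          ∑ s ∈ ((x :: l).toFinset.powersetCard r).filter
            (fun s => Disjoint t s ∧ Ind h (t ∪ s)), β (t ∪ s) : ℕ) : ℕ∞) := by
      refine (ih hl' t r h1 h2 h3).trans (Nat.cast_le.2 (add_le_add ?_ ?_))
      · split_ifs
        · exact le_rfl
        · exact Nat.mul_le_mul_left _ (Nat.pow_le_pow_left (by simp) _)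
      · refine Finset.sum_le_sum_of_subset (Finset.filter_subset_filter _
          (Finset.powersetCard_mono ?_))
        rw [List.toFinset_cons]
        exact Finset.subset_insert _ _
    rw [List.map_cons]
    by_cases c : ∀ y ∈ FL h t, h x y = 0
    · rw [tot_skip K _ _ _ U _ c]
      exact hmono
    have h4 := (hk E K (l.map h) (FL h t) U (FL h t ∩ U) (h x) hK hK' (hF t) hU hU'
      ((hF t).convex.inter hU') le_rfl).2 c
    rw [inter_right_comm, FL_ins_Count] at h4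
    refine h4.trans ?_
    by_cases c1 : FL h (insert x t) ∩ U = ∅
    · rw [(hk E K (l.map h) (FL h (insert x t)) U (FL h (insert x t) ∩ U) (h x) hK hK' (hF _) hU
        hU' ((hF _).convex.inter hU') le_rfl).1 c1, add_zero]
      exact hmono
    obtain ⟨y0, y1, -⟩ := nonempty_iff_ne_empty.2 c1
    rw [← FL_ins_Count] at y1
    push Not at c
    obtain ⟨y2, y3, y4⟩ := c
    have h5 : Ind h (insert x t) := ins_Count h2 y1.1 y1.2 y3 y4
    have h6 : x ∉ t := fun h7 => y4 (y3 x h7)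
    have h7 := Finset.card_insert_of_notMem h6
    cases r with
    | zero =>
      rw [point_Count h0 hk hK hK' hU hU' (hF _) (sub_Count h5 (by omega)), add_zero]
      exact hmono
    | succ r =>
      refine (add_le_add (ih hl' t (r + 1) h1 h2 h3)
        (ih hl' (insert x t) r (Finset.mem_insert_of_mem h1) h5 (by omega))).trans ?_
      rw [← Nat.cast_add, Nat.cast_le, add_add_add_comm, List.toFinset_cons]
      refine add_le_add ?_ (sum_Count h β (fun h8 => hx (List.mem_toFinset.1 h8)) h6 r)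
      simp only [Nat.succ_ne_zero, if_false, Nat.add_sub_cancel, List.length_cons]
      cases r with
      | zero => simp
      | succ r =>
        simp only [Nat.succ_ne_zero, if_false, Nat.add_sub_cancel]
        rw [← mul_add]
        refine Nat.mul_le_mul_left _ ?_
        have h8 := Nat.pow_le_pow_left (show l.length + 1 ≤ l.length + 1 + 1 by omega) r
        rw [pow_succ, pow_succ, ← Nat.mul_succ]
        exact Nat.mul_le_mul_right _ h8

end aux

theorem sCount (h0 : SWc) (h : SKey) : SCount := by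
  intro E _ _ _ D hD h2 ι f K U hK hK' hU hU' b0 β j hj hb hβ l hl
  have h1 : Ind f {j} := by
    have h3 : LinearIndepOn ℝ (fun i => (f i).linear) ({j} : Set ι) := LinearIndepOn.singleton hj
    rw [← Finset.coe_singleton] at h3
    exact h3
  have h3 := main_Count h0 h hD hK hK' hU hU' hb hβ l hl {j} (D - 1) (Finset.mem_singleton_self j)
    h1 (by rw [Finset.card_singleton]; omega)
  have e : FL f {j} = {y | f j y = 0} := by
    ext y
    simp [FL]
  rw [e, if_neg (by omega), show D - 1 - 1 = D - 2 by omega] at h3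
  simpa only [Finset.disjoint_singleton_left, ← Finset.insert_eq] using h3

end Pool.Agent.MP_a2955b_co.Gen

end

section
/-! The weight of a flat inside a cell with few walls. -/

set_option autoImplicit false

namespace Pool.Agent.MP_a2955b_co.Gen

open Set Module Pool.Agent.MP_a2955b_co.Up
open scoped Classical

theorem low_Base {E : Type} [NormedAddCommGroup E] [NormedSpace ℝ E] (K L : Set E)
    (Z : List (Af E)) : ∀ U B B' : Set E, B' ⊆ B → (∀ y ∈ B', ∀ g ∈ Z, 0 < g y) →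
      wt K (L ∩ (U ∩ {y | ∀ g ∈ Z, 0 < g y})) B' ≤ tot K Z L U B := by
  induction Z with
  | nil =>
    intro U B B' hB _
    have e : U ∩ {y | ∀ g ∈ ([] : List (Af E)), 0 < g y} = U := by simp
    rw [tot_nil, e, wt, wt]
    split_ifs with a b
    · exact le_rfl
    · exact absurd ⟨a.1, a.2.mono (inter_subset_inter_left _ hB)⟩ b
    · exact zero_le
    · exact le_rfl
  | cons z Z ih =>
    intro U B B' hB hp
    by_cases h : ∀ y ∈ L, z y = 0
    · rw [wt, if_neg]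
      · exact zero_le
      · rintro ⟨⟨y, y1, -, y2⟩, -⟩
        exact (y2 z List.mem_cons_self).ne' (h y y1)
    · have e : U ∩ {y | ∀ g ∈ z :: Z, 0 < g y} = U ∩ {y | 0 < z y} ∩ {y | ∀ g ∈ Z, 0 < g y} := by
        ext y
        simp [and_assoc]
      rw [tot_cons K z Z L U B h, e]
      exact (ih _ (B ∩ {y | 0 ≤ z y}) B'
        (fun y hy => ⟨hB hy, (hp y hy z List.mem_cons_self).le⟩)
        fun y hy g hg => hp y hy g (List.mem_cons_of_mem _ hg)).trans le_self_add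

theorem rk_Base {E : Type} [NormedAddCommGroup E] [NormedSpace ℝ E] [FiniteDimensional ℝ E]
    (L : Set E) (z : Af E) (h : ¬ ∀ y ∈ L, z y = 0) (hn : (L ∩ {y | z y = 0}).Nonempty) :
    finrank ℝ (vectorSpan ℝ (L ∩ {y | z y = 0})) < finrank ℝ (vectorSpan ℝ L) := by
  obtain ⟨y, y1, y2⟩ := hn
  have y2 : z y = 0 := y2
  have hk : vectorSpan ℝ (L ∩ {y | z y = 0}) ≤ LinearMap.ker z.linear := by
    rw [vectorSpan_def, Submodule.span_le]
    rintro _ ⟨a, ⟨-, ha⟩, b, ⟨-, hb⟩, rfl⟩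
    have ha : z a = 0 := ha
    have hb : z b = 0 := hb
    show z.linear (a -ᵥ b) = 0
    rw [AffineMap.linearMap_vsub, ha, hb, vsub_self]
  refine Submodule.finrank_lt_finrank_of_lt
    (lt_of_le_of_ne (vectorSpan_mono ℝ inter_subset_left) fun e => h fun x hx => ?_)
  have h1 : z.linear (x -ᵥ y) = 0 := hk (e ▸ vsub_mem_vectorSpan ℝ hx y1)
  rwa [AffineMap.linearMap_vsub, y2, vsub_eq_sub, sub_zero] at h1

theorem up_Base (h1 : SKey) (h2 : SOut) {E : Type} [NormedAddCommGroup E] [NormedSpace ℝ E]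
    [FiniteDimensional ℝ E] (K : Set E) (hK : IsCompact K) (hc : Convex ℝ K) (Z : List (Af E)) :
    ∀ (L : Set E) (k : ℕ), Flat L → finrank ℝ (vectorSpan ℝ L) ≤ k →
      tot K Z L univ L ≤ ((2 * finrank ℝ E * (Z.length + 1) ^ k : ℕ) : ℕ∞) := by
  induction Z with
  | nil =>
    intro L k hL _
    rw [tot_nil, inter_univ, wt, List.length_nil, zero_add, one_pow, mul_one]
    split_ifs with a
    · exact h2 E K L hK hc hL a.2
    · exact zero_le
  | cons z Z ih =>
    intro L k hL hk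
    have m1 : ((2 * finrank ℝ E * (Z.length + 1) ^ k : ℕ) : ℕ∞) ≤
        ((2 * finrank ℝ E * ((z :: Z).length + 1) ^ k : ℕ) : ℕ∞) := by
      rw [List.length_cons, Nat.cast_le]
      gcongr
      omega
    by_cases h : ∀ y ∈ L, z y = 0
    · rw [tot_skip K z Z L univ L h]
      exact (ih L k hL hk).trans m1
    refine ((h1 E K Z L univ L z hc hK.isClosed hL isOpen_univ convex_univ hL.convex
      inter_subset_left).2 h).trans ?_
    rcases (L ∩ {y | z y = 0}).eq_empty_or_nonempty with e | e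
    · rw [(h1 E K Z _ univ _ z hc hK.isClosed (hL.inter_zero z) isOpen_univ convex_univ
        (hL.inter_zero z).convex inter_subset_left).1 (by rw [e, empty_inter]), add_zero]
      exact (ih L k hL hk).trans m1
    · have h3 := rk_Base L z h e
      obtain ⟨k, rfl⟩ : ∃ k', k = k' + 1 := ⟨k - 1, by omega⟩
      refine (add_le_add (ih L _ hL hk) (ih _ k (hL.inter_zero z) (by omega))).trans ?_
      rw [← Nat.cast_add, Nat.cast_le, ← mul_add, List.length_cons]
      refine Nat.mul_le_mul_left _ ?_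
      have h4 : (Z.length + 1) ^ k ≤ (Z.length + 1 + 1) ^ k := by
        gcongr
        omega
      rw [pow_succ, pow_succ, ← Nat.mul_succ]
      exact Nat.mul_le_mul_right _ h4

theorem sBase (h1 : SKey) (h2 : SOut) : SBase := by
  intro E _ _ _ K L G hK hc hL
  have a := low_Base K L G.toList univ L (L ∩ {y | ∀ g ∈ G, 0 < g y}) inter_subset_left
    fun y hy g hg => hy.2 g (Finset.mem_toList.1 hg)
  have b := up_Base h1 h2 K hK hc G.toList L _ hL (Submodule.finrank_le _)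
  simp only [Finset.mem_toList, univ_inter] at a
  rw [Finset.length_toList] at b
  exact a.trans b

end Pool.Agent.MP_a2955b_co.Gen

end

section
/-! The weight of a line is controlled by two points. -/

set_option autoImplicit false

namespace Pool.Agent.MP_a2955b_co.Gen

open Set Module Pool.Agent.MP_a2955b_co.Up
open scoped Classical

theorem wt_le_Line {E : Type} [NormedAddCommGroup E] [NormedSpace ℝ E] {K A : Set E} {n : ℕ∞}
    (h : (A ∩ K).Nonempty → wc (A \ K) ≤ n) : wt K A A ≤ n := by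
  unfold wt
  split_ifs with h1
  · exact h h1.2
  · exact zero_le

theorem sLine (h : SWc) : SLine := by
  intro E _ _ _ K L x w hK hc hL hx hw
  obtain ⟨-, -, -, h4, h5⟩ := h E
  by_cases h0 : (L ∩ K).Nonempty
  swap
  · exact ⟨fun _ => x, fun _ => hx, fun U _ _ =>
      wt_le_Line fun ⟨y, hy, hy'⟩ => absurd ⟨y, hy.1, hy'⟩ h0⟩
  by_cases h1 : L ⊆ K
  · refine ⟨fun _ => x, fun _ => hx, fun U _ _ => wt_le_Line fun _ => ?_⟩
    rw [Set.sdiff_eq_empty.2 (inter_subset_left.trans h1), h4]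
    exact zero_le
  obtain ⟨y₀, hy₀, hy₀'⟩ := h0
  obtain ⟨y₁, hy₁, hy₁'⟩ := not_subset.1 h1
  have hne : y₁ - y₀ ≠ 0 := fun e => hy₁' (sub_eq_zero.1 e ▸ hy₀')
  let g : ℝ →ᵃ[ℝ] E := AffineMap.lineMap y₀ y₁
  have hg : ∀ a, g a = y₀ + a • (y₁ - y₀) := fun a =>
    (AffineMap.lineMap_apply_module' y₀ y₁ a).trans (add_comm _ _)
  have hgL : ∀ a, g a ∈ L := fun a => hg a ▸ hL y₀ hy₀ y₁ hy₁ a
  have hsur : ∀ y ∈ L, ∃ a, g a = y := by
    intro y hy
    obtain ⟨a, rfl⟩ := hw y hy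
    obtain ⟨a₀, e₀⟩ := hw y₀ hy₀
    obtain ⟨a₁, e₁⟩ := hw y₁ hy₁
    have e₂ : y₁ - y₀ = (a₁ - a₀) • w := by rw [e₀, e₁]; module
    have e₃ : a₁ - a₀ ≠ 0 := fun e => hne (by rw [e₂, e, zero_smul])
    refine ⟨(a - a₀) / (a₁ - a₀), ?_⟩
    rw [hg, e₂, smul_smul, div_mul_cancel₀ _ e₃, e₀]
    module
  have hI : IsCompact (g ⁻¹' K) := by
    have e : (g : ℝ → E) = Homeomorph.addLeft y₀ ∘ fun a : ℝ => a • (y₁ - y₀) := funext hg
    rw [e]
    exact ((Homeomorph.addLeft y₀).isClosedEmbedding.comp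
      (isClosedEmbedding_smul_left hne)).isCompact_preimage hK
  have hI0 : (g ⁻¹' K).Nonempty := ⟨0, by
    rw [mem_preimage, hg, zero_smul, add_zero]; exact hy₀'⟩
  obtain ⟨lo, hlo, hlo'⟩ := hI.exists_isLeast hI0
  obtain ⟨hi, hhi, hhi'⟩ := hI.exists_isGreatest hI0
  refine ⟨fun b => cond b (g hi) (g lo), fun b => by cases b <;> exact hgL _,
    fun U _ hU => wt_le_Line fun ⟨z, hz, hz'⟩ => ?_⟩
  obtain ⟨c, rfl⟩ := hsur z hz.1
  have hJ := (hU.affine_preimage g).ordConnected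
  refine (h5 Bool (Finset.univ.filter fun b => cond b (g hi) (g lo) ∈ U) _
    (fun b => U ∩ g '' cond b (Ioi hi) (Iio lo)) (fun b _ => ⟨?_, ?_⟩) fun y hy => ?_).trans
    (le_of_eq ?_)
  · refine (hU.inter (Convex.affine_image g ?_)).isPreconnected
    cases b
    · exact convex_Iio lo
    · exact convex_Ioi hi
  · rintro _ ⟨hy, a, ha, rfl⟩
    refine ⟨⟨hgL a, hy⟩, fun hk => ?_⟩
    cases b
    · exact absurd (hlo' hk) (not_le.2 ha)
    · exact absurd (hhi' hk) (not_le.2 ha)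
  · obtain ⟨a, rfl⟩ := hsur y hy.1.1
    rcases lt_or_ge a lo with ha | ha
    · exact ⟨false, Finset.mem_filter.2 ⟨Finset.mem_univ _,
        hJ.out hy.1.2 hz.2 ⟨ha.le, hlo' hz'⟩⟩, hy.1.2, a, ha, rfl⟩
    rcases lt_or_ge hi a with hb | hb
    · exact ⟨true, Finset.mem_filter.2 ⟨Finset.mem_univ _,
        hJ.out hz.2 hy.1.2 ⟨hhi' hz', hb.le⟩⟩, hy.1.2, a, hb, rfl⟩
    · exact absurd ((hc.affine_preimage g).ordConnected.out hlo hhi ⟨ha, hb⟩) hy.2
  · rw [Finset.card_filter, Fintype.sum_bool, add_comm]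
    push_cast
    rfl

theorem sLin : SLin := by
  intro E _ _ _ D hD φ hφ
  have h1 := finrank_ker_add (fun m => (φ m).linear) hφ
  rw [Fintype.card_fin, hD] at h1
  have h2 : finrank ℝ (⨅ m, LinearMap.ker (φ m).linear : Submodule ℝ E) = 1 := by omega
  obtain ⟨w, hw, hw'⟩ := finrank_eq_one_iff'.1 h2
  have h3 := LinearMap.finrank_range_add_finrank_ker (LinearMap.pi fun m => (φ m).linear)
  rw [LinearMap.ker_pi, h2, hD] at h3
  have h4 : LinearMap.range (LinearMap.pi fun m => (φ m).linear) = ⊤ := by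
    refine Submodule.eq_top_of_finrank_eq ?_
    rw [finrank_fin_fun]
    omega
  obtain ⟨x, hx⟩ := LinearMap.range_eq_top.1 h4 fun m => -φ m 0
  have h5 : ∀ m, φ m x = 0 := fun m => by
    have e1 : (φ m).linear x = -φ m 0 := congrFun hx m
    have e2 := af_sub (φ m) x 0
    rw [sub_zero, e1] at e2
    linarith
  refine ⟨x, w, fun e => hw (Subtype.ext e), h5, fun m => (Submodule.mem_iInf _).1 w.2 m,
    fun y hy => ?_⟩
  obtain ⟨a, ha⟩ := hw' ⟨y - x, (Submodule.mem_iInf _).2 fun m => by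
    rw [LinearMap.mem_ker, af_sub, hy m, h5 m, sub_zero]⟩
  refine ⟨a, ?_⟩
  have e : a • (w : E) = y - x := congrArg Subtype.val ha
  rw [e, add_sub_cancel]

theorem sEnd (h1 : SLin) (h2 : SLine) : SEnd := by
  intro E _ _ _ D hD ι F R h hP i
  have key : ∀ τ : Fin D → ι, ∃ p : Bool → E, IndT h τ → (∀ b m, h (τ m) (p b) = 0) ∧
      ∀ U : Set E, IsOpen U → Convex ℝ U →
        wt (F (τ i)) ({y | ∀ m, h (τ m) y = 0} ∩ U) ({y | ∀ m, h (τ m) y = 0} ∩ U) ≤
          (if p false ∈ U then 1 else 0) + (if p true ∈ U then 1 else 0) := by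
    intro τ
    by_cases hτ : IndT h τ
    · obtain ⟨x, w, -, a1, -, a2⟩ := h1 E D hD (fun m => h (τ m)) hτ
      have hF : Flat {y | ∀ m, h (τ m) y = 0} := fun y hy y' hy' a m =>
        flat_zeros (fun m => h (τ m)) (fun _ => True) y (fun m _ => hy m) y' (fun m _ => hy' m)
          a m trivial
      obtain ⟨p, b1, b2⟩ := h2 E (F (τ i)) _ x w (hP.cpt _) (hP.conv _) hF a1 a2
      exact ⟨p, fun _ => ⟨b1, b2⟩⟩
    · exact ⟨fun _ => 0, fun h' => absurd h' hτ⟩
  choose p hp using key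
  exact ⟨p, hp⟩

end Pool.Agent.MP_a2955b_co.Gen

end

section
/-! The faces of a polyhedron are plates. -/

set_option autoImplicit false

namespace Pool.Agent.MP_a2955b_co.Gen

open Set Module Pool.Agent.MP_a2955b_co.Up
open scoped Classical

section aux

variable {E : Type} [NormedAddCommGroup E] [NormedSpace ℝ E]

/-- The relative interior in metric form. -/
def ri_Face (F : Set E) : Set E :=
  {y | y ∈ F ∧ ∃ ε : ℝ, 0 < ε ∧ ∀ w ∈ affineSpan ℝ F, dist w y < ε → w ∈ F}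

theorem seg_Face {F : Set E} (hF : Convex ℝ F) {c z : E} (hc : c ∈ ri_Face F) (hz : z ∈ F)
    {t : ℝ} (h0 : 0 ≤ t) (h1 : t < 1) : c + t • (z - c) ∈ ri_Face F := by
  obtain ⟨hcF, ε, hε, hb⟩ := hc
  have ht : 0 < 1 - t := sub_pos.2 h1
  have hy : c + t • (z - c) ∈ F := hF.add_smul_sub_mem hcF hz ⟨h0, h1.le⟩
  refine ⟨hy, (1 - t) * ε, mul_pos ht hε, fun w hw hd => ?_⟩
  have h2 : (1 - t)⁻¹ • (w - (c + t • (z - c))) + c ∈ F := by
    refine hb _ (AffineSubspace.smul_vsub_vadd_mem _ (1 - t)⁻¹ hw (subset_affineSpan ℝ F hy)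
      (subset_affineSpan ℝ F hcF)) ?_
    rw [dist_eq_norm, add_sub_cancel_right, norm_smul, Real.norm_of_nonneg (inv_pos.2 ht).le,
      ← dist_eq_norm, inv_mul_lt_iff₀ ht]
    exact hd
  have h3 := hF h2 hz ht.le h0 (sub_add_cancel 1 t)
  rw [smul_add, smul_inv_smul₀ ht.ne'] at h3
  have h4 : w - (c + t • (z - c)) + (1 - t) • c + t • z = w := by module
  rwa [h4] at h3

theorem conv_Face {F : Set E} (hF : Convex ℝ F) : Convex ℝ (ri_Face F) := by
  intro x hx y hy a b ha hb hab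
  rcases ha.eq_or_lt with rfl | ha
  · rw [zero_add] at hab
    simpa [hab] using hy
  · have h := seg_Face hF hx hy.1 hb (by linarith)
    have e : a • x + b • y = x + b • (y - x) := by
      rw [show a = 1 - b by linarith]
      module
    rwa [e]

theorem ne_Face [FiniteDimensional ℝ E] {F : Set E} (hF : Convex ℝ F) (hne : F.Nonempty) :
    (ri_Face F).Nonempty := by
  obtain ⟨c, hc⟩ := hne.intrinsicInterior hF
  refine ⟨c, intrinsicInterior_subset hc, ?_⟩
  obtain ⟨y, hy, rfl⟩ := mem_intrinsicInterior.1 hc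
  obtain ⟨ε, hε, hb⟩ := Metric.mem_nhds_iff.1 (mem_interior_iff_mem_nhds.1 hy)
  exact ⟨ε, hε, fun w hw hd => hb (a := ⟨w, hw⟩) hd⟩

theorem dense_Face [FiniteDimensional ℝ E] {F : Set E} (hF : Convex ℝ F) :
    F ⊆ closure (ri_Face F) := by
  intro z hz
  obtain ⟨c, hc⟩ := ne_Face hF ⟨z, hz⟩
  have h1 : Continuous fun t : ℝ => c + t • (z - c) := by fun_prop
  have h2 : (1 : ℝ) ∈ closure (Ico (0 : ℝ) 1) := by
    rw [closure_Ico zero_ne_one]
    exact right_mem_Icc.2 zero_le_one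
  have h3 := map_mem_closure h1 h2 fun t ht => seg_Face hF hc hz ht.1 ht.2
  simpa using h3

theorem off_Face {F : Set E} {y : E} (hy : y ∈ ri_Face F) : y ∉ intrinsicFrontier ℝ F := by
  intro h
  obtain ⟨w, hw, rfl⟩ := mem_intrinsicFrontier.1 h
  obtain ⟨-, ε, hε, hb⟩ := hy
  exact hw.2 (mem_interior_iff_mem_nhds.2 (Metric.mem_nhds_iff.2
    ⟨ε, hε, fun u hu => hb u u.2 hu⟩))

theorem hyp_Face [FiniteDimensional ℝ E] {F : Set E} (hne : F.Nonempty)
    (h : finrank ℝ (vectorSpan ℝ F) < finrank ℝ E) :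
    ∃ g : Af E, g.linear ≠ 0 ∧ ∀ x ∈ F, g x = 0 := by
  obtain ⟨p, hp⟩ := hne
  have hlt : vectorSpan ℝ F < ⊤ := by
    rw [lt_top_iff_ne_top]
    intro h0
    rw [h0, finrank_top] at h
    exact lt_irrefl _ h
  obtain ⟨f, hf0, hf⟩ := Submodule.exists_le_ker_of_lt_top _ hlt
  refine ⟨f.toAffineMap - AffineMap.const ℝ E (f p), by simpa using hf0, fun q hq => ?_⟩
  have := hf (vsub_mem_vectorSpan ℝ hq hp)
  simp only [LinearMap.mem_ker, vsub_eq_sub, map_sub] at this
  simpa using this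

end aux

theorem sFace : SFace := by
  rintro d n hd P ⟨-, -, F, hF, hP, hI⟩
  have hc : ∀ i, Convex ℝ (F i) := fun i => by
    obtain ⟨V, -, -, e, -⟩ := hF i
    rw [e]
    exact convex_convexHull ℝ V
  have hk : ∀ i, IsCompact (F i) := fun i => by
    obtain ⟨V, hV, -, e, -⟩ := hF i
    rw [e]
    exact hV.isCompact_convexHull ℝ
  have hh : ∀ i, ∃ g : Af (EuclideanSpace ℝ (Fin d)), g.linear ≠ 0 ∧ ∀ x ∈ F i, g x = 0 :=
    fun i => by
      obtain ⟨V, -, hV, e, hr⟩ := hF i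
      refine hyp_Face (e ▸ hV.mono (subset_convexHull ℝ V)) ?_
      rw [hr, finrank_euclideanSpace_fin]
      omega
  choose h h1 h2 using hh
  exact ⟨F, fun i => ri_Face (F i), h, ⟨hk, hc, fun i => conv_Face (hc i), fun _ _ hy => hy.1,
    fun i => dense_Face (hc i), fun i j hij => disjoint_left.2 fun y hy hj =>
      off_Face hy (hI i j hij ⟨hy.1, hj⟩).1, h1, h2⟩, hP⟩

end Pool.Agent.MP_a2955b_co.Gen

end

section
set_option autoImplicit false

namespace Pool.Agent.MP_a2955b_co.Gen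

open Set Module Pool.Agent.MP_a2955b_co.Up
open scoped Classical

section
variable {E : Type} [NormedAddCommGroup E] [NormedSpace ℝ E]

theorem seg_Sweep (x z : E) {l : ℝ} (hl : l ∈ Icc (0 : ℝ) 1) : x + l • (z - x) ∈ segment ℝ x z := by
  rw [segment_eq_image']
  exact ⟨l, hl, rfl⟩

theorem open_Sweep {V : Set E} (hV : IsOpen V) (x : E) : IsOpen {z | segment ℝ x z ⊆ V} := by
  refine isOpen_iff_mem_nhds.2 fun z hz => ?_
  have c : Continuous fun w : E × ℝ => x + w.2 • (w.1 - x) := by fun_prop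
  have := (isCompact_Icc (a := (0 : ℝ)) (b := 1)).eventually_forall_of_forall_eventually
    (x₀ := z) (P := fun w l => x + l • (w - x) ∈ V) fun l hl =>
      c.continuousAt.preimage_mem_nhds (hV.mem_nhds (hz (seg_Sweep x z hl)))
  filter_upwards [this] with w hw
  rw [segment_eq_image']
  rintro _ ⟨l, hl, rfl⟩
  exact hw l hl

theorem closed_Sweep [FiniteDimensional ℝ E] {O V : Set E} (hO : Convex ℝ O) (hV : IsOpen V)
    (hs : V ⊆ O) (h : ∀ q ∈ O, q ∉ V → ∃ g : Af E, g q = 0 ∧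
      ∃ ε : ℝ, 0 < ε ∧ ∀ y ∈ Metric.ball q ε, g y = 0 → y ∉ V) {x z : E} (hx : x ∈ V) (hz : z ∈ V)
    (hc : z ∈ closure {z | segment ℝ x z ⊆ V}) : segment ℝ x z ⊆ V := by
  by_contra c
  have c0 : Continuous fun l : ℝ => x + l • (z - x) := by fun_prop
  have ne : (Icc (0 : ℝ) 1 ∩ (fun l : ℝ => x + l • (z - x)) ⁻¹' Vᶜ).Nonempty := by
    rw [segment_eq_image'] at c
    obtain ⟨_, ⟨l, hl, rfl⟩, h2⟩ := not_subset.1 c
    exact ⟨l, hl, h2⟩
  obtain ⟨l, ⟨l1, l2⟩, lm⟩ :=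
    (isCompact_Icc.inter_right (hV.isClosed_compl.preimage c0)).exists_isLeast ne
  have l3 : 0 < l := l1.1.lt_of_ne fun e => l2 (by simpa [← e] using hx)
  have l4 : l < 1 := l1.2.lt_of_ne fun e => l2 (by simpa [e] using hz)
  obtain ⟨g, g0, ε, e0, hg⟩ := h _ (hO.segment_subset (hs hx) (hs hz) (seg_Sweep x z l1)) l2
  have gc := af_continuous g
  have o : IsOpen {η : ℝ | η < l ∧ η < 1 - l ∧ η * ‖z - x‖ < ε} :=
    isOpen_Iio.inter (isOpen_Iio.inter
      (isOpen_lt (continuous_id.mul continuous_const) continuous_const))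
  obtain ⟨η, ⟨η1, η2, η3⟩, η0⟩ := ((Filter.Eventually.filter_mono nhdsWithin_le_nhds
    (o.mem_nhds (show (0 : ℝ) ∈ _ from ⟨l3, by linarith, by simpa using e0⟩))).and
    (self_mem_nhdsWithin (a := (0 : ℝ)) (s := Ioi 0))).exists
  have η0 : 0 < η := η0
  have ia : l - η ∈ Icc (0 : ℝ) 1 := ⟨by linarith, by linarith⟩
  have ib : l + η ∈ Icc (0 : ℝ) 1 := ⟨by linarith, by linarith⟩
  have ea : x + (l - η) • (z - x) = x + l • (z - x) + (-η) • (z - x) := by module
  have eb : x + (l + η) • (z - x) = x + l • (z - x) + η • (z - x) := by module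
  have ba : x + (l - η) • (z - x) ∈ Metric.ball (x + l • (z - x)) ε := by
    rwa [ea, mem_ball_iff_norm, add_sub_cancel_left, norm_smul, norm_neg, Real.norm_of_nonneg η0.le]
  have bb : x + (l + η) • (z - x) ∈ Metric.ball (x + l • (z - x)) ε := by
    rwa [eb, mem_ball_iff_norm, add_sub_cancel_left, norm_smul, Real.norm_of_nonneg η0.le]
  have na : g (x + (l - η) • (z - x)) ≠ 0 := fun e => hg _ ba e <| by
    by_contra n
    linarith [lm ⟨ia, n⟩]
  have pr : g (x + (l - η) • (z - x)) * g (x + (l + η) • (z - x)) < 0 := by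
    have : g (x + (l + η) • (z - x)) = - g (x + (l - η) • (z - x)) := by
      rw [ea, eb, af_add g _ (η • _), af_add g _ ((-η) • _), g0, neg_smul, map_neg]
      ring
    rw [this, mul_neg, neg_lt_zero]
    exact mul_self_pos.2 na
  have o2 : IsOpen {w : E | x + (l - η) • (w - x) ∈ Metric.ball (x + l • (z - x)) ε ∧
      x + (l + η) • (w - x) ∈ Metric.ball (x + l • (z - x)) ε ∧
      g (x + (l - η) • (w - x)) * g (x + (l + η) • (w - x)) < 0} :=
    (Metric.isOpen_ball.preimage (f := fun w => x + (l - η) • (w - x)) (by fun_prop)).inter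
      ((Metric.isOpen_ball.preimage (f := fun w => x + (l + η) • (w - x)) (by fun_prop)).inter
        (isOpen_lt (f := fun w => g (x + (l - η) • (w - x)) * g (x + (l + η) • (w - x)))
          (by fun_prop) continuous_const))
  obtain ⟨w, ⟨w1, w2, w3⟩, w4⟩ := mem_closure_iff.1 hc _ o2 ⟨ba, bb, pr⟩
  have := sign_eq_of_convex ((convex_ball _ ε).inter (convex_segment x w)) g
    (fun y hy e => hg y hy.1 e (w4 hy.2)) ⟨w1, seg_Sweep x w ia⟩ ⟨w2, seg_Sweep x w ib⟩
  rcases mul_neg_iff.1 w3 with ⟨a, b⟩ | ⟨a, b⟩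
  · rw [sign_pos a, sign_neg b] at this
    cases this
  · rw [sign_neg a, sign_pos b] at this
    cases this

end

theorem sSweep : SSweep := by
  intro E _ _ _ O V hO hV hs h x _
  refine convex_iff_segment_subset.2 fun a ha b hb => ?_
  have sub := connectedComponentIn_subset V x
  have k : connectedComponentIn V x ⊆ {z | segment ℝ a z ⊆ V} :=
    isPreconnected_connectedComponentIn.subset_of_closure_inter_subset (open_Sweep hV a)
      ⟨a, ha, by simpa using sub ha⟩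
      fun z hz => closed_Sweep hO hV hs h (sub ha) (sub hz.2) hz.1
  rw [connectedComponentIn_eq ha]
  exact (convex_segment a b).isPreconnected.subset_connectedComponentIn
    (left_mem_segment ℝ a b) (k hb)

end Pool.Agent.MP_a2955b_co.Gen

end

section
/-! Components as polyhedral cells, and the cells of an arrangement. -/

set_option autoImplicit false

namespace Pool.Agent.MP_a2955b_co.Gen

open Set Module Pool.Agent.MP_a2955b_co.Up
open scoped Classical

section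

variable {E : Type} [NormedAddCommGroup E] [NormedSpace ℝ E]

theorem wall_Conv {U : Set E} (hU : IsOpen U) (hc : Convex ℝ U) {q : E} (hq : q ∈ closure U)
    (g : Af E) (h0 : g q = 0) {ε : ℝ} (hε : 0 < ε)
    (h : ∀ y ∈ Metric.ball q ε, g y = 0 → y ∉ U) : ∀ u ∈ U, g u ≠ 0 := by
  intro u hu hgu
  have hf : Continuous fun a : ℝ => a • u + (1 - a) • q := by fun_prop
  have h1 : ∀ᶠ a : ℝ in nhds 0, a • u + (1 - a) • q ∈ Metric.ball q ε :=
    hf.continuousAt.eventually_mem (by simpa using Metric.ball_mem_nhds q hε)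
  obtain ⟨a, h2, h3⟩ := ((h1.filter_mono nhdsWithin_le_nhds).and
    (Ioo_mem_nhdsGT (zero_lt_one' ℝ))).exists
  refine h _ h2 (by rw [af_combo g u q _ _ (by ring), hgu, h0]; simp) ?_
  exact interior_subset (hc.combo_interior_closure_mem_interior (hU.interior_eq.symm ▸ hu) hq
    h3.1 (sub_nonneg.2 h3.2.le) (by ring))

theorem op_Conv [FiniteDimensional ℝ E] {O V : Set E} {G : Finset (Af E)} (hO : OP O)
    (hV : IsOpen V) (hVO : V ⊆ O) (hw : ∀ q ∈ O, q ∉ V → ∃ g ∈ G, g q = 0 ∧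
      ∃ ε : ℝ, 0 < ε ∧ ∀ y ∈ Metric.ball q ε, g y = 0 → y ∉ V) {x : E} (hx : x ∈ V)
    (hc : Convex ℝ (connectedComponentIn V x)) : OP (connectedComponentIn V x) := by
  obtain ⟨U, hU⟩ : ∃ U, U = connectedComponentIn V x := ⟨_, rfl⟩
  have hxU : x ∈ U := hU ▸ mem_connectedComponentIn hx
  have hUo : IsOpen U := hU ▸ hV.connectedComponentIn
  have hUV : U ⊆ V := hU ▸ connectedComponentIn_subset V x
  rw [← hU] at hc ⊢
  have hW : OP (O ∩ {y | ∀ g ∈ (G ∪ G.image fun g => -g).filter fun g => ∀ y ∈ U, 0 < g y,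
    0 < g y}) := hO.inter ⟨_, rfl⟩
  have h1 : U ⊆ O ∩ {y | ∀ g ∈ (G ∪ G.image fun g => -g).filter fun g => ∀ y ∈ U, 0 < g y,
    0 < g y} := fun y hy => ⟨hVO (hUV hy), fun g hg => (Finset.mem_filter.1 hg).2 y hy⟩
  refine (Subset.antisymm h1 ?_).symm ▸ hW
  refine hW.convex.isPreconnected.subset_of_closure_inter_subset hUo ⟨x, h1 hxU, hxU⟩ ?_
  rintro q ⟨hq, hqO, hqG⟩
  by_cases hqV : q ∈ V
  · obtain ⟨z, hz1, hz2⟩ := mem_closure_iff.1 hq _ hV.connectedComponentIn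
      (mem_connectedComponentIn hqV)
    rw [hU] at hz2 ⊢
    rw [connectedComponentIn_eq hz2, ← connectedComponentIn_eq hz1]
    exact mem_connectedComponentIn hqV
  · exfalso
    obtain ⟨g, hg, h0, ε, hε, hb⟩ := hw q hqO hqV
    have h2 := wall_Conv hUo hc hq g h0 hε fun y hy hy0 hyU => hb y hy hy0 (hUV hyU)
    rcases lt_or_gt_of_ne (h2 x hxU) with h3 | h3
    · have h4 := hqG (-g) (Finset.mem_filter.2 ⟨Finset.mem_union_right _
        (Finset.mem_image_of_mem _ hg), fun y hy => by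
          have h5 := sign_eq_of_convex hc g h2 hy hxU
          rw [sign_neg h3, sign_eq_neg_one_iff] at h5
          simpa using h5⟩)
      simp [h0] at h4
    · have h4 := hqG g (Finset.mem_filter.2 ⟨Finset.mem_union_left _ hg, fun y hy => by
          have h5 := sign_eq_of_convex hc g h2 hy hxU
          rwa [sign_pos h3, sign_eq_one_iff] at h5⟩)
      exact h4.ne' h0

/-- The cell of the sign pattern `P`. -/
def cell_Conv (G0 G : Finset (Af E)) (P : Set G) : Set E :=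
  {y | ∀ g ∈ G0 ∪ (Finset.univ : Finset G).image (fun j => if j ∈ P then j.1 else -j.1), 0 < g y}

theorem mem_Conv {G0 G : Finset (Af E)} {P : Set G} {x : E} :
    x ∈ cell_Conv G0 G P ↔
      (∀ g ∈ G0, 0 < g x) ∧ ∀ j : G, (j ∈ P → 0 < j.1 x) ∧ (j ∉ P → j.1 x < 0) := by
  unfold cell_Conv
  rw [mem_ofPred_eq, Finset.forall_mem_union, Finset.forall_mem_image]
  refine and_congr_right fun _ => forall_congr' fun j => ?_
  by_cases h : j ∈ P
  · simp [h]
  · simp [h]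

theorem pat_Conv {G0 G : Finset (Af E)} {P : Set G} {x : E} (hx : x ∈ cell_Conv G0 G P) :
    P = {j : G | 0 < j.1 x} := by
  ext j
  have h := (mem_Conv.1 hx).2 j
  refine ⟨h.1, fun hj => ?_⟩
  by_contra hn
  exact lt_asymm (show 0 < j.1 x from hj) (h.2 hn)

end

theorem sConv (h : SSweep) : SConv := by
  intro E _ _ _ O V G hO hV hVO hG hoff hw N hN
  have hc := h E O V hO.convex hV hVO fun q hq hqV =>
    let ⟨g, _, hg⟩ := hw q hq hqV; ⟨g, hg⟩
  have hfin : {C : Set E | ∃ y ∈ V, C = connectedComponentIn V y}.Finite :=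
    Set.finite_of_encard_le_coe hN
  have hsub : ∀ U ∈ hfin.toFinset, U ⊆ V := fun U hU => by
    obtain ⟨y, -, rfl⟩ := hfin.mem_toFinset.1 hU
    exact connectedComponentIn_subset V y
  refine ⟨hfin.toFinset, ⟨fun U hU => ?_, fun U hU => (hsub U hU).trans hVO,
    fun U hU U' hU' hne => ?_, ?_⟩, ?_, hsub⟩
  · obtain ⟨y, hy, rfl⟩ := hfin.mem_toFinset.1 hU
    exact op_Conv hO hV hVO hw hy (hc y hy)
  · obtain ⟨y, -, rfl⟩ := hfin.mem_toFinset.1 hU
    obtain ⟨y', -, rfl⟩ := hfin.mem_toFinset.1 hU'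
    rw [Set.disjoint_left]
    intro z h1 h2
    exact hne ((connectedComponentIn_eq h1).trans (connectedComponentIn_eq h2).symm)
  · refine cover_of_off hO.isOpen (G : Set (Af E)) G.finite_toSet hG fun x hx hne => ?_
    have hxV := hoff x hx hne
    exact mem_iUnion₂.2 ⟨_, hfin.mem_toFinset.2 ⟨x, hxV, rfl⟩, mem_connectedComponentIn hxV⟩
  · unfold wc at hN
    rw [hfin.encard_eq_coe_toFinset_card] at hN
    exact_mod_cast hN

theorem sArr (h : SgnStmt) : SArr := by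
  intro E _ _ _ G0 G hG
  have hcard := h E G (fun j => j.1)
  have hfin : {P : Set G | ∃ x, P = {i | 0 < i.1 x}}.Finite := Set.toFinite _
  refine ⟨hfin.toFinset.image (cell_Conv G0 G), ⟨?_, ?_, ?_, ?_⟩, ?_, ?_⟩
  · intro O hO
    obtain ⟨P, _, rfl⟩ := Finset.mem_image.1 hO
    exact ⟨_, rfl⟩
  · intro O hO
    obtain ⟨P, _, rfl⟩ := Finset.mem_image.1 hO
    exact fun x hx => (mem_Conv.1 hx).1
  · intro O hO O' hO' hne
    obtain ⟨P, _, rfl⟩ := Finset.mem_image.1 hO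
    obtain ⟨P', _, rfl⟩ := Finset.mem_image.1 hO'
    rw [Set.disjoint_left]
    intro x hx hx'
    exact hne (by rw [pat_Conv hx, pat_Conv hx'])
  · refine cover_of_off (OP.isOpen ⟨G0, rfl⟩) (G : Set (Af E)) G.finite_toSet hG ?_
    intro x hx hne
    refine mem_iUnion₂.2 ⟨cell_Conv G0 G {i | 0 < i.1 x},
      Finset.mem_image_of_mem _ (hfin.mem_toFinset.2 ⟨x, rfl⟩), ?_⟩
    refine mem_Conv.2 ⟨hx, fun j => ⟨fun hj => hj, fun hj => ?_⟩⟩
    exact lt_of_le_of_ne (not_lt.1 hj) (hne j.1 j.2)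
  · refine Finset.card_image_le.trans ?_
    rw [← Set.ncard_eq_toFinset_card _ hfin]
    simpa using hcard
  · intro O hO
    obtain ⟨P, _, rfl⟩ := Finset.mem_image.1 hO
    refine ⟨fun g hg x hx => ?_, _, ?_, rfl⟩
    · have h1 := (mem_Conv.1 hx).2 ⟨g, hg⟩
      by_cases hP : (⟨g, hg⟩ : G) ∈ P
      · exact (h1.1 hP).ne'
      · exact (h1.2 hP).ne
    · refine (Finset.card_union_le _ _).trans (Nat.add_le_add_left (Finset.card_image_le.trans ?_) _)
      simp

end Pool.Agent.MP_a2955b_co.Gen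

end

section
/-! The cutting process in one cell. -/

set_option autoImplicit false

namespace Pool.Agent.MP_a2955b_co.Gen

open Set Module Pool.Agent.MP_a2955b_co.Up
open scoped Classical

section

variable {E : Type} [NormedAddCommGroup E] [NormedSpace ℝ E]

theorem van_Proc {f g : Af E} (hf : f.linear ≠ 0) (hg : g.linear ≠ 0)
    (h : ∀ y, f y = 0 → g y = 0) {y : E} (hy : f y ≠ 0) : g y ≠ 0 := by
  intro hgy
  obtain ⟨w, hw⟩ : ∃ w, f.linear w ≠ 0 := by
    by_contra hc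
    exact hf (LinearMap.ext fun w => by_contra fun hw => hc ⟨w, hw⟩)
  have h1 : g (y + (-(f y / f.linear w)) • w) = 0 := by
    refine h _ ?_
    rw [af_add, map_smul, smul_eq_mul, neg_mul, div_mul_cancel₀ _ hw, add_neg_cancel]
  rw [af_add, map_smul, smul_eq_mul, hgy, zero_add] at h1
  have h2 : g.linear w = 0 :=
    (mul_eq_zero.1 h1).resolve_left (neg_ne_zero.2 (div_ne_zero hy hw))
  refine hg (LinearMap.ext fun v => ?_)
  have h3 : g (y + (v + (-((f y + f.linear v) / f.linear w)) • w)) = 0 := by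
    refine h _ ?_
    rw [af_add, map_add, map_smul, smul_eq_mul, neg_mul, div_mul_cancel₀ _ hw]
    ring
  rw [af_add, map_add, map_smul, h2, hgy, smul_zero, add_zero, zero_add] at h3
  exact h3

theorem flat_Proc (z : Af E) : Flat {y | z y = 0} := by
  have h := (flat_univ (E := E)).inter_zero z
  rwa [univ_inter] at h

/-- The invariant of the process. -/
structure Inv_Proc {ι : Type} (F : ι → Set E) (h : ι → Af E) (O : Set E) (X : Finset ι)
    (V : Set E) : Prop where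
  opn : IsOpen V
  sub : V ⊆ O \ ⋃ x ∈ X, F x
  gen : ∀ y ∈ O, (∀ x ∈ X, h x y ≠ 0) → y ∈ V
  wall : ∀ q ∈ O \ ⋃ x ∈ X, F x, q ∉ V → ∃ x ∈ X, h x q = 0 ∧
    ∃ ε : ℝ, 0 < ε ∧ ∀ y ∈ Metric.ball q ε, h x y = 0 → y ∉ V

variable [FiniteDimensional ℝ E]

theorem job_Proc (h2 : SJob) {ι : Type} {F : ι → Set E} {h : ι → Af E}
    (hlin : ∀ x, (h x).linear ≠ 0) {O : Set E} {X : Finset ι} {j : ι} (hj : j ∈ X) {U : Set E}
    (hU : IsOpen U) (hc : Convex ℝ U) (hO : U ⊆ O)
    (hz : ∀ x ∈ X, (∀ y, h j y = 0 → h x y = 0) ∨ ∀ y ∈ U, h x y ≠ 0) {V : Set E}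
    (hV : Inv_Proc F h O X V) : ∃ V', Inv_Proc F h O X V' ∧ V' ⊆ V ∧ wc V' ≤ wc V + 1 ∧
      ∀ y ∈ U, h j y = 0 → y ∉ V' := by
  obtain ⟨V', a1, a2, a3, a4, a5, a6⟩ := h2 E V U (h j) hV.opn hU hc (hlin j) (fun y hy h0 =>
    hV.gen y (hO hy) fun x hx => (hz x hx).elim (fun h1 => van_Proc (hlin j) (hlin x) h1 h0)
      fun h1 => h1 y hy)
  refine ⟨V', ⟨a2, a1.trans hV.sub, fun y hy h0 => a4 y (hV.gen y hy h0) (h0 j hj), ?_⟩, a1, a3, a5⟩
  intro q hq hq'
  by_cases hqV : q ∈ V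
  · exact ⟨j, hj, a6 q hqV hq'⟩
  · obtain ⟨x, hx, b1, ε, b2, b3⟩ := hV.wall q hq hqV
    exact ⟨x, hx, b1, ε, b2, fun y hy h0 hy' => b3 y hy h0 (a1 hy')⟩

theorem inner_Proc (h0 : SWc) (h2 : SJob) {ι : Type} {F : ι → Set E} {h : ι → Af E}
    (hlin : ∀ x, (h x).linear ≠ 0) {O : Set E} {X : Finset ι} {j : ι} (hj : j ∈ X) {V : Set E}
    (hV : Inv_Proc F h O X V) (l : List (Set E × Set E))
    (hl : ∀ c ∈ l, IsOpen c.1 ∧ Convex ℝ c.1 ∧ c.1 ⊆ O ∧
      ∀ x ∈ X, (∀ y, h j y = 0 → h x y = 0) ∨ ∀ y ∈ c.1, h x y ≠ 0) :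
    ∃ (V' : Set E) (n : ℕ), Inv_Proc F h O X V' ∧ V' ⊆ V ∧ wc V' ≤ wc V + n ∧
      (n : ℕ∞) ≤ (l.map fun c => wt (F j) ({y | h j y = 0} ∩ c.1) c.2).sum ∧
      ∀ c ∈ l, (c.2 ∩ F j).Nonempty → ∀ y ∈ c.1, h j y = 0 → y ∉ V' := by
  induction l with
  | nil => exact ⟨V, 0, hV, Subset.rfl, by simp, by simp, by simp⟩
  | cons c l ih =>
    obtain ⟨V1, n, a1, a2, a3, a4, a5⟩ := ih fun c' hc' => hl c' (List.mem_cons_of_mem _ hc')
    obtain ⟨b1, b2, b3, b4⟩ := hl c List.mem_cons_self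
    rw [List.map_cons, List.sum_cons]
    by_cases hjob : (c.2 ∩ F j).Nonempty ∧ (({y | h j y = 0} ∩ c.1) \ F j).Nonempty
    · obtain ⟨V2, c1, c2, c3, c4⟩ := job_Proc h2 hlin hj b1 b2 b3 b4 a1
      refine ⟨V2, n + 1, c1, c2.trans a2, ?_, ?_, ?_⟩
      · rw [Nat.cast_add, Nat.cast_one, ← add_assoc]
        exact c3.trans (add_le_add a3 le_rfl)
      · rw [Nat.cast_add, Nat.cast_one, add_comm]
        refine add_le_add ?_ a4
        rw [wt, if_pos ⟨hjob.2.mono sdiff_subset, hjob.1⟩]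
        exact (h0 E).2.1 _ hjob.2
      · intro c' hc' hne y hy hy0
        rcases List.mem_cons.1 hc' with rfl | hc'
        · exact c4 y hy hy0
        · exact fun hy' => a5 c' hc' hne y hy hy0 (c2 hy')
    · refine ⟨V1, n, a1, a2, a3, a4.trans le_add_self, ?_⟩
      intro c' hc' hne y hy hy0
      rcases List.mem_cons.1 hc' with rfl | hc'
      · intro hy'
        refine hjob ⟨hne, y, ⟨hy0, hy⟩, fun hF => (a1.sub hy').2 ?_⟩
        exact mem_iUnion₂.2 ⟨j, hj, hF⟩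
      · exact a5 c' hc' hne y hy hy0

theorem outer_Proc (h0 : SWc) (h2 : SJob) (h3 : SLeaf) {ι : Type} {F : ι → Set E} {h : ι → Af E}
    (hlin : ∀ x, (h x).linear ≠ 0) {O : Set E} (hO : IsOpen O) (hc : Convex ℝ O) {X : Finset ι}
    {V : Set E} (hV : Inv_Proc F h O X V) (s : Finset ι) (hs : s ⊆ X) :
    ∃ (V' : Set E) (n : ℕ), Inv_Proc F h O X V' ∧ wc V' ≤ wc V + n ∧
      (n : ℕ∞) ≤ ∑ j ∈ s, tot (F j) (X.toList.map h) {y | h j y = 0} O ({y | h j y = 0} ∩ O) ∧
      ∀ j ∈ s, ∀ c ∈ lv (X.toList.map h) {y | h j y = 0} O ({y | h j y = 0} ∩ O),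
        (c.2 ∩ F j).Nonempty → ∀ y ∈ c.1, h j y = 0 → y ∉ V' := by
  induction s using Finset.induction_on with
  | empty => exact ⟨V, 0, hV, by simp, by simp, by simp⟩
  | insert j s hjs ih =>
    obtain ⟨V1, n, a1, a3, a4, a5⟩ := ih ((Finset.subset_insert j s).trans hs)
    have hj : j ∈ X := hs (Finset.mem_insert_self j s)
    obtain ⟨V2, m, b1, b2, b3, b4, b5⟩ := inner_Proc h0 h2 hlin hj a1
      (lv (X.toList.map h) {y | h j y = 0} O ({y | h j y = 0} ∩ O)) (fun c hc' => by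
        obtain ⟨c1, c2, c3, c4⟩ := (h3 E _ _ _ _ (flat_Proc (h j)) hO hc).1 c hc'
        exact ⟨c1, c2, c3, fun x hx =>
          c4 (h x) (List.mem_map_of_mem (Finset.mem_toList.2 hx))⟩)
    refine ⟨V2, n + m, b1, ?_, ?_, ?_⟩
    · rw [Nat.cast_add, ← add_assoc]
      exact b3.trans (add_le_add a3 le_rfl)
    · rw [Finset.sum_insert hjs, Nat.cast_add, add_comm]
      exact add_le_add b4 a4
    · intro j' hj' c hc' hne y hy hy0
      rcases Finset.mem_insert.1 hj' with rfl | hj'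
      · exact b5 c hc' hne y hy hy0
      · exact fun hy' => a5 j' hj' c hc' hne y hy hy0 (b2 hy')

end

theorem sProc (h0 : SWc) (h1 : SInit) (h2 : SJob) (h3 : SLeaf) (h4 : SConv) : SProc := by
  intro E _ _ _ ι F R h hP O hO X
  have hV0 : Inv_Proc F h O X (O \ ⋃ x ∈ X, F x) := by
    refine ⟨hO.isOpen.sdiff (isClosed_biUnion_finset fun x _ => (hP.cpt x).isClosed), Subset.rfl,
      fun y hy hne => ⟨hy, fun hF => ?_⟩, fun q hq hq' => (hq' hq).elim⟩
    obtain ⟨x, hx, hF⟩ := mem_iUnion₂.1 hF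
    exact hne x hx (hP.on x y hF)
  obtain ⟨V, n, a1, a2, a3, a4⟩ :=
    outer_Proc h0 h2 h3 hP.lin hO.isOpen hO.convex hV0 X Finset.Subset.rfl
  have hVO : V ⊆ O := a1.sub.trans sdiff_subset
  obtain ⟨C, c1, c2, c3⟩ := h4 E O V (X.image h) hO a1.opn hVO
    (fun g hg => by
      obtain ⟨x, -, rfl⟩ := Finset.mem_image.1 hg
      exact hP.lin x)
    (fun y hy hne => a1.gen y hy fun x hx => hne _ (Finset.mem_image_of_mem h hx))
    (fun q hq hqV => by
      by_cases hF : q ∈ ⋃ x ∈ X, F x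
      · obtain ⟨j, hj, hF⟩ := mem_iUnion₂.1 hF
        have hq0 := hP.on j q hF
        obtain ⟨ε, hε, hb⟩ := (h3 E (X.toList.map h) _ _ ({y | h j y = 0} ∩ O) (flat_Proc (h j))
          hO.isOpen hO.convex).2 q ⟨hq0, hq⟩
        refine ⟨h j, Finset.mem_image_of_mem h hj, hq0, ε, hε, fun y hy hy0 hyV => ?_⟩
        refine closure_minimal (t := Vᶜ) ?_ a1.opn.isClosed_compl (hb ⟨hy, hy0, hVO hyV⟩) hyV
        rintro z ⟨c, hc, hqc, hz0, hz⟩
        exact a4 j hj c hc ⟨q, hqc, hF⟩ z hz hz0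
      · obtain ⟨x, hx, hr⟩ := a1.wall q ⟨hq, hF⟩ hqV
        exact ⟨h x, Finset.mem_image_of_mem h hx, hr⟩)
    (1 + X.card + n) (by
      rw [Nat.cast_add, Nat.cast_add, Nat.cast_one]
      exact a2.trans (add_le_add (h1 E ι F R h hP O hO.isOpen hO.convex X) le_rfl))
  refine ⟨C, c1, fun U hU x hx => disjoint_left.2 fun y hy hF =>
    (a1.sub (c3 U hU hy)).2 (mem_iUnion₂.2 ⟨x, hx, hF⟩), ?_⟩
  have h5 : (C.card : ℕ∞) ≤ ((1 + X.card + n : ℕ) : ℕ∞) := by exact_mod_cast c2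
  rw [Nat.cast_add, Nat.cast_add, Nat.cast_one] at h5
  exact h5.trans (add_le_add le_rfl a3)

end Pool.Agent.MP_a2955b_co.Gen

end

section
/-! The output sensitive bound in one cell. -/

set_option autoImplicit false

namespace Pool.Agent.MP_a2955b_co.Gen

open Set Module Pool.Agent.MP_a2955b_co.Up
open scoped Classical

theorem en_Sum {E : Type} [NormedAddCommGroup E] [NormedSpace ℝ E] {ι : Type} (h : ι → Af E)
    {D : ℕ} (i : Fin D) (j : ι) (t : Finset ι) :
    ∃ τ : Fin D → ι, j ∈ t → Ind h t → t.card = D →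
      τ i = j ∧ (∀ x, x ∈ t ↔ ∃ m, τ m = x) ∧ IndT h τ := by
  by_cases hh : j ∈ t ∧ Ind h t ∧ t.card = D
  · obtain ⟨hj, ht, hc⟩ := hh
    let e : t ≃ Fin D := (t.equivFinOfCardEq hc).trans
      (Equiv.swap (t.equivFinOfCardEq hc ⟨j, hj⟩) i)
    have he : e ⟨j, hj⟩ = i := by simp [e]
    refine ⟨fun m => (e.symm m).1, fun _ _ _ => ⟨?_, fun x => ⟨fun hx => ?_, ?_⟩, ?_⟩⟩
    · rw [← he]
      exact congrArg Subtype.val (e.symm_apply_apply ⟨j, hj⟩)
    · exact ⟨e ⟨x, hx⟩, congrArg Subtype.val (e.symm_apply_apply ⟨x, hx⟩)⟩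
    · rintro ⟨m, rfl⟩
      exact (e.symm m).2
    · exact LinearIndependent.comp ht e.symm e.symm.injective
  · exact ⟨fun _ => j, fun h1 h2 h3 => absurd ⟨h1, h2, h3⟩ hh⟩

theorem cnt_Sum {ι : Type} [Fintype ι] {D : ℕ} (i : Fin D) (X : Finset ι)
    (T : ι → Finset (Finset ι)) (en : ι → Finset ι → Fin D → ι) (S : Set (Fin D → ι))
    (P : (Fin D → ι) → Prop)
    (hi : ∀ j ∈ X, ∀ s ∈ T j, en j (insert j s) i = j ∧ j ∉ s ∧
      (∀ x, x ∈ insert j s ↔ ∃ m, en j (insert j s) m = x) ∧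
      (P (en j (insert j s)) → en j (insert j s) ∈ S)) :
    ∑ j ∈ X, ∑ s ∈ T j, (if P (en j (insert j s)) then 1 else 0) ≤ S.ncard := by
  rw [Finset.sum_sigma', ← Finset.card_filter, Set.ncard_eq_toFinset_card S (Set.toFinite S)]
  refine Finset.card_le_card_of_injOn (fun a => en a.1 (insert a.1 a.2)) ?_ ?_
  · intro a ha
    rw [Finset.mem_coe, Finset.mem_filter, Finset.mem_sigma] at ha
    rw [Finset.mem_coe, Set.Finite.mem_toFinset]
    exact (hi a.1 ha.1.1 a.2 ha.1.2).2.2.2 ha.2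
  · rintro ⟨j, s⟩ ha ⟨j', s'⟩ hb hab
    rw [Finset.mem_coe, Finset.mem_filter, Finset.mem_sigma] at ha hb
    obtain ⟨a1, a2, a3, _⟩ := hi j ha.1.1 s ha.1.2
    obtain ⟨b1, b2, b3, _⟩ := hi j' hb.1.1 s' hb.1.2
    have hab' : en j (insert j s) = en j' (insert j' s') := hab
    have hjj : j = j' := by rw [← a1, ← b1, hab']
    subst hjj
    have hss : insert j s = insert j s' := by
      ext x
      rw [a3 x, b3 x, hab']
    have hs : s = s' := by
      rw [← Finset.erase_insert a2, hss, Finset.erase_insert b2]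
    rw [hs]

theorem sOne (h1 : SProc) (h2 : SCount) (h3 : SBase) : SOne := by
  intro E _ _ _ D hD h2D ι _ F R h hP i p hp G' O hO
  have hOP : OP O := ⟨G', hO⟩
  set X : Finset ι := Finset.univ.filter (fun x => (F x ∩ O).Nonempty) with hX
  obtain ⟨C, hC, hdis, hcard⟩ := h1 E ι F R h hP O hOP X
  refine ⟨C, hC, fun U hU x => ?_, ?_⟩
  · by_cases hx : x ∈ X
    · exact hdis U hU x hx
    · rw [Set.disjoint_left]
      intro y hy hy'
      exact hx (Finset.mem_filter.2 ⟨Finset.mem_univ _, y, hy', hC.sub U hU hy⟩)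
  choose en hen using fun (j : ι) (t : Finset ι) => en_Sum h i j t
  set b0 : ℕ := 2 * (D + 1) * (G'.card + 1) ^ (D + 1) with hb0
  set T : ι → Finset (Finset ι) := fun j =>
    (X.toList.toFinset.powersetCard (D - 1)).filter (fun s => j ∉ s ∧ Ind h (insert j s)) with hT
  set β : ι → Finset ι → ℕ := fun j t =>
    (if p (en j t) false ∈ O then 1 else 0) + (if p (en j t) true ∈ O then 1 else 0) with hβ
  have key : ∀ j ∈ X, tot (F j) (X.toList.map h) {y | h j y = 0} O ({y | h j y = 0} ∩ O) ≤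
      ((b0 * (X.card + 1) ^ (D - 2) + ∑ s ∈ T j, β j (insert j s) : ℕ) : ℕ∞) := by
    intro j _
    have := h2 E D hD h2D ι h (F j) O (hP.conv j) (hP.cpt j).isClosed hOP.isOpen hOP.convex b0
      (β j) j (hP.lin j) ?_ ?_ X.toList (Finset.nodup_toList X)
    · rw [Finset.length_toList] at this
      exact this
    · intro t _ _
      have h4 := h3 E (F j) (FL h t) G' (hP.cpt j) (hP.conv j) (flat_zeros h (fun x => x ∈ t))
      rw [← hO, hD] at h4
      exact h4
    · intro t hj ht hc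
      obtain ⟨e1, e2, e3⟩ := hen j t hj ht hc
      have h4 := (hp (en j t) e3).2 O hOP.isOpen hOP.convex
      have h5 : {y | ∀ m, h (en j t m) y = 0} = FL h t := by
        ext y
        constructor
        · intro hy x hx
          obtain ⟨m, rfl⟩ := (e2 x).1 hx
          exact hy m
        · intro hy m
          exact hy _ ((e2 _).2 ⟨m, rfl⟩)
      rw [h5, e1] at h4
      refine h4.trans (le_of_eq ?_)
      simp only [hβ]
      push_cast
      rfl
  have hsum := hcard.trans (add_le_add le_rfl (Finset.sum_le_sum key))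
  have hnat : C.card ≤ 1 + X.card +
      ∑ j ∈ X, (b0 * (X.card + 1) ^ (D - 2) + ∑ s ∈ T j, β j (insert j s)) := by
    exact_mod_cast hsum
  have hXc : X.card ≤ Fintype.card ι := Finset.card_le_univ X
  have hcnt : ∀ b : Bool,
      ∑ j ∈ X, ∑ s ∈ T j, (if p (en j (insert j s)) b ∈ O then 1 else 0) ≤
        {τ | IndT h τ ∧ p τ b ∈ O ∧ ∀ m, (F (τ m) ∩ O).Nonempty}.ncard := by
    intro b
    refine cnt_Sum i X T en _ (fun τ => p τ b ∈ O) ?_
    intro j hj s hs
    rw [hT] at hs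
    obtain ⟨hs1, hs2, hs3⟩ := Finset.mem_filter.1 hs
    obtain ⟨hs4, hs5⟩ := Finset.mem_powersetCard.1 hs1
    rw [Finset.toList_toFinset] at hs4
    have hc : (insert j s).card = D := by
      rw [Finset.card_insert_of_notMem hs2, hs5]
      omega
    obtain ⟨e1, e2, e3⟩ := hen j (insert j s) (Finset.mem_insert_self _ _) hs3 hc
    refine ⟨e1, hs2, e2, fun hb => ⟨e3, hb, fun m => ?_⟩⟩
    have h6 : en j (insert j s) m ∈ X := by
      rcases Finset.mem_insert.1 ((e2 _).2 ⟨m, rfl⟩) with h7 | h7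
      · rw [h7]
        exact hj
      · exact hs4 h7
    exact (Finset.mem_filter.1 h6).2
  have h8 : ∑ j ∈ X, ∑ s ∈ T j, β j (insert j s) =
      ∑ j ∈ X, ∑ s ∈ T j, (if p (en j (insert j s)) false ∈ O then 1 else 0) +
        ∑ j ∈ X, ∑ s ∈ T j, (if p (en j (insert j s)) true ∈ O then 1 else 0) := by
    rw [← Finset.sum_add_distrib]
    refine Finset.sum_congr rfl (fun j _ => ?_)
    rw [← Finset.sum_add_distrib]
  rw [Finset.sum_add_distrib, Finset.sum_const, smul_eq_mul, h8] at hnat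
  have h9 : X.card * (b0 * (X.card + 1) ^ (D - 2)) ≤
      Fintype.card ι * (b0 * (Fintype.card ι + 1) ^ (D - 2)) :=
    Nat.mul_le_mul hXc (Nat.mul_le_mul_left _ (Nat.pow_le_pow_left (by omega) _))
  have h10 := hcnt false
  have h11 := hcnt true
  omega

end Pool.Agent.MP_a2955b_co.Gen

end

section
/-! The output sensitive bound, summed over the cells of an arrangement. -/

set_option autoImplicit false

namespace Pool.Agent.MP_a2955b_co.Gen

open Set Module Pool.Agent.MP_a2955b_co.Up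
open scoped Classical

theorem sum_ncard_BB {α β : Type} [Finite β] (C : Finset α) (S : α → Set β) (U : Set β)
    (hS : ∀ a ∈ C, S a ⊆ U) (hd : ∀ a ∈ C, ∀ a' ∈ C, a ≠ a' → Disjoint (S a) (S a')) :
    ∑ a ∈ C, (S a).ncard ≤ U.ncard := by
  induction C using Finset.induction_on generalizing U with
  | empty => simp
  | insert a C ha ih =>
    rw [Finset.sum_insert ha]
    have h1 := ih (U \ S a) (fun x hx z hz => ⟨hS x (Finset.mem_insert_of_mem hx) hz, fun hz' =>
      disjoint_left.1 (hd x (Finset.mem_insert_of_mem hx) a (Finset.mem_insert_self _ _)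
        (fun h => ha (h ▸ hx))) hz hz'⟩)
      (fun x hx x' hx' => hd x (Finset.mem_insert_of_mem hx) x' (Finset.mem_insert_of_mem hx'))
    have h2 := Set.ncard_sdiff_add_ncard_of_subset (hS a (Finset.mem_insert_self _ _))
    omega

theorem sB (h1 : SArr) (h2 : SOne) : SB := by
  intro E _ _ _ D hE hD ι _ F R h hpl i p hp w σ hσ G hG
  obtain ⟨-, G0, hG0, -, rfl⟩ := hσ
  obtain ⟨C, hC, hCc, hCO⟩ := h1 E G0 G hG
  set n := Fintype.card ι with hn
  set X := 1 + n + n * (2 * (D + 1) * (w + G.card + 1) ^ (D + 1) * (n + 1) ^ (D - 2)) with hX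
  let S : Bool → Set E → Set (Fin D → ι) := fun b O =>
    {τ | IndT h τ ∧ p τ b ∈ O ∧ ∀ m, (F (τ m) ∩ O).Nonempty}
  have hone : ∀ O ∈ C, ∃ C' : Finset (Set E), Part O C' ∧ (∀ U ∈ C', ∀ x, Disjoint U (F x)) ∧
      C'.card ≤ X + ((S false O).ncard + (S true O).ncard) := by
    intro O hO
    obtain ⟨-, G', hG', hOG⟩ := hCO O hO
    obtain ⟨C', a1, a2, a3⟩ := h2 E D hE hD ι F R h hpl i p hp G' O hOG
    refine ⟨C', a1, a2, a3.trans (Nat.add_le_add_right ?_ _)⟩
    rw [hX]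
    gcongr
    omega
  choose! C' a1 a2 a3 using hone
  obtain ⟨C2, b1, b2, b3⟩ := hC.bind C' a1
  refine ⟨C2, b1, fun U hU x => ?_, b2.trans ?_⟩
  · obtain ⟨O, hO, hU'⟩ := (b3 U).1 hU
    exact a2 O hO U hU' x
  have hS : ∀ b, ∑ O ∈ C, (S b O).ncard ≤ {τ | IndT h τ ∧ Alv R G τ (p τ b)}.ncard := by
    intro b
    refine sum_ncard_BB C (S b) _ ?_ ?_
    · rintro O hO τ ⟨c1, c2, c3⟩
      have hy : ∀ m, ∃ y ∈ R (τ m), y ∈ O := by
        intro m
        obtain ⟨z, hz, hzO⟩ := c3 m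
        obtain ⟨y, hy1, hy2⟩ := mem_closure_iff.1 (hpl.dense _ hz) O (hC.op O hO).isOpen hzO
        exact ⟨y, hy2, hy1⟩
      choose y hy1 hy2 using hy
      refine ⟨c1, y, hy1, fun g hg m => ?_⟩
      have e := sign_eq_of_convex (hC.op O hO).convex g ((hCO O hO).1 g hg) c2 (hy2 m)
      have e0 := (hCO O hO).1 g hg _ c2
      rw [← sign_eq_one_iff, sign_mul, ← e, ← sign_mul, sign_eq_one_iff]
      exact mul_self_pos.2 e0
    · intro O hO O' hO' hne
      exact disjoint_left.2 fun τ hτ hτ' =>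
        disjoint_left.1 (hC.disj O hO O' hO' hne) hτ.2.1 hτ'.2.1
  refine (Finset.sum_le_sum a3).trans ?_
  rw [Finset.sum_add_distrib, Finset.sum_const, smul_eq_mul, Finset.sum_add_distrib]
  refine Nat.add_le_add ?_ (Nat.add_le_add (hS false) (hS true))
  rw [hE] at hCc
  exact Nat.mul_le_mul_right _ hCc

end Pool.Agent.MP_a2955b_co.Gen

end
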