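import Pool.Agent.MP_a2955b_co.Gen.Stm
import Pool.Agent.MP_41f2d3_co.Ramsey

section
/-! Homogeneous boxes, and points in all orthants. -/

set_option autoImplicit false

namespace Pool.Agent.MP_a2955b_co.Gen

open Set Module Pool.Agent.MP_a2955b_co.Up
open scoped Classical

theorem ram_Hom (D M : ℕ) (C : Type) [Finite C] : ∃ L : ℕ, ∀ χ : (Fin D → Fin L × Fin L) → C,
    ∃ s : Fin D → Fin M → Fin L, (∀ i, StrictMono (s i)) ∧ ∃ c : C, ∀ a b : Fin D → Fin M,
      (∀ i, a i < b i) → χ (fun i => (s i (a i), s i (b i))) = c := by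
  induction D with
  | zero => exact ⟨0, fun χ => ⟨fun i => i.elim0, fun i => i.elim0, χ fun i => i.elim0,
      fun a b _ => congrArg χ (Subsingleton.elim _ _)⟩⟩
  | succ D ih =>
    obtain ⟨L, hL⟩ := ih
    have := Fintype.ofFinite ((Fin D → Fin L × Fin L) → C)
    obtain ⟨N, hN⟩ := MP_41f2d3_co.ramsey ((Fin D → Fin L × Fin L) → C) M
    refine ⟨L + N + 1, fun χ => ?_⟩
    let g : ℕ → Fin (L + N + 1) := fun x => ⟨x % (L + N + 1), Nat.mod_lt _ (Nat.succ_pos _)⟩
    let u : Fin L → Fin (L + N + 1) := Fin.castLE (by omega)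
    obtain ⟨f, hf, hm, c0, hc0⟩ := hN fun x y r =>
      χ (Fin.cons (g x, g y) fun i => (u (r i).1, u (r i).2))
    obtain ⟨s, hs, c, hc⟩ := hL c0
    refine ⟨Fin.cons (fun k => g (f k)) fun i k => u (s i k), fun i => ?_, c, fun a b hab => ?_⟩
    · refine Fin.cases ?_ (fun i => ?_) i
      · intro k l hkl
        have h1 := hf k
        have h2 := hf l
        change f k % _ < f l % _
        rw [Nat.mod_eq_of_lt (by omega), Nat.mod_eq_of_lt (by omega)]
        exact hm k l hkl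
      · exact fun k l hkl => hs i hkl
    · rw [← hc (fun i => a i.succ) (fun i => b i.succ) fun i => hab _, ← hc0 _ _ (hab 0)]
      refine congrArg χ (funext fun i => ?_)
      refine Fin.cases ?_ (fun i => ?_) i <;> rfl

theorem sHom : SHom := by
  intro D N C _
  obtain ⟨L, hL⟩ := ram_Hom D (N + 1) ((Fin D → SignType × SignType) × C)
  refine ⟨L, fun f χ => ?_⟩
  obtain ⟨s, hs, c, hc⟩ := hL fun p =>
    (fun i => (f (Function.update (fun i' => (p i').1) i (p i).2) i (p i).1,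
      f (fun i' => (p i').1) i (p i).2), χ fun i' => (p i').1)
  refine ⟨fun i k => s i k.castSucc, fun i k l hkl => hs i hkl,
    ⟨fun i => (c.1 i).1, fun i => (c.1 i).2, fun j i k => ⟨fun hk => ?_, fun hk => ?_⟩⟩,
    c.2, fun j => ?_⟩
  · rw [← hc (Function.update (fun i' => (j i').castSucc) i k.castSucc)
      (Function.update (fun _ => Fin.last N) i (j i).castSucc) fun i' => by
        by_cases h : i' = i
        · subst h; simpa using hk
        · simp [h]]
    simp only [Function.update_self]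
    congr 1
    funext i'
    by_cases h : i' = i
    · subst h; simp
    · simp [h]
  · rw [← hc (fun i' => (j i').castSucc) (Function.update (fun _ => Fin.last N) i k.castSucc)
      fun i' => by
        by_cases h : i' = i
        · subst h; simpa using hk
        · simp [h]]
    simp only [Function.update_self]
  · rw [← hc (fun i' => (j i').castSucc) (fun _ => Fin.last N) fun i' => Fin.castSucc_lt_last _]

theorem seg_Hom {E : Type} [NormedAddCommGroup E] [NormedSpace ℝ E] (g : Af E) {x y : E}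
    (hx : 0 < g x) (hy : g y < 0) : ∃ z ∈ segment ℝ x y, g z = 0 := by
  have hd : 0 < g x - g y := by linarith
  have hab : -g y / (g x - g y) + g x / (g x - g y) = 1 := by field_simp; ring
  refine ⟨_, ⟨_, _, div_nonneg (by linarith) hd.le, div_nonneg hx.le hd.le, hab, rfl⟩, ?_⟩
  rw [af_combo g x y _ _ hab]
  field_simp; ring

theorem sOrth : SOrth := by
  intro E _ _ I s φ
  induction s using Finset.induction_on with
  | empty =>
    exact fun u _ => ⟨u fun _ => true, subset_convexHull _ _ ⟨_, rfl⟩, by simp⟩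
  | insert i s hi ih =>
    intro u hu
    choose u' h1 h2 using fun ε : I → Bool => seg_Hom (φ i)
      ((hu (Function.update ε i true) i (Finset.mem_insert_self _ _)).1 (by simp))
      ((hu (Function.update ε i false) i (Finset.mem_insert_self _ _)).2 (by simp))
    obtain ⟨z, hz, h0⟩ := ih u' fun ε l hl => by
      have hli : l ≠ i := fun h => hi (h ▸ hl)
      have h3 := fun b => hu (Function.update ε i b) l (Finset.mem_insert_of_mem hl)
      simp only [Function.update_of_ne hli] at h3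
      exact ⟨fun h => (convex_pos (φ l)).segment_subset ((h3 true).1 h) ((h3 false).1 h) (h1 ε),
        fun h => (convex_neg (φ l)).segment_subset ((h3 true).2 h) ((h3 false).2 h) (h1 ε)⟩
    refine ⟨z, convexHull_min ?_ (convex_convexHull _ _) hz, fun l hl => ?_⟩
    · rintro _ ⟨ε, rfl⟩
      exact (convex_convexHull ℝ (range u)).segment_subset
        (subset_convexHull _ _ (mem_range_self _)) (subset_convexHull _ _ (mem_range_self _)) (h1 ε)
    · rcases Finset.mem_insert.1 hl with rfl | hl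
      · exact convexHull_min (by rintro _ ⟨ε, rfl⟩; exact h2 ε) (convex_zero (φ l)) hz
      · exact h0 l hl

end Pool.Agent.MP_a2955b_co.Gen

end

section
set_option autoImplicit false

namespace Pool.Agent.MP_a2955b_co.Gen

open Set Module Pool.Agent.MP_a2955b_co.Up
open scoped Classical

section

variable {E : Type} [NormedAddCommGroup E] [NormedSpace ℝ E]

theorem btw_Mid {S : Set E} (hS : Convex ℝ S) {x w : E} {a b c : ℝ} (ha : x + a • w ∈ S)
    (hc : x + c • w ∈ S) (h1 : a ≤ b) (h2 : b ≤ c) : x + b • w ∈ S := by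
  have hconv : Convex ℝ {t : ℝ | x + t • w ∈ S} := by
    intro s hs t ht u v hu hv huv
    have := hS hs ht hu hv huv
    show x + (u • s + v • t) • w ∈ S
    convert this using 1
    have hu' : u = 1 - v := by linarith
    rw [hu', smul_eq_mul, smul_eq_mul]
    module
  exact hconv.ordConnected.out ha hc ⟨h1, h2⟩

theorem less_Mid {A B : Set E} (hA : Convex ℝ A) (hB : Convex ℝ B) (h : Disjoint A B) (x w : E) :
    (∀ a b : ℝ, x + a • w ∈ A → x + b • w ∈ B → a < b) ∨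
      ∀ b a : ℝ, x + b • w ∈ B → x + a • w ∈ A → b < a := by
  by_contra hc
  push Not at hc
  obtain ⟨⟨a1, b1, h1, h2, h3⟩, b2, a2, h4, h5, h6⟩ := hc
  rcases le_total a2 b1 with h7 | h7
  · exact disjoint_left.1 h (btw_Mid hA h5 h1 h7 h3) h2
  · exact disjoint_left.1 h h5 (btw_Mid hB h2 h4 h7 h6)

theorem mid_Mid {L A B C : Set E} {x w : E} (hL : ∀ y ∈ L, ∃ a : ℝ, y = x + a • w)
    (h1 : ∀ a b : ℝ, x + a • w ∈ A → x + b • w ∈ B → a < b)
    (h2 : ∀ a b : ℝ, x + a • w ∈ B → x + b • w ∈ C → a < b) : Mid L A B C ∧ Mid L C B A := by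
  have : Mid L A B C := by
    intro za ha zb hb zc hc la lb lc
    obtain ⟨a, rfl⟩ := hL _ la
    obtain ⟨b, rfl⟩ := hL _ lb
    obtain ⟨c, rfl⟩ := hL _ lc
    exact btw_Mid (convex_segment _ _) (left_mem_segment ℝ _ _) (right_mem_segment ℝ _ _)
      (h1 a b ha hb).le (h2 b c hb hc).le
  exact ⟨this, fun zc hc zb hb za ha lc lb la => segment_symm ℝ za zc ▸ this za ha zb hb zc hc la lb lc⟩

theorem pen_Mid (φ g : Af E) {q z : E} (hq : φ q ≠ 0) (hz : φ z ≠ 0) :
    pen φ g q z = φ q * φ z * (g z / φ z - g q / φ q) := by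
  rw [pen_apply]
  field_simp

theorem same_Mid (φ g : Af E) {q y z : E} (hq : φ q ≠ 0) (hyz : 0 < φ y * φ z)
    (h : 0 < pen φ g q y * pen φ g q z) :
    0 < (g y / φ y - g q / φ q) * (g z / φ z - g q / φ q) := by
  rw [pen_Mid φ g hq (left_ne_zero_of_mul hyz.ne'), pen_Mid φ g hq (right_ne_zero_of_mul hyz.ne')]
    at h
  have h2 : 0 < φ q ^ 2 * (φ y * φ z) := mul_pos (sq_pos_of_ne_zero hq) hyz
  refine pos_of_mul_pos_right ?_ h2.le
  linarith

theorem cross_Mid (φ g : Af E) {S : Set E} (hS : Convex ℝ S) {l r : E} (hl : l ∈ S) (hr : r ∈ S)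
    (h1 : φ l < 0) (h2 : 0 < φ r) :
    ∃ w ∈ S, φ w = 0 ∧ ∃ c : ℝ, 0 < c ∧ g w = c * (g r / φ r - g l / φ l) := by
  have hd : 0 < φ r - φ l := by linarith
  have hs : φ r / (φ r - φ l) + -φ l / (φ r - φ l) = 1 := by field_simp; ring
  refine ⟨_, hS hl hr (div_nonneg h2.le hd.le) (div_nonneg (by linarith) hd.le) hs, ?_,
    φ r * -φ l / (φ r - φ l), div_pos (mul_pos h2 (by linarith)) hd, ?_⟩
  · rw [af_combo _ _ _ _ _ hs]
    field_simp
    ring
  · rw [af_combo _ _ _ _ _ hs]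
    have := h1.ne
    field_simp
    ring

theorem sort_Mid (f : Fin 3 → ℝ) (h : ∀ s t, s ≠ t → f s ≠ f t) :
    ∃ s o t, f s < f o ∧ f o < f t := by
  rcases lt_or_gt_of_ne (h 0 1 (by decide)) with a | a <;>
    rcases lt_or_gt_of_ne (h 0 2 (by decide)) with b | b <;>
    rcases lt_or_gt_of_ne (h 1 2 (by decide)) with c | c
  · exact ⟨0, 1, 2, a, c⟩
  · exact ⟨0, 2, 1, b, c⟩
  · exact ⟨0, 1, 2, a, c⟩
  · exact ⟨2, 0, 1, b, a⟩
  · exact ⟨1, 0, 2, a, b⟩
  · exact ⟨1, 0, 2, a, b⟩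
  · exact ⟨1, 2, 0, c, b⟩
  · exact ⟨2, 1, 0, c, a⟩

end

theorem sMid : SMid := by
  intro E _ _ L A B C x w hL hA hB hC hAB hAC hBC
  rcases less_Mid hA hB hAB x w with a | a <;> rcases less_Mid hA hC hAC x w with b | b <;>
    rcases less_Mid hB hC hBC x w with c | c
  · exact Or.inr (Or.inl (mid_Mid hL a c).1)
  · exact Or.inr (Or.inr (mid_Mid hL b c).1)
  · exact Or.inr (Or.inl (mid_Mid hL a c).1)
  · exact Or.inl (mid_Mid hL b a).2
  · exact Or.inl (mid_Mid hL a b).1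
  · exact Or.inl (mid_Mid hL a b).1
  · exact Or.inr (Or.inr (mid_Mid hL c b).2)
  · exact Or.inr (Or.inl (mid_Mid hL c a).2)

theorem sExit : SExit := by
  intro E _ _ _ Hc hHc T z w hz hw
  have hK : IsCompact (convexHull ℝ (T : Set E)) := T.finite_toSet.isCompact_convexHull ℝ
  have hcl : IsClosed {t : ℝ | z + t • w ∈ convexHull ℝ (T : Set E)} :=
    hK.isClosed.preimage (f := fun t : ℝ => z + t • w) (by fun_prop)
  have hbd : BddAbove {t : ℝ | z + t • w ∈ convexHull ℝ (T : Set E)} := by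
    obtain ⟨R, hR⟩ := hK.isBounded.exists_norm_le
    refine ⟨(R + ‖z‖) / ‖w‖, fun t ht => ?_⟩
    rw [le_div_iff₀ (norm_pos_iff.2 hw)]
    have a1 := hR _ ht
    have a2 := norm_sub_le (z + t • w) z
    rw [add_sub_cancel_left, norm_smul, Real.norm_eq_abs] at a2
    nlinarith [le_abs_self t, norm_nonneg w]
  have hmem := hcl.csSup_mem ⟨0, by simpa using hz⟩ hbd
  obtain ⟨t, ht⟩ : ∃ t, t = sSup {t : ℝ | z + t • w ∈ convexHull ℝ (T : Set E)} := ⟨_, rfl⟩
  rw [← ht] at hmem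
  by_contra hc
  push Not at hc
  have hev : ∀ᶠ s in nhds (0 : ℝ), ∀ g ∈ Hc T,
      SignType.sign (g (z + t • w)) = SignType.sign (g (z + (t + s) • w)) := by
    rw [Filter.eventually_all_finset]
    intro g hg
    have e : ∀ s : ℝ, g (z + (t + s) • w) = g (z + t • w) + s * g.linear w := by
      intro s
      rw [add_smul, ← add_assoc, af_add g _ (s • w), map_smul, smul_eq_mul]
    have hcont : Filter.Tendsto (fun s : ℝ => g (z + t • w) + s * g.linear w) (nhds 0)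
        (nhds (g (z + t • w))) := by
      have : Continuous fun s : ℝ => g (z + t • w) + s * g.linear w := by fun_prop
      simpa using this.tendsto 0
    rcases lt_trichotomy (g (z + t • w)) 0 with h | h | h
    · filter_upwards [hcont.eventually (eventually_lt_nhds h)] with s hs
      rw [e, sign_neg h, sign_neg hs]
    · refine Filter.Eventually.of_forall fun s => ?_
      rw [e, hc t g hg hmem h, mul_zero, add_zero]
    · filter_upwards [hcont.eventually (eventually_gt_nhds h)] with s hs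
      rw [e, sign_pos h, sign_pos hs]
  obtain ⟨s, hs, hs0⟩ := ((hev.filter_mono (nhdsWithin_le_nhds (s := Ioi 0))).and
    self_mem_nhdsWithin).exists
  have := le_csSup hbd ((hHc T).2.2 _ _ hs hmem)
  rw [← ht] at this
  have : 0 < s := hs0
  linarith

theorem sSlope : SSlope := by
  intro E _ _ φ g A C p ya yc q za zc hconv hA hC hl hr h1 h2
  have F1 := fun s t hst => same_Mid φ g (hl t).1.ne (mul_pos_of_neg_of_neg (hl s).1 (hl s).2.1)
    (h1 s t hst).1
  have F2 := fun s t hst => same_Mid φ g (hl t).1.ne (mul_pos_of_neg_of_neg (hl s).1 (hl s).2.2.1)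
    (h1 s t hst).2
  obtain ⟨s, o, t, a1, a2⟩ := sort_Mid (fun s => g (p s) / φ (p s)) fun s t hst e => by
    have := F1 s t hst
    rw [e, sub_self, zero_mul] at this
    exact lt_irrefl _ this
  have hs : s ≠ o := fun h => by rw [h] at a1; exact lt_irrefl _ a1
  have ht : t ≠ o := fun h => by rw [h] at a2; exact lt_irrefl _ a2
  have b1 := neg_of_mul_pos_right (F1 s o hs) (sub_neg.2 a1).le
  have b2 := pos_of_mul_pos_right (F2 t o ht) (sub_pos.2 a2).le
  obtain ⟨c1, c2⟩ := h2 s t o hs ht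
  have c3 : 0 < pen φ g (p o) (za s t) * pen φ g (p o) (zc s t) := by
    rcases mul_pos_iff.1 c1 with ⟨d1, d2⟩ | ⟨d1, d2⟩
    · exact mul_pos d2 (pos_of_mul_pos_right c2 d1.le)
    · exact mul_pos_of_neg_of_neg d2 (neg_of_mul_pos_right c2 d1.le)
  have c4 := same_Mid φ g (hl o).1.ne (mul_pos (hr s t).1 (hr s t).2.1) c3
  obtain ⟨w, w1, w2, c, w3, w4⟩ := cross_Mid φ g (hconv s).1 (hl s).2.2.2.1 (hr s t).2.2.1
    (hl s).2.1 (hr s t).1
  obtain ⟨w', v1, v2, c', v3, v4⟩ := cross_Mid φ g (hconv t).2 (hl t).2.2.2.2 (hr s t).2.2.2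
    (hl t).2.2.1 (hr s t).2.1
  have d1 := hA s w w1 w2
  have d2 := hC t w' v1 v2
  rw [w4] at d1
  rw [v4] at d2
  have e1 := neg_of_mul_neg_right d1 w3.le
  have e2 := pos_of_mul_pos_right d2 v3.le
  nlinarith

end Pool.Agent.MP_a2955b_co.Gen

end

section
/-! Two families in convex position do not occur. -/

set_option autoImplicit false

namespace Pool.Agent.MP_a2955b_co.Gen

open Set Module Pool.Agent.MP_a2955b_co.Up
open scoped Classical

/-- A linear relation between the values at the nine points. -/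
def Rl_TwoC (F G : Fin 3 → Fin 3 → Fin 3 → ℝ) (α β : Fin 3 → ℝ) : Prop :=
  ∀ j k, ∑ i, α i * F j k i + ∑ i, β i * G j k i = 0

theorem one_TwoC {F G : Fin 3 → Fin 3 → Fin 3 → ℝ} (F0 : ∀ j k, F j k j = 0)
    (G0 : ∀ j k, G j k k = 0) (hF : ∀ j k i, i ≠ j → 0 < F j k i)
    (hG : ∀ j k i, i ≠ k → 0 < G j k i) {α β : Fin 3 → ℝ} (h : Rl_TwoC F G α β) {j k : Fin 3}
    (hα : ∀ i, i ≠ j → α i ≤ 0) (hβ : ∀ i, i ≠ k → β i ≤ 0) : α = 0 ∧ β = 0 := by
  have a1 : ∀ i ∈ Finset.univ, α i * F j k i ≤ 0 := fun i _ => by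
    by_cases e : i = j
    · simp [e, F0]
    · exact mul_nonpos_of_nonpos_of_nonneg (hα i e) (hF j k i e).le
  have b1 : ∀ i ∈ Finset.univ, β i * G j k i ≤ 0 := fun i _ => by
    by_cases e : i = k
    · simp [e, G0]
    · exact mul_nonpos_of_nonpos_of_nonneg (hβ i e) (hG j k i e).le
  have a2 := Finset.sum_nonpos a1
  have b2 := Finset.sum_nonpos b1
  have a3 : ∀ i, i ≠ j → α i = 0 := fun i e => (mul_eq_zero.1 ((Finset.sum_eq_zero_iff_of_nonpos
    a1).1 (by linarith [h j k]) i (Finset.mem_univ i))).resolve_right (hF j k i e).ne'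
  have b3 : ∀ i, i ≠ k → β i = 0 := fun i e => (mul_eq_zero.1 ((Finset.sum_eq_zero_iff_of_nonpos
    b1).1 (by linarith [h j k]) i (Finset.mem_univ i))).resolve_right (hG j k i e).ne'
  have key : ∀ j' k', α j * F j' k' j + β k * G j' k' k = 0 := fun j' k' => by
    have := h j' k'
    rwa [Finset.sum_eq_single j (fun i _ e => by simp [a3 i e]) (by simp),
      Finset.sum_eq_single k (fun i _ e => by simp [b3 i e]) (by simp)] at this
  obtain ⟨j', hj⟩ := exists_ne j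
  obtain ⟨k', hk⟩ := exists_ne k
  have u := key j' k
  have v := key j k'
  rw [G0, mul_zero, add_zero] at u
  rw [F0, mul_zero, zero_add] at v
  refine ⟨funext fun i => ?_, funext fun i => ?_⟩
  · by_cases e : i = j
    · exact e ▸ (mul_eq_zero.1 u).resolve_right (hF j' k j hj.symm).ne'
    · exact a3 i e
  · by_cases e : i = k
    · exact e ▸ (mul_eq_zero.1 v).resolve_right (hG j k' k hk.symm).ne'
    · exact b3 i e

theorem two_TwoC {F G : Fin 3 → Fin 3 → Fin 3 → ℝ} (F0 : ∀ j k, F j k j = 0)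
    (G0 : ∀ j k, G j k k = 0) (hF : ∀ j k i, i ≠ j → 0 < F j k i)
    (hG : ∀ j k i, i ≠ k → 0 < G j k i) {α β : Fin 3 → ℝ} (h : Rl_TwoC F G α β)
    (h1 : ∃ j, ∀ i, i ≠ j → α i ≤ 0) (h2 : ∃ j, ∀ i, i ≠ j → 0 ≤ α i) : α = 0 ∧ β = 0 := by
  have : (∃ k, ∀ i, i ≠ k → β i ≤ 0) ∨ ∃ k, ∀ i, i ≠ k → 0 ≤ β i := by
    simp only [Fin.exists_fin_succ, Fin.forall_fin_succ]
    rcases le_total (β 0) 0 with a | a <;> rcases le_total (β 1) 0 with b | b <;>
      rcases le_total (β 2) 0 with c | c <;> simp [a, b, c]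
  rcases this with ⟨k, hk⟩ | ⟨k, hk⟩
  · obtain ⟨j, hj⟩ := h1
    exact one_TwoC F0 G0 hF hG h hj hk
  · obtain ⟨j, hj⟩ := h2
    have := one_TwoC F0 G0 hF hG (α := -α) (β := -β) (j := j) (k := k) (fun j k => by
      simp only [Pi.neg_apply, neg_mul, Finset.sum_neg_distrib]
      linarith [h j k]) (fun i e => neg_nonpos.2 (hj i e)) fun i e => neg_nonpos.2 (hk i e)
    simpa using this

theorem mix_TwoC {α : Fin 3 → ℝ}
    (h : α 0 = 0 ∧ α 1 * α 2 ≤ 0 ∨ α 1 = 0 ∧ α 0 * α 2 ≤ 0 ∨ α 2 = 0 ∧ α 0 * α 1 ≤ 0) :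
    (∃ j, ∀ i, i ≠ j → α i ≤ 0) ∧ ∃ j, ∀ i, i ≠ j → 0 ≤ α i := by
  simp only [Fin.exists_fin_succ, Fin.forall_fin_succ]
  rcases h with ⟨a, b⟩ | ⟨a, b⟩ | ⟨a, b⟩ <;> rcases mul_nonpos_iff.1 b with ⟨c, d⟩ | ⟨c, d⟩ <;>
    simp [a, c, d]

theorem sTwoC : STwoC := by
  intro E _ _ _ D hD φ p hind hz a b hab ha hb
  obtain ⟨t, t1, t2, t3⟩ : ∃ t : Fin 3 → Fin 3 → Fin D → Fin 3, (∀ j k, t j k a = j) ∧
      (∀ j k, t j k b = k) ∧ ∀ j k m, m ≠ a → m ≠ b → t j k m = 0 :=
    ⟨fun j k => Function.update (Function.update (fun _ => 0) a j) b k,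
      fun j k => by simp [hab], fun j k => by simp, fun j k m u v => by simp [u, v]⟩
  have hV := finrank_ker_add (I := ((Finset.univ.erase a).erase b : Finset (Fin D)))
    (fun m => (φ m 0).linear) ((hind fun _ => 0).comp Subtype.val Subtype.val_injective)
  generalize hV' : (⨅ m : ((Finset.univ.erase a).erase b : Finset (Fin D)),
    LinearMap.ker (φ m 0).linear : Submodule ℝ E) = V at hV
  have h3 : finrank ℝ V ≤ 3 := by
    have c1 := Finset.pred_card_le_card_erase (s := (Finset.univ : Finset (Fin D))) (a := a)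
    have c2 := Finset.pred_card_le_card_erase (s := Finset.univ.erase a) (a := b)
    rw [Fintype.card_coe] at hV
    rw [Finset.card_univ, Fintype.card_fin] at c1
    omega
  have mem : ∀ j k, p (t j k) - p (t 0 0) ∈ V := fun j k => by
    rw [← hV', Submodule.mem_iInf]
    rintro ⟨m, hm⟩
    simp only [Finset.mem_erase] at hm
    have u := hz (t j k) m
    have v := hz (t 0 0) m
    rw [t3 _ _ m hm.2.1 hm.1] at u v
    rw [LinearMap.mem_ker, af_sub, u, v, sub_zero]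
  have rel : ∀ j0 : Fin 3, ∃ α β : Fin 3 → ℝ, α j0 = 0 ∧ ¬ (α = 0 ∧ β = 0) ∧
      Rl_TwoC (fun j k i => φ a i (p (t j k))) (fun j k i => φ b i (p (t j k))) α β := by
    intro j0
    have : ¬ LinearIndependent ℝ (Sum.elim
        (fun i => (if i = j0 then 1 else 0, φ a i (p (t 0 0)), (φ a i).linear.domRestrict V))
        (fun i => (0, φ b i (p (t 0 0)), (φ b i).linear.domRestrict V)) :
          Fin 3 ⊕ Fin 3 → ℝ × ℝ × Dual ℝ V) := fun h => by
      have := h.fintype_card_le_finrank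
      rw [finrank_prod, finrank_prod, Subspace.dual_finrank_eq, finrank_self, Fintype.card_sum,
        Fintype.card_fin] at this
      omega
    obtain ⟨g, h0, i, hi⟩ := Fintype.not_linearIndependent_iff.1 this
    refine ⟨fun i => g (.inl i), fun i => g (.inr i), ?_, fun h => hi ?_, fun j k => ?_⟩
    · simpa [Prod.fst_sum] using congrArg Prod.fst h0
    · rcases i with i | i
      exacts [congrFun h.1 i, congrFun h.2 i]
    · have u := congrArg (fun x => x.2.1) h0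
      have v := congrArg (fun x => x.2.2 ⟨_, mem j k⟩) h0
      simp only [Fintype.sum_sum_type, Sum.elim_inl, Sum.elim_inr, Fin.sum_univ_three,
        Prod.smul_mk, Prod.mk_add_mk, smul_eq_mul, Prod.snd_zero, Prod.fst_zero,
        LinearMap.add_apply, LinearMap.smul_apply, LinearMap.domRestrict_apply, af_sub,
        LinearMap.zero_apply] at u v ⊢
      linarith
  have key : ∀ α β, Rl_TwoC (fun j k i => φ a i (p (t j k))) (fun j k i => φ b i (p (t j k))) α β →
      (α 0 = 0 ∧ α 1 * α 2 ≤ 0 ∨ α 1 = 0 ∧ α 0 * α 2 ≤ 0 ∨ α 2 = 0 ∧ α 0 * α 1 ≤ 0) →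
      α = 0 ∧ β = 0 := fun α β h h' => two_TwoC
    (fun j k => by simpa [t1] using hz (t j k) a) (fun j k => by simpa [t2] using hz (t j k) b)
    (fun j k i e => ha _ i (by rwa [t1])) (fun j k i e => hb _ i (by rwa [t2])) h
    (mix_TwoC h').1 (mix_TwoC h').2
  obtain ⟨α, β, a1, a2, a3⟩ := rel 2
  obtain ⟨α', β', b1, b2, b3⟩ := rel 1
  have a4 : 0 < α 0 * α 1 := not_le.1 fun h => a2 (key α β a3 (Or.inr (Or.inr ⟨a1, h⟩)))
  have b4 : 0 < α' 0 * α' 2 := not_le.1 fun h => b2 (key α' β' b3 (Or.inr (Or.inl ⟨b1, h⟩)))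
  have c := key (fun i => α' 0 * α i - α 0 * α' i) (fun i => α' 0 * β i - α 0 * β' i)
    (fun j k => by
      have u := a3 j k
      have v := b3 j k
      simp only [Fin.sum_univ_three] at u v ⊢
      linear_combination α' 0 * u - α 0 * v)
    (Or.inl ⟨by ring, by
      rw [a1, b1]
      linarith [mul_pos a4 b4]⟩)
  have d := congrFun c.1 1
  simp only [b1, mul_zero, sub_zero, Pi.zero_apply] at d
  rcases mul_eq_zero.1 d with e | e
  · simp [e] at b4
  · simp [e] at a4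

end Pool.Agent.MP_a2955b_co.Gen

end

section
/-! The plane lemma. -/

set_option autoImplicit false

namespace Pool.Agent.MP_a2955b_co.Gen

open Set Module Pool.Agent.MP_a2955b_co.Up
open scoped Classical

/-- an affine function of the plane -/
def ev_Fan (c : ℝ × ℝ × ℝ) (p : ℝ × ℝ) : ℝ := c.1 + c.2.1 * p.1 + c.2.2 * p.2

/-- the slope of a point -/
noncomputable def th_Fan (p : ℝ × ℝ) : ℝ := p.2 / p.1

theorem th_mul_Fan {p : ℝ × ℝ} (h : 0 < p.1) : p.2 = th_Fan p * p.1 := by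
  unfold th_Fan
  field_simp

theorem seg_ev_Fan (c : ℝ × ℝ × ℝ) {p q z : ℝ × ℝ} (h : z ∈ segment ℝ p q) :
    ∃ l m : ℝ, 0 ≤ l ∧ 0 ≤ m ∧ l + m = 1 ∧ ev_Fan c z = l * ev_Fan c p + m * ev_Fan c q := by
  obtain ⟨l, m, hl, hm, e, rfl⟩ := h
  refine ⟨l, m, hl, hm, e, ?_⟩
  simp only [ev_Fan, Prod.fst_add, Prod.snd_add, Prod.smul_fst, Prod.smul_snd, smul_eq_mul]
  linear_combination (-c.1) * e

theorem seg_zero_Fan (c : ℝ × ℝ × ℝ) {p q z : ℝ × ℝ} (h : z ∈ segment ℝ p q)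
    (hp : ev_Fan c p = 0) (hq : ev_Fan c q = 0) : ev_Fan c z = 0 := by
  obtain ⟨l, m, -, -, -, e⟩ := seg_ev_Fan c h
  rw [e, hp, hq]
  ring

theorem seg_pos_Fan (c : ℝ × ℝ × ℝ) {p q z : ℝ × ℝ} (h : z ∈ segment ℝ p q)
    (hp : 0 < ev_Fan c p) (hq : 0 < ev_Fan c q) : 0 < ev_Fan c z := by
  obtain ⟨l, m, hl, hm, e1, e⟩ := seg_ev_Fan c h
  rw [e]
  rcases hl.eq_or_lt with h0 | h0
  · have : m = 1 := by linarith
    rw [← h0, this]
    linarith
  · have := mul_pos h0 hp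
    have := mul_nonneg hm hq.le
    linarith

/-- a segment takes every intermediate slope -/
theorem cross_Fan {p q : ℝ × ℝ} (hp : 0 < p.1) (hq : 0 < q.1) {t : ℝ} (h1 : th_Fan p ≤ t)
    (h2 : t ≤ th_Fan q) : ∃ z ∈ segment ℝ p q, 0 < z.1 ∧ th_Fan z = t := by
  rcases h1.eq_or_lt with h0 | h0
  · exact ⟨p, left_mem_segment ℝ p q, hp, h0⟩
  have ep := th_mul_Fan hp
  have eq := th_mul_Fan hq
  have ha : 0 < t * p.1 - p.2 := by
    rw [ep]
    nlinarith
  have hb : 0 ≤ q.2 - t * q.1 := by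
    rw [eq]
    nlinarith
  set α := t * p.1 - p.2 with hα
  set β := q.2 - t * q.1 with hβ
  have hs : 0 < α + β := by linarith
  have hz : 0 < β / (α + β) * p.1 + α / (α + β) * q.1 := by positivity
  refine ⟨(β / (α + β)) • p + (α / (α + β)) • q,
    ⟨β / (α + β), α / (α + β), by positivity, by positivity, by field_simp; ring, rfl⟩, ?_, ?_⟩
  · simpa using hz
  · unfold th_Fan
    simp only [Prod.fst_add, Prod.snd_add, Prod.smul_fst, Prod.smul_snd, smul_eq_mul]
    rw [div_eq_iff hz.ne']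
    have e1 : p.2 = t * p.1 - α := by rw [hα]; ring
    have e2 : q.2 = t * q.1 + β := by rw [hβ]; ring
    rw [e1, e2]
    field_simp
    ring

theorem cross'_Fan {p q : ℝ × ℝ} (hp : 0 < p.1) (hq : 0 < q.1) {t : ℝ} (h1 : t ≤ th_Fan p)
    (h2 : th_Fan q ≤ t) : ∃ z ∈ segment ℝ p q, 0 < z.1 ∧ th_Fan z = t := by
  rw [segment_symm]
  exact cross_Fan hq hp h2 h1

/-- a point on the positive side of a line, on the ray of a point of the line -/
theorem near_Fan (c : ℝ × ℝ × ℝ) {z z' : ℝ × ℝ} (hc : 0 < c.1) (h0 : ev_Fan c z = 0)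
    (h1 : 0 < ev_Fan c z') (hz : 0 < z.1) (hz' : 0 < z'.1) (e : th_Fan z' = th_Fan z) :
    z'.1 < z.1 ∧ z' ∈ segment ℝ (0 : ℝ × ℝ) z := by
  have e1 := th_mul_Fan hz
  have e2 := th_mul_Fan hz'
  rw [e] at e2
  unfold ev_Fan at h0 h1
  rw [e1] at h0
  rw [e2] at h1
  have hlt : z'.1 < z.1 := by
    by_contra hn
    have hn := not_lt.1 hn
    have k1 : (c.2.1 + c.2.2 * th_Fan z) * z.1 = -c.1 := by linarith
    have k2 : c.2.1 + c.2.2 * th_Fan z < 0 := by
      by_contra h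
      have := mul_nonneg (not_lt.1 h) hz.le
      linarith
    have := mul_le_mul_of_nonpos_left hn k2.le
    linarith
  refine ⟨hlt, 1 - z'.1 / z.1, z'.1 / z.1, ?_, by positivity, by ring, ?_⟩
  · have : z'.1 / z.1 ≤ 1 := (div_le_one hz).2 hlt.le
    linarith
  · ext
    · simp only [smul_zero, zero_add, Prod.smul_fst, smul_eq_mul]
      field_simp
    · simp only [smul_zero, zero_add, Prod.smul_snd, smul_eq_mul]
      rw [e2, e1]
      field_simp

/-- points of two different edges have different slopes -/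
theorem ne_Fan (c c' : ℝ × ℝ × ℝ) {z z' : ℝ × ℝ} (hc : 0 < c.1) (hc' : 0 < c'.1)
    (h0 : ev_Fan c z = 0) (h1 : 0 < ev_Fan c z') (h0' : ev_Fan c' z' = 0)
    (h1' : 0 < ev_Fan c' z) (hz : 0 < z.1) (hz' : 0 < z'.1) : th_Fan z' ≠ th_Fan z := by
  intro e
  have a := (near_Fan c hc h0 h1 hz hz' e).1
  have b := (near_Fan c' hc' h0' h1' hz' hz e.symm).1
  linarith

/-- the lemma in coordinates -/
theorem plane_Fan (f : Fin 6 → ℝ × ℝ × ℝ) (u y r : Fin 6 → ℝ × ℝ) (a : ℝ × ℝ × ℝ)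
    (Z H : Fin 6 → Set (ℝ × ℝ)) (u0 : u 0 = 0) (f0 : ∀ p, ev_Fan (f 0) p = p.1)
    (h1 : ∀ k, ev_Fan (f k) (u k) = 0 ∧ ev_Fan (f k) (y k) = 0)
    (h2 : ∀ k k', k' ≠ k → 0 < ev_Fan (f k') (u k) ∧ ∀ z ∈ Z k, 0 < ev_Fan (f k') z)
    (h3 : ∀ k, Convex ℝ (Z k) ∧ y k ∈ Z k ∧ r k ∈ Z k ∧ Convex ℝ (H k) ∧
      (∀ k', k' ≠ k → u k' ∈ H k) ∧ Disjoint (Z k) (H k))
    (h4 : ∀ k, ev_Fan a (r k) = 0) : ∀ p, ev_Fan a p = 0 := by
  have cpos : ∀ k, k ≠ 0 → 0 < (f k).1 := fun k hk => by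
    have := (h2 0 k hk).1
    simpa [u0, ev_Fan] using this
  have upos : ∀ k, k ≠ 0 → 0 < (u k).1 := fun k hk => f0 (u k) ▸ (h2 k 0 hk.symm).1
  have zpos : ∀ k, k ≠ 0 → ∀ z ∈ Z k, 0 < z.1 := fun k hk z hz =>
    f0 z ▸ (h2 k 0 hk.symm).2 z hz
  have ypos : ∀ k, k ≠ 0 → 0 < (y k).1 := fun k hk => zpos k hk _ (h3 k).2.1
  have rpos : ∀ k, k ≠ 0 → 0 < (r k).1 := fun k hk => zpos k hk _ (h3 k).2.2.1
  -- no point of the edge `k` has the slope of `y k'`
  have e1 : ∀ k k', k ≠ 0 → k' ≠ 0 → k' ≠ k → ∀ z ∈ segment ℝ (y k) (u k), 0 < z.1 →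
      th_Fan z ≠ th_Fan (y k') := fun k k' hk hk' hne z hz hp =>
    ne_Fan (f k') (f k) (cpos k' hk') (cpos k hk) (h1 k').2
      (seg_pos_Fan _ hz ((h2 k k' hne).2 _ (h3 k).2.1) (h2 k k' hne).1)
      (seg_zero_Fan _ hz (h1 k).2 (h1 k).1) ((h2 k' k hne.symm).2 _ (h3 k').2.1)
      (ypos k' hk') hp
  have e2 : ∀ k k', k ≠ 0 → k' ≠ 0 → th_Fan (y k) < th_Fan (y k') →
      th_Fan (u k) < th_Fan (y k') := by
    intro k k' hk hk' h
    by_contra hn
    obtain ⟨z, hz, hp, e⟩ := cross_Fan (ypos k hk) (upos k hk) h.le (not_lt.1 hn)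
    exact e1 k k' hk hk' (fun e => by rw [e] at h; exact lt_irrefl _ h) z hz hp e
  have e2' : ∀ k k', k ≠ 0 → k' ≠ 0 → th_Fan (y k') < th_Fan (y k) →
      th_Fan (y k') < th_Fan (u k) := by
    intro k k' hk hk' h
    by_contra hn
    obtain ⟨z, hz, hp, e⟩ := cross'_Fan (ypos k hk) (upos k hk) h.le (not_lt.1 hn)
    exact e1 k k' hk hk' (fun e => by rw [e] at h; exact lt_irrefl _ h) z hz hp e
  -- points positive for `f d` with the slope of `u d` lie in the hull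
  have e3 : ∀ c d, c ≠ 0 → d ≠ 0 → d ≠ c → ∀ z : ℝ × ℝ, 0 < z.1 → 0 < ev_Fan (f d) z →
      th_Fan z = th_Fan (u d) → z ∈ H c := by
    intro c d hc hd hne z hp hz e
    have := (near_Fan (f d) (cpos d hd) (h1 d).1 hz (upos d hd) hp e).2
    exact (h3 c).2.2.2.1.segment_subset (u0 ▸ (h3 c).2.2.2.2.1 0 hc.symm)
      ((h3 c).2.2.2.2.1 d hne) this
  have e4 : ∀ c d, c ≠ 0 → d ≠ 0 → d ≠ c → ∀ z ∈ segment ℝ (y c) (r c), 0 < z.1 →
      th_Fan z ≠ th_Fan (u d) := by
    intro c d hc hd hne z hz hp e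
    have hZ := (h3 c).1.segment_subset (h3 c).2.1 (h3 c).2.2.1 hz
    exact Set.disjoint_left.1 (h3 c).2.2.2.2.2 hZ
      (e3 c d hc hd hne z hp ((h2 c d hne).2 z hZ) e)
  have e5 : ∀ c d, c ≠ 0 → d ≠ 0 → d ≠ c → th_Fan (y c) < th_Fan (u d) →
      th_Fan (r c) < th_Fan (u d) := by
    intro c d hc hd hne h
    by_contra hn
    obtain ⟨z, hz, hp, e⟩ := cross_Fan (ypos c hc) (rpos c hc) h.le (not_lt.1 hn)
    exact e4 c d hc hd hne z hz hp e
  have e5' : ∀ c d, c ≠ 0 → d ≠ 0 → d ≠ c → th_Fan (u d) < th_Fan (y c) →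
      th_Fan (u d) < th_Fan (r c) := by
    intro c d hc hd hne h
    by_contra hn
    obtain ⟨z, hz, hp, e⟩ := cross'_Fan (ypos c hc) (rpos c hc) h.le (not_lt.1 hn)
    exact e4 c d hc hd hne z hz hp e
  -- sort the five slopes
  let g : Fin 5 → ℝ := fun i => th_Fan (y i.succ)
  have ginj : Function.Injective g := by
    intro i j e
    by_contra hne
    exact e1 i.succ j.succ (Fin.succ_ne_zero i) (Fin.succ_ne_zero j)
      (fun e => hne (Fin.succ_injective _ e).symm) _ (left_mem_segment ℝ _ _)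
      (ypos _ (Fin.succ_ne_zero i)) e
  have hm : StrictMono (g ∘ Tuple.sort g) :=
    (Tuple.monotone_sort g).strictMono_of_injective (ginj.comp (Tuple.sort g).injective)
  obtain ⟨n, n0, nlt⟩ : ∃ n : Fin 5 → Fin 6, (∀ i, n i ≠ 0) ∧
      ∀ i j, i < j → th_Fan (y (n i)) < th_Fan (y (n j)) :=
    ⟨fun i => (Tuple.sort g i).succ, fun i => Fin.succ_ne_zero _, fun i j h => hm h⟩
  have nne : ∀ i j, i < j → n i ≠ n j := fun i j h e => by
    have := nlt i j h
    rw [e] at this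
    exact lt_irrefl _ this
  have s1 : th_Fan (r (n 0)) < th_Fan (u (n 1)) :=
    e5 _ _ (n0 0) (n0 1) (nne 0 1 (by decide)).symm
      (e2' _ _ (n0 1) (n0 0) (nlt 0 1 (by decide)))
  have s2 : th_Fan (u (n 1)) < th_Fan (r (n 2)) :=
    e5' _ _ (n0 2) (n0 1) (nne 1 2 (by decide)) (e2 _ _ (n0 1) (n0 2) (nlt 1 2 (by decide)))
  have s3 : th_Fan (r (n 2)) < th_Fan (u (n 3)) :=
    e5 _ _ (n0 2) (n0 3) (nne 2 3 (by decide)).symm
      (e2' _ _ (n0 3) (n0 2) (nlt 2 3 (by decide)))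
  have s4 : th_Fan (u (n 3)) < th_Fan (r (n 4)) :=
    e5' _ _ (n0 4) (n0 3) (nne 3 4 (by decide)) (e2 _ _ (n0 3) (n0 4) (nlt 3 4 (by decide)))
  have rp : ∀ c d, d ≠ c → 0 < ev_Fan (f d) (r c) := fun c d h => (h2 c d h).2 _ (h3 c).2.2.1
  obtain ⟨w1, m1, p1, t1⟩ := cross_Fan (rpos _ (n0 0)) (rpos _ (n0 2)) s1.le s2.le
  obtain ⟨w2, m2, p2, t2⟩ := cross_Fan (rpos _ (n0 2)) (rpos _ (n0 4)) s3.le s4.le
  have q1 : w1 ∈ H (n 2) := e3 _ _ (n0 2) (n0 1) (nne 1 2 (by decide)) w1 p1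
    (seg_pos_Fan _ m1 (rp _ _ (nne 0 1 (by decide)).symm) (rp _ _ (nne 1 2 (by decide)))) t1
  have q2 : w2 ∈ H (n 2) := e3 _ _ (n0 2) (n0 3) (nne 2 3 (by decide)).symm w2 p2
    (seg_pos_Fan _ m2 (rp _ _ (nne 2 3 (by decide)).symm) (rp _ _ (nne 3 4 (by decide)))) t2
  obtain ⟨w, m, p, t⟩ := cross_Fan p1 p2 (t1 ▸ s2.le) (t2 ▸ s3.le)
  have q : w ∈ H (n 2) := (h3 _).2.2.2.1.segment_subset q1 q2 m
  have aw : ev_Fan a w = 0 := seg_zero_Fan a m (seg_zero_Fan a m1 (h4 _) (h4 _))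
    (seg_zero_Fan a m2 (h4 _) (h4 _))
  have a2 := h4 (n 2)
  have a0 := h4 (n 0)
  have ew := th_mul_Fan p
  have er := th_mul_Fan (rpos _ (n0 2))
  have er0 := th_mul_Fan (rpos _ (n0 0))
  rw [t] at ew
  unfold ev_Fan at aw a2 a0
  rw [ew] at aw
  rw [er] at a2
  rw [er0] at a0
  have hk : a.2.1 + a.2.2 * th_Fan (r (n 2)) = 0 := by
    by_contra hk
    have k1 : (a.2.1 + a.2.2 * th_Fan (r (n 2))) * (w.1 - (r (n 2)).1) = 0 := by linarith
    have k2 : w.1 = (r (n 2)).1 := by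
      have := (mul_eq_zero.1 k1).resolve_left hk
      linarith
    have k3 : w = r (n 2) := Prod.ext k2 (by rw [ew, k2, ← er])
    exact Set.disjoint_left.1 (h3 _).2.2.2.2.2 (h3 _).2.2.1 (k3 ▸ q)
  have b0 : a.1 = 0 := by linear_combination a2 - (r (n 2)).1 * hk
  have b1 : a.2.2 * (th_Fan (r (n 0)) - th_Fan (r (n 2))) * (r (n 0)).1 = 0 := by
    linear_combination a0 - b0 - (r (n 0)).1 * hk
  have b2 : a.2.2 = 0 := by
    rcases mul_eq_zero.1 b1 with h | h
    · exact (mul_eq_zero.1 h).resolve_right (by linarith)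
    · exact absurd h (rpos _ (n0 0)).ne'
  have b3 : a.2.1 = 0 := by
    rw [b2] at hk
    linarith
  intro p
  simp [ev_Fan, b0, b2, b3]

theorem sFan : SFan := by
  intro E _ _ _ V hV f u y r a Z hm h1 h2 h3 h4 ⟨z0, hz0, hz1⟩
  have hy : 0 < f 0 (y 1) := (h2 1 0 (by decide)).2 _ (h3 1).2.1
  have lin : ∀ (g : Af E) (x : E), g.linear (x - u 0) = g x - g (u 0) := fun g x =>
    g.linearMap_vsub x (u 0)
  set w1 : E := (f 0 (y 1))⁻¹ • (y 1 - u 0) with hw1
  have w1V : w1 ∈ V := V.smul_mem _ (hm 1).2.1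
  have fw1 : (f 0).linear w1 = 1 := by
    rw [hw1, map_smul, lin, (h1 0).1, sub_zero, smul_eq_mul, inv_mul_cancel₀ hy.ne']
  have hlt : V ⊓ LinearMap.ker (f 0).linear < V := by
    refine lt_of_le_of_ne inf_le_left fun e => ?_
    have : w1 ∈ V ⊓ LinearMap.ker (f 0).linear := by rw [e]; exact w1V
    have := LinearMap.mem_ker.1 this.2
    rw [fw1] at this
    exact one_ne_zero this
  have hr : finrank ℝ ↥(V ⊓ LinearMap.ker (f 0).linear) ≤ 1 := by
    have := Submodule.finrank_lt_finrank_of_lt hlt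
    omega
  obtain ⟨w2, hw2⟩ := finrank_le_one_iff.1 hr
  have fw2 : (f 0).linear w2 = 0 := LinearMap.mem_ker.1 w2.2.2
  let L : (ℝ × ℝ) →ₗ[ℝ] E := (LinearMap.fst ℝ ℝ ℝ).smulRight w1 +
    (LinearMap.snd ℝ ℝ ℝ).smulRight (w2 : E)
  let Φ : (ℝ × ℝ) →ᵃ[ℝ] E := L.toAffineMap + AffineMap.const ℝ (ℝ × ℝ) (u 0)
  have hΦ : ∀ p : ℝ × ℝ, Φ p = p.1 • w1 + p.2 • (w2 : E) + u 0 := fun p => by simp [Φ, L]
  have hev : ∀ (g : Af E) (p : ℝ × ℝ),
      ev_Fan (g (u 0), g.linear w1, g.linear w2) p = g (Φ p) := by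
    intro g p
    have e := lin g (Φ p)
    have e' : g.linear (Φ p - u 0) = p.1 * g.linear w1 + p.2 * g.linear w2 := by
      rw [hΦ, add_sub_cancel_right, map_add, g.linear.map_smul p.1 w1,
        g.linear.map_smul p.2 (w2 : E), smul_eq_mul, smul_eq_mul]
    show g (u 0) + g.linear w1 * p.1 + g.linear w2 * p.2 = _
    linarith
  have hsur : ∀ x, x - u 0 ∈ V → ∃ p, Φ p = x := by
    intro x hx
    have hk : x - u 0 - (f 0).linear (x - u 0) • w1 ∈ V ⊓ LinearMap.ker (f 0).linear := by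
      refine ⟨V.sub_mem hx (V.smul_mem _ w1V), ?_⟩
      rw [SetLike.mem_coe, LinearMap.mem_ker, map_sub, map_smul, fw1]
      simp
    obtain ⟨c, hc⟩ := hw2 ⟨_, hk⟩
    have hc' : c • (w2 : E) = x - u 0 - (f 0).linear (x - u 0) • w1 :=
      congrArg Subtype.val hc
    refine ⟨((f 0).linear (x - u 0), c), ?_⟩
    rw [hΦ, hc']
    abel
  choose U hU using fun k => hsur (u k) (hm k).1
  choose Y hY using fun k => hsur (y k) (hm k).2.1
  choose R hR using fun k => hsur (r k) (hm k).2.2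
  obtain ⟨p0, hp0⟩ := hsur z0 hz0
  let U' : Fin 6 → ℝ × ℝ := fun k => if k = 0 then 0 else U k
  have hU' : ∀ k, Φ (U' k) = u k := by
    intro k
    by_cases hk : k = 0
    · subst hk
      simp [U', hΦ]
    · simp [U', hk, hU]
  have key := plane_Fan (fun k => (f k (u 0), (f k).linear w1, (f k).linear w2)) U' Y R
    (a (u 0), a.linear w1, a.linear w2) (fun k => Φ ⁻¹' Z k)
    (fun k => Φ ⁻¹' convexHull ℝ {x | ∃ k', k' ≠ k ∧ x = u k'}) (by simp [U'])
    (fun p => by simp [ev_Fan, (h1 0).1, fw1, fw2])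
    (fun k => by rw [hev, hev, hU', hY]; exact h1 k)
    (fun k k' h => ⟨by rw [hev, hU']; exact (h2 k k' h).1,
      fun z hz => by rw [hev]; exact (h2 k k' h).2 _ hz⟩)
    (fun k => ⟨(h3 k).1.affine_preimage Φ, by rw [mem_preimage, hY]; exact (h3 k).2.1,
      by rw [mem_preimage, hR]; exact (h3 k).2.2.1,
      (convex_convexHull ℝ _).affine_preimage Φ,
      fun k' h => by rw [mem_preimage, hU']; exact subset_convexHull ℝ _ ⟨k', h, rfl⟩,
      (h3 k).2.2.2.preimage Φ⟩)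
    (fun k => by rw [hev, hR]; exact h4 k) p0
  rw [hev, hp0] at key
  exact hz1 key

end Pool.Agent.MP_a2955b_co.Gen

end

section
/-! One family in convex position. -/

set_option autoImplicit false

namespace Pool.Agent.MP_a2955b_co.Gen

open Set Module Pool.Agent.MP_a2955b_co.Up
open scoped Classical

section

variable {E : Type} [NormedAddCommGroup E] [NormedSpace ℝ E]

def out_OneC {D N : ℕ} (lo hi : Fin N) (ε : Fin D → Bool) : Fin D → Fin N :=
  fun m => if ε m = true then hi else lo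

noncomputable def TT_OneC {D N : ℕ} (p : (Fin D → Fin N) → E) (κ : Fin D) (K : Fin 6 → Fin N)
    (lo hi : Fin N) (k : Fin 6) : Finset E :=
  ((Finset.univ : Finset ((Fin D → Bool) × Fin 6)).filter (fun x => x.2 ≠ k)).image
    (fun x => p (Function.update (out_OneC lo hi x.1) κ (K x.2)))

theorem enum_OneC (G : Finset (Af E)) (c : ℕ) (h : G.card ≤ c) :
    ∃ en : Fin c → Af E, ∀ g ∈ G, ∃ i, en i = g := by
  refine ⟨fun i => G.toList.getD i 0, fun g hg => ?_⟩
  obtain ⟨i, hi, e⟩ := List.mem_iff_getElem.1 (Finset.mem_toList.2 hg)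
  refine ⟨⟨i, lt_of_lt_of_le (by simpa using hi) h⟩, ?_⟩
  simp only [List.getD_eq_getElem _ _ hi, e]

theorem sign_mul_OneC {x y z : ℝ} (h : SignType.sign x = SignType.sign y) (h' : 0 < x * z) :
    0 < y * z := by
  rcases lt_trichotomy x 0 with a | a | a
  · have : y < 0 := sign_eq_neg_one_iff.1 (h ▸ sign_neg a)
    exact mul_pos_of_neg_of_neg this (by nlinarith)
  · simp [a] at h'
  · have : 0 < y := sign_eq_one_iff.1 (h ▸ sign_pos a)
    exact mul_pos this (by nlinarith)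

theorem sign_eq_OneC {x z : ℝ} (h : 0 < x * z) : SignType.sign z = SignType.sign x := by
  rcases mul_pos_iff.1 h with ⟨a, b⟩ | ⟨a, b⟩
  · rw [sign_pos a, sign_pos b]
  · rw [sign_neg a, sign_neg b]

theorem sep_OneC [FiniteDimensional ℝ E] {A B : Set E} (hA : Convex ℝ A) (hB : Convex ℝ B)
    (hd : Disjoint A B) (qa qb : Fin 6 → E) (ha : ∀ k, qa k ∈ A) (hb : ∀ k, qb k ∈ B) :
    ∃ g : Af E, ∀ k, g (qa k) < 0 ∧ 0 < g (qb k) := by
  have sa : convexHull ℝ (range qa) ⊆ A := convexHull_min (range_subset_iff.2 ha) hA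
  have sb : convexHull ℝ (range qb) ⊆ B := convexHull_min (range_subset_iff.2 hb) hB
  obtain ⟨f, u, w, h1, h2, h3⟩ := geometric_hahn_banach_compact_closed (convex_convexHull ℝ _)
    ((finite_range qa).isCompact_convexHull ℝ) (convex_convexHull ℝ _)
    ((finite_range qb).isCompact_convexHull ℝ).isClosed (hd.mono sa sb)
  refine ⟨(f : E →ₗ[ℝ] ℝ).toAffineMap - AffineMap.const ℝ E u, fun k => ?_⟩
  have a := h1 _ (subset_convexHull ℝ _ (mem_range_self k))
  have b := h3 _ (subset_convexHull ℝ _ (mem_range_self k))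
  constructor
  · show f (qa k) - u < 0
    linarith
  · show 0 < f (qb k) - u
    linarith

theorem cross_OneC (g : Af E) {x y : E} (hx : g x < 0) (hy : 0 < g y) :
    ∃ r, g r = 0 ∧ ∀ S : Set E, Convex ℝ S → x ∈ S → y ∈ S → r ∈ S := by
  have hd : 0 < g y - g x := by linarith
  have hs : g y / (g y - g x) + -g x / (g y - g x) = 1 := by field_simp; ring
  refine ⟨(g y / (g y - g x)) • x + (-g x / (g y - g x)) • y, ?_, fun S hS a b =>
    hS a b (div_nonneg hy.le hd.le) (div_nonneg (by linarith) hd.le) hs⟩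
  rw [af_combo g x y _ _ hs]
  field_simp
  ring

theorem core_OneC (h2 : SOrth) (h3 : SFan) [FiniteDimensional ℝ E] {D N : ℕ}
    (hE : finrank ℝ E = D + 1) {Hc : Finset E → Finset (Af E)} (hH : HcOK Hc)
    {φ : Fin D → Fin N → Af E} {R : Fin D → Fin N → Set E} {p : (Fin D → Fin N) → E}
    {v y : (Fin D → Fin N) → Fin D → E} (hB : Bx Hc φ R p v y) {κ a b : Fin D} (ha : a ≠ κ)
    (hb : b ≠ κ) (hab : a ≠ b) (hC : CT φ p κ) (hM : ∀ m, m ≠ κ → MT φ p m)
    (K : Fin 6 → Fin N) (hK : Function.Injective K) (lo hi : Fin N) (c : Fin D → Fin 3 → Fin N)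
    (hc : ∀ m, StrictMono (c m)) (hlo : ∀ m i, lo < c m i) (hhi : ∀ m i, c m i < hi)
    (hcol : ∀ (α : Fin D → Fin 3) k, ∀ g ∈ Hc (TT_OneC p κ K lo hi k),
      SignType.sign (g (p (Function.update (fun m => c m (α m)) κ (K k)))) =
        SignType.sign (g (p (Function.update (fun m => c m 1) κ (K k))))) : False := by
  obtain ⟨J, hJ⟩ : ∃ J : (Fin D → Fin 3) → Fin 6 → Fin D → Fin N,
      ∀ α k, J α k = Function.update (fun m => c m (α m)) κ (K k) := ⟨_, fun _ _ => rfl⟩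
  have Jκ : ∀ α k, J α k κ = K k := fun α k => by rw [hJ, Function.update_self]
  have Jm : ∀ α k m, m ≠ κ → J α k m = c m (α m) := fun α k m hm => by
    rw [hJ, Function.update_of_ne hm]
  obtain ⟨O, hO⟩ : ∃ O : (Fin D → Bool) → Fin 6 → Fin D → Fin N,
      ∀ ε k, O ε k = Function.update (out_OneC lo hi ε) κ (K k) := ⟨_, fun _ _ => rfl⟩
  have Oκ : ∀ ε k, O ε k κ = K k := fun ε k => by rw [hO, Function.update_self]
  have Om : ∀ ε k m, m ≠ κ → O ε k m = if ε m = true then hi else lo := fun ε k m hm => by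
    rw [hO, Function.update_of_ne hm, out_OneC]
  obtain ⟨T, hT⟩ : ∃ T, T = TT_OneC p κ K lo hi := ⟨_, rfl⟩
  have memT : ∀ k z, z ∈ T k ↔ ∃ ε k', k' ≠ k ∧ p (O ε k') = z := fun k z => by
    simp [hT, TT_OneC, hO]
  simp only [← hJ, ← hT] at hcol
  have hcol' : ∀ α k, ∀ g ∈ Hc (T k), SignType.sign (g (p (J α k))) =
      SignType.sign (g (p (J (fun _ => 1) k))) := fun α k g hg => by
    rw [hcol α k g hg, hJ]
  have src : ∀ α k, Src p v (J α k) (T k) := fun α k z hz => by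
    obtain ⟨ε, k', hk, rfl⟩ := (memT k z).1 hz
    refine ⟨O ε k', fun m => ?_, Or.inl rfl⟩
    by_cases hm : m = κ
    · rw [hm, Jκ, Oκ]
      exact fun e => hk (hK e).symm
    · rw [Jm α k m hm, Om ε k' m hm]
      split_ifs
      · exact (hhi _ _).ne
      · exact (hlo _ _).ne'
  obtain ⟨Pl, hPl⟩ : ∃ Pl : Set E, Pl = {z | ∀ m, m ≠ κ → φ m (c m 1) z = 0} := ⟨_, rfl⟩
  have cPl : Convex ℝ Pl := hPl ▸ (flat_zeros (fun m => φ m (c m 1)) (fun m => m ≠ κ)).convex
  have hu : ∀ k, ∃ z ∈ convexHull ℝ (range fun ε => p (O ε k)), z ∈ Pl := fun k => by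
    obtain ⟨z, z1, z2⟩ := h2 E (Fin D) (Finset.univ.erase κ) (fun m => φ m (c m 1))
      (fun ε => p (O ε k)) fun ε m hm => by
        have hm' := Finset.ne_of_mem_erase hm
        have h := hM m hm' (O ε k) (c m 1)
        rw [Om ε k m hm'] at h
        exact ⟨fun e => h.1 (by rw [if_pos e]; exact hhi _ _),
          fun e => h.2 (by rw [if_neg (by simp [e])]; exact hlo _ _)⟩
    exact ⟨z, z1, hPl ▸ fun m hm => z2 m (Finset.mem_erase.2 ⟨hm, Finset.mem_univ _⟩)⟩
  choose u u1 u2 using hu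
  obtain ⟨Z, hZ⟩ : ∃ Z : Fin 6 → Set E, ∀ k, Z k =
      {z | ∀ g ∈ Hc (T k), 0 < g (p (J (fun _ => 1) k)) * g z} ∩
        {z | ∀ k', k' ≠ k → 0 < φ κ (K k') z} := ⟨_, fun _ => rfl⟩
  have cZ : ∀ k, Convex ℝ (Z k) := fun k => by
    rw [hZ]
    refine Convex.inter ?_ ?_
    · intro x hx w hw s t s0 t0 st g hg
      have := convex_pos (g (p (J (fun _ => 1) k)) • g) (hx g hg) (hw g hg) s0 t0 st
      exact this
    · intro x hx w hw s t s0 t0 st k' hk
      exact convex_pos _ (hx k' hk) (hw k' hk) s0 t0 st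
  have pκ : ∀ (j : Fin D → Fin N) k k', j κ = K k → k' ≠ k → 0 < φ κ (K k') (p j) :=
    fun j k k' e hk => hC j _ (by rw [e]; exact fun e' => hk (hK e'))
  have yZ : ∀ α k m, y (J α k) m ∈ Z k := fun α k m => by
    rw [hZ]
    refine ⟨fun g hg => sign_mul_OneC (hcol' α k g hg) (hB.hull _ _ (src α k) g hg m),
      fun k' hk => ?_⟩
    exact (pos_iff_pos_of_mul_pos (hB.ys (J α k) κ (K k')
      (by rw [Jκ]; exact fun e => hk (hK e)) m)).1 (pκ _ k k' (Jκ α k) hk)
  have hq : ∀ e, e ≠ κ → ∀ k, ∃ z ∈ R e (c e 1), z ∈ Z k ∧ z ∈ Pl := fun e he k => by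
    obtain ⟨α, hα⟩ : ∃ α : (Fin D → Bool) → Fin D → Fin 3,
        ∀ ε m, α ε m = if m = e then 1 else if ε m = true then 2 else 0 := ⟨_, fun _ _ => rfl⟩
    obtain ⟨z, z1, z2⟩ := h2 E (Fin D) ((Finset.univ.erase κ).erase e) (fun m => φ m (c m 1))
      (fun ε => y (J (α ε) k) e) fun ε m hm => by
        have m1 := Finset.ne_of_mem_erase hm
        have m2 := Finset.ne_of_mem_erase (Finset.mem_of_mem_erase hm)
        have h := hM m m2 (J (α ε) k) (c m 1)
        have h' := hB.ys (J (α ε) k) m (c m 1)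
        rw [Jm _ k m m2, hα, if_neg m1] at h h'
        constructor
        · intro t
          rw [if_pos t] at h h'
          have l : c m 1 < c m 2 := hc m (by decide)
          exact (pos_iff_pos_of_mul_pos (h' l.ne e)).1 (h.1 l)
        · intro t
          rw [if_neg (by simp [t])] at h h'
          have l : c m 0 < c m 1 := hc m (by decide)
          exact (neg_iff_neg_of_mul_pos (h' l.ne' e)).1 (h.2 l)
    have zR : z ∈ R e (c e 1) := convexHull_min (range_subset_iff.2 fun ε => by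
      have := hB.yR (J (α ε) k) e
      rwa [Jm _ k e he, hα, if_pos rfl] at this) (hB.conv _ _) z1
    refine ⟨z, zR, convexHull_min (range_subset_iff.2 fun ε => yZ _ k e) (cZ k) z1,
      hPl ▸ fun m hm => ?_⟩
    by_cases me : m = e
    · rw [me]
      exact hB.on _ _ z zR
    · exact z2 m (Finset.mem_erase.2 ⟨me, Finset.mem_erase.2 ⟨hm, Finset.mem_univ _⟩⟩)
  choose qa a1 a2 a3 using hq a ha
  choose qb b1 b2 b3 using hq b hb
  obtain ⟨g0, hg0⟩ := sep_OneC (hB.conv _ _) (hB.conv _ _) (hB.disj a b _ _ hab) qa qb a1 b1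
  choose r r1 r2 using fun k => cross_OneC g0 (hg0 k).1 (hg0 k).2
  have hind : LinearIndependent ℝ (fun m : {m : Fin D // m ≠ κ} => (φ m (c m 1)).linear) := by
    have := (hB.ind (J (fun _ => 1) 0)).comp (Subtype.val : {m : Fin D // m ≠ κ} → Fin D)
      Subtype.val_injective
    convert this using 2 with m
    simp only [Function.comp, Jm _ _ _ m.2]
  have hV := finrank_ker_add _ hind
  have hcard : Fintype.card {m : Fin D // m ≠ κ} = D - 1 := by simp
  have hD := κ.pos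
  have inV : ∀ z ∈ Pl, z - u 0 ∈ (⨅ m : {m : Fin D // m ≠ κ},
      LinearMap.ker (φ m (c m 1)).linear : Submodule ℝ E) := fun z hz => by
    have h0 := u2 0
    rw [hPl] at hz h0
    refine (Submodule.mem_iInf _).2 fun m => ?_
    rw [LinearMap.mem_ker, af_sub, hz m m.2, h0 m m.2, sub_self]
  have yPl : ∀ k, p (J (fun _ => 1) k) ∈ Pl := fun k => hPl ▸ fun m hm => by
    have := hB.zero (J (fun _ => 1) k) m
    rwa [Jm _ k m hm] at this
  have yf : ∀ k, φ κ (K k) (p (J (fun _ => 1) k)) = 0 := fun k => by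
    have := hB.zero (J (fun _ => 1) k) κ
    rwa [Jκ] at this
  refine h3 E _ (by omega) (fun k => φ κ (K k)) u (fun k => p (J (fun _ => 1) k)) r g0 Z
    (fun k => ⟨inV _ (u2 k), inV _ (yPl k), inV _ (r2 k Pl cPl (a3 k) (b3 k))⟩)
    (fun k => ⟨?_, yf k⟩) (fun k k' hk => ⟨?_, fun z hz => ?_⟩)
    (fun k => ⟨cZ k, ?_, r2 k _ (cZ k) (a2 k) (b2 k), ?_⟩) r1
    ⟨qa 0, inV _ (a3 0), (hg0 0).1.ne⟩
  · refine convexHull_min (range_subset_iff.2 fun ε => ?_) (convex_zero (φ κ (K k))) (u1 k)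
    have := hB.zero (O ε k) κ
    rwa [Oκ] at this
  · refine convexHull_min (range_subset_iff.2 fun ε => ?_) (convex_pos (φ κ (K k'))) (u1 k)
    exact pκ _ k k' (Oκ ε k) hk
  · rw [hZ] at hz
    exact hz.2 k' hk
  · rw [hZ]
    refine ⟨fun g hg => mul_self_pos.2 ?_, fun k' hk => pκ _ k k' (Jκ _ k) hk⟩
    exact left_ne_zero_of_mul (hB.hull _ _ (src _ k) g hg a).ne'
  · refine disjoint_left.2 fun z hz hz' => ?_
    rw [hZ] at hz
    have s1 : z ∈ convexHull ℝ (T k : Set E) := by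
      refine convexHull_min ?_ (convex_convexHull ℝ _) hz'
      rintro _ ⟨k', hk, rfl⟩
      exact convexHull_mono (range_subset_iff.2 fun ε =>
        Finset.mem_coe.2 ((memT k _).2 ⟨ε, k', hk, rfl⟩)) (u1 k')
    have s2 := (hH (T k)).2.2 z _ (fun g hg => sign_eq_OneC (hz.1 g hg)) s1
    have s3 : 0 < φ κ (K k) (p (J (fun _ => 1) k)) := by
      refine convexHull_min (fun w hw => ?_) (convex_pos (φ κ (K k))) s2
      obtain ⟨ε, k', hk, rfl⟩ := (memT k w).1 (Finset.mem_coe.1 hw)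
      exact pκ _ k' k (Oκ ε k') hk.symm
    exact s3.ne' (yf k)

end

theorem sOneC (h1 : SHom) (h2 : SOrth) (h3 : SFan) : SOneC := by
  intro D
  obtain ⟨L, hL⟩ := h1 D 3 (Fin 6 → Fin (2 ^ (2 ^ D * 6) * (D + 1 + 1)) → SignType)
  refine ⟨L + 8, fun E _ _ _ hE Hc hH φ R p v y hB κ a b ha hb hab hC hM => ?_⟩
  obtain ⟨K, hK⟩ : ∃ K : Fin 6 → Fin (L + 8), K = Fin.castLE (by omega) := ⟨_, rfl⟩
  obtain ⟨inn, hinn⟩ : ∃ inn : Fin L → Fin (L + 8), ∀ x, (inn x : ℕ) = x + 1 :=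
    ⟨fun x => ⟨x + 1, by omega⟩, fun _ => rfl⟩
  have hen : ∀ k, ∃ en : Fin (2 ^ (2 ^ D * 6) * (D + 1 + 1)) → Af E,
      ∀ g ∈ Hc (TT_OneC p κ K 0 (Fin.last _) k), ∃ i, en i = g := fun k => by
    refine enum_OneC _ _ ((hH _).1.trans ?_)
    rw [hE]
    refine Nat.mul_le_mul_right _ (Nat.pow_le_pow_right (by norm_num) ?_)
    refine Finset.card_image_le.trans ((Finset.card_filter_le _ _).trans (le_of_eq ?_))
    simp
  choose en hen using hen
  obtain ⟨s, s1, -, c0, s2⟩ := hL (fun _ _ _ => 0) fun j k i =>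
    SignType.sign (en k i (p (Function.update (fun m => inn (j m)) κ (K k))))
  refine core_OneC h2 h3 hE hH hB ha hb hab hC hM K (hK ▸ Fin.castLE_injective _) 0 (Fin.last _)
    (fun m i => inn (s m i)) (fun m i i' h => ?_) (fun m i => ?_) (fun m i => ?_)
    fun α k g hg => ?_
  · have := s1 m h
    rw [Fin.lt_def] at this ⊢
    rw [hinn, hinn]
    omega
  · rw [Fin.lt_def, hinn]
    simp
  · rw [Fin.lt_def, hinn, Fin.val_last]
    omega
  · obtain ⟨i, rfl⟩ := hen k g hg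
    exact congrFun (congrFun ((s2 α).trans (s2 fun _ => 1).symm) k) i

end Pool.Agent.MP_a2955b_co.Gen

end

section
/-! The box lemma when all families are monotone. -/

set_option autoImplicit false

namespace Pool.Agent.MP_a2955b_co.Gen

open Set Module Pool.Agent.MP_a2955b_co.Up
open scoped Classical

section allm

variable {E : Type} [NormedAddCommGroup E] [NormedSpace ℝ E] {D N : ℕ}
  {Hc : Finset E → Finset (Af E)} {φ : Fin D → Fin N → Af E} {R : Fin D → Fin N → Set E}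
  {p : (Fin D → Fin N) → E} {v y : (Fin D → Fin N) → Fin D → E}

theorem ypos_AllM (hB : Bx Hc φ R p v y) (hM : ∀ m, MT φ p m) (j : Fin D → Fin N) (m : Fin D)
    (k : Fin N) (h : k < j m) (m' : Fin D) : 0 < φ m k (y j m') :=
  (pos_iff_pos_of_mul_pos (hB.ys j m k h.ne m')).1 ((hM m j k).1 h)

theorem yneg_AllM (hB : Bx Hc φ R p v y) (hM : ∀ m, MT φ p m) (j : Fin D → Fin N) (m : Fin D)
    (k : Fin N) (h : j m < k) (m' : Fin D) : φ m k (y j m') < 0 :=
  (neg_iff_neg_of_mul_pos (hB.ys j m k h.ne' m')).1 ((hM m j k).2 h)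

theorem vpos_AllM (hB : Bx Hc φ R p v y) (hM : ∀ m, MT φ p m) (j : Fin D → Fin N) (m : Fin D)
    (k : Fin N) (h : k < j m) (m' : Fin D) : 0 < φ m k (v j m') :=
  (pos_iff_pos_of_mul_pos (hB.vs j m k h.ne m')).1 ((hM m j k).1 h)

theorem vneg_AllM (hB : Bx Hc φ R p v y) (hM : ∀ m, MT φ p m) (j : Fin D → Fin N) (m : Fin D)
    (k : Fin N) (h : j m < k) (m' : Fin D) : φ m k (v j m') < 0 :=
  (neg_iff_neg_of_mul_pos (hB.vs j m k h.ne' m')).1 ((hM m j k).2 h)

/-- The line of a tuple leaves the hull of the corner points through a hull cut. -/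
theorem exit_AllM [FiniteDimensional ℝ E] (hO : SOrth) (hL : SLin) (hX : SExit)
    (hE : finrank ℝ E = D + 1) (hH : HcOK Hc) (hB : Bx Hc φ R p v y) (hM : ∀ m, MT φ p m)
    (b : Fin D) (b0 : Fin N) (co : (Fin D → Bool) → Fin D → Fin N) (hco : ∀ ε, co ε b = b0)
    (J : Fin D → Fin N) (hJb : J b = b0)
    (hJ : ∀ ε m, m ≠ b → (ε m = true → J m < co ε m) ∧ (ε m = false → co ε m < J m)) :
    ∃ g ∈ Hc (Finset.univ.image (fun ε => v (co ε) b)), ∃ e w : E, e ∈ R b b0 ∧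
      (∀ m, φ m (J m) e = 0) ∧ g e = 0 ∧ (∀ m, (φ m (J m)).linear w = 0) ∧ g.linear w ≠ 0 := by
  obtain ⟨z, hz, hz0⟩ := hO E (Fin D) (Finset.univ.erase b) (fun m => φ m (J m))
    (fun ε => v (co ε) b) (by
      intro ε m hm
      have hmb : m ≠ b := Finset.ne_of_mem_erase hm
      exact ⟨fun h => vpos_AllM hB hM _ m _ ((hJ ε m hmb).1 h) b,
        fun h => vneg_AllM hB hM _ m _ ((hJ ε m hmb).2 h) b⟩)
  have hT : ((Finset.univ.image (fun ε => v (co ε) b) : Finset E) : Set E) =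
      range (fun ε => v (co ε) b) := by
    rw [Finset.coe_image, Finset.coe_univ, image_univ]
  have hsub : convexHull ℝ (range (fun ε => v (co ε) b)) ⊆ R b b0 := by
    apply convexHull_min _ (hB.conv b b0)
    rintro _ ⟨ε, rfl⟩
    have := hB.vR (co ε) b
    rwa [hco] at this
  obtain ⟨x, w, hw, -, hw0, -⟩ := hL E D hE (fun m => φ m (J m)) (hB.ind J)
  obtain ⟨t, g, hg, he, hge, hgw⟩ := hX E Hc hH (Finset.univ.image (fun ε => v (co ε) b)) z w
    (by rw [hT]; exact hz) hw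
  rw [hT] at he
  refine ⟨g, hg, z + t • w, w, hsub he, fun m => ?_, hge, hw0, hgw⟩
  by_cases hmb : m = b
  · subst hmb
    rw [hJb]
    exact hB.on _ _ _ (hsub he)
  · rw [af_add, map_smul, hw0 m, hz0 m (Finset.mem_erase.2 ⟨hmb, Finset.mem_univ _⟩)]
    simp

/-- A point of a plate on the line of a tuple. -/
theorem pt_AllM (hO : SOrth) (hB : Bx Hc φ R p v y) (hM : ∀ m, MT φ p m) (a : Fin D)
    (J dn up : Fin D → Fin N) (h1 : ∀ m, dn m < J m ∧ J m < up m) (S : Set E) (hS : Convex ℝ S)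
    (hy : ∀ j : Fin D → Fin N, (∀ m, dn m ≤ j m ∧ j m ≤ up m) → y j a ∈ S) :
    ∃ u ∈ R a (J a), u ∈ S ∧ ∀ m, φ m (J m) u = 0 := by
  let nb : (Fin D → Bool) → Fin D → Fin N := fun ε m =>
    if m = a then J m else if ε m = true then up m else dn m
  have hnb : ∀ ε m, dn m ≤ nb ε m ∧ nb ε m ≤ up m := by
    intro ε m
    have := h1 m
    simp only [nb]
    split_ifs
    · exact ⟨this.1.le, this.2.le⟩
    · exact ⟨(this.1.trans this.2).le, le_rfl⟩
    · exact ⟨le_rfl, (this.1.trans this.2).le⟩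
  obtain ⟨z, hz, hz0⟩ := hO E (Fin D) (Finset.univ.erase a) (fun m => φ m (J m))
    (fun ε => y (nb ε) a) (by
      intro ε m hm
      have hma : m ≠ a := Finset.ne_of_mem_erase hm
      refine ⟨fun h => ypos_AllM hB hM _ m _ ?_ a, fun h => yneg_AllM hB hM _ m _ ?_ a⟩
      · simp only [nb, if_neg hma, h, if_true]; exact (h1 m).2
      · simp only [nb, if_neg hma, h]; exact (h1 m).1)
  have hsub : convexHull ℝ (range (fun ε => y (nb ε) a)) ⊆ R a (J a) ∩ S := by
    apply convexHull_min _ ((hB.conv a (J a)).inter hS)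
    rintro _ ⟨ε, rfl⟩
    refine ⟨?_, hy _ (hnb ε)⟩
    have := hB.yR (nb ε) a
    simpa only [nb, if_true] using this
  refine ⟨z, (hsub hz).1, (hsub hz).2, fun m => ?_⟩
  by_cases hma : m = a
  · subst hma
    exact hB.on _ _ _ (hsub hz).1
  · exact hz0 m (Finset.mem_erase.2 ⟨hma, Finset.mem_univ _⟩)

/-- The cube lemma: a common zero with inner signs lies in the hull of the exit points. -/
theorem cube_AllM [FiniteDimensional ℝ E] (hS : SliceStmt) (hE : finrank ℝ E = D + 1)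
    (a b : Fin D) (hab : a ≠ b) (ψ : Fin D → Af E)
    (hψ : LinearIndependent ℝ (fun m => (ψ m).linear)) (g : Af E) (w : E)
    (hw : ∀ m, (ψ m).linear w = 0) (hgw : g.linear w ≠ 0) (lo hi : Fin D → Af E)
    (e : (Fin D → Bool) → E) (he : ∀ ε, ψ a (e ε) = 0 ∧ ψ b (e ε) = 0 ∧ g (e ε) = 0)
    (h0 : ∀ m, m ≠ a → m ≠ b → ∀ ε, ε m = false → lo m (e ε) = 0 ∧ hi m (e ε) < 0)
    (h1 : ∀ m, m ≠ a → m ≠ b → ∀ ε, ε m = true → 0 < lo m (e ε) ∧ hi m (e ε) = 0)
    (x : E) (hx : ψ a x = 0 ∧ ψ b x = 0 ∧ g x = 0)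
    (hx' : ∀ m, m ≠ a → m ≠ b → 0 < lo m x ∧ hi m x < 0) (K : Set E) (hK : Convex ℝ K)
    (heK : ∀ ε, e ε ∈ K) : x ∈ K := by
  let f : Fin 2 → Fin D := ![a, b]
  have hf : Function.Injective f := by
    intro i j hij
    fin_cases i <;> fin_cases j <;> simp_all [f]
  let V1 : Submodule ℝ E := ⨅ i, LinearMap.ker ((ψ (f i)).linear)
  have hV1 : finrank ℝ V1 + 2 = D + 1 := by
    have := finrank_ker_add (fun i => (ψ (f i)).linear) (hψ.comp f hf)
    rw [Fintype.card_fin, hE] at this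
    exact this
  let V : Submodule ℝ E := V1 ⊓ LinearMap.ker g.linear
  have hlt : V < V1 := by
    refine lt_of_le_of_ne inf_le_left fun h => hgw ?_
    have hw1 : w ∈ V1 := (Submodule.mem_iInf _).2 fun i => hw (f i)
    rw [← h] at hw1
    exact hw1.2
  have hV : finrank ℝ V < finrank ℝ V1 := Submodule.finrank_lt_finrank_of_lt hlt
  have hcard : ((Finset.univ.erase a).erase b).card + 2 = D := by
    rw [Finset.card_erase_of_mem (Finset.mem_erase.2 ⟨hab.symm, Finset.mem_univ _⟩),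
      Finset.card_erase_of_mem (Finset.mem_univ _), Finset.card_univ, Fintype.card_fin]
    have := a.2
    have := b.2
    have : a.1 ≠ b.1 := fun h => hab (Fin.ext h)
    omega
  have hmem : ∀ m ∈ (Finset.univ.erase a).erase b, m ≠ a ∧ m ≠ b := fun m hm =>
    ⟨Finset.ne_of_mem_erase (Finset.mem_of_mem_erase hm), Finset.ne_of_mem_erase hm⟩
  obtain ⟨V', w', hV', hw', hw''⟩ := hS E (Fin D) ((Finset.univ.erase a).erase b) lo hi x V 0
    (by omega) e (by
      intro ε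
      refine ⟨(Submodule.mem_iInf _).2 fun i => ?_, ?_⟩
      · fin_cases i
        · show (ψ a).linear (e ε - x) = 0
          rw [af_sub, (he ε).1, hx.1, sub_zero]
        · show (ψ b).linear (e ε - x) = 0
          rw [af_sub, (he ε).2.1, hx.2.1, sub_zero]
      · show g.linear (e ε - x) = 0
        rw [af_sub, (he ε).2.2, hx.2.2, sub_zero])
    (fun m hm => ⟨(hx' m (hmem m hm).1 (hmem m hm).2).1.le,
      (hx' m (hmem m hm).1 (hmem m hm).2).2.le⟩)
    (fun m hm => h0 m (hmem m hm).1 (hmem m hm).2)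
    (fun m hm => h1 m (hmem m hm).1 (hmem m hm).2)
  have hbot : V' = ⊥ := Submodule.finrank_eq_zero.1 (Nat.le_zero.1 hV')
  have h2 := hw' (fun _ => true)
  rw [hbot, Submodule.mem_bot, sub_eq_zero] at h2
  rw [← h2]
  refine convexHull_min ?_ hK (hw'' _)
  rintro _ ⟨ε', -, rfl⟩
  exact heK ε'

theorem seg_AllM (g : Af E) {u u' e : E} (he : e ∈ segment ℝ u u') (h0 : g e = 0)
    (h1 : g u ≠ 0) (h2 : g u' ≠ 0) : g u * g u' < 0 := by
  rcases lt_or_gt_of_ne h1 with a | a <;> rcases lt_or_gt_of_ne h2 with b | b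
  · exact absurd ((convex_neg g).segment_subset a b he) (by simp [h0])
  · exact mul_neg_of_neg_of_pos a b
  · exact mul_neg_of_pos_of_neg a b
  · exact absurd ((convex_pos g).segment_subset a b he) (by simp [h0])

theorem opp_AllM (g : Af E) {S S' : Set E} (hS : Convex ℝ S) (hS' : Convex ℝ S')
    (h : ∀ x ∈ S, g x ≠ 0) (h' : ∀ x ∈ S', g x ≠ 0) {u u' x x' : E} (hu : u ∈ S) (hu' : u' ∈ S')
    (hx : x ∈ S) (hx' : x' ∈ S') (huu : g u * g u' < 0) : g x * g x' < 0 := by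
  have e1 := sign_eq_of_convex hS g h hu hx
  have e2 := sign_eq_of_convex hS' g h' hu' hx'
  rw [← sign_eq_neg_one_iff, sign_mul, ← e1, ← e2, ← sign_mul, sign_eq_neg_one_iff]
  exact huu

/-- The core of the argument, with abstract positions. -/
theorem core_AllM [FiniteDimensional ℝ E] (hO : SOrth) (hS : SliceStmt) (hSl : SSlope)
    (hE : finrank ℝ E = D + 1) (hB : Bx Hc φ R p v y) (hM : ∀ m, MT φ p m)
    (a b c : Fin D) (hab : a ≠ b) (hcb : c ≠ b) (hac : a ≠ c) (hmid : MidT φ R a b c)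
    (b0 bp : Fin N) (bl : Fin 3 → Fin N) (hbl : ∀ s, bl s < b0) (hbi : Function.Injective bl)
    (hbp : b0 < bp) (mn dn up : Fin D → Fin 5 → Fin N) (hb : ∀ k, mn b k = b0)
    (h1 : ∀ m k, dn m k < mn m k ∧ mn m k < up m k)
    (h2 : ∀ m, m ≠ b → ∀ k k', k < k' → mn m k < dn m k' ∧ up m k < mn m k')
    (T : Finset E)
    (hT : ∀ j : Fin D → Fin N, j b ≠ b0 → (∀ m, m ≠ b → ∃ k, j m = mn m k) → Src p v j T)
    (g : Af E) (hg : g ∈ Hc T)
    (hex : ∀ j : Fin D → Fin 5, ∃ e w : E, e ∈ R b b0 ∧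
      (∀ m, φ m (mn m (j m)) e = 0) ∧ g e = 0 ∧ (∀ m, (φ m (mn m (j m))).linear w = 0) ∧
      g.linear w ≠ 0) : False := by
  choose e w heR he0 hge hw0 hgw using hex
  have hmono : ∀ m, m ≠ b → ∀ k k', k < k' → mn m k < mn m k' := fun m hm k k' h =>
    (h2 m hm k k' h).1.trans (h1 m k').1
  -- known signs
  let Sg : (Fin D → Fin 5) → Set E := fun j => {x | ∀ m, m ≠ b → ∀ k,
    (k < j m → 0 < φ m (mn m k) x) ∧ (j m < k → φ m (mn m k) x < 0)}
  have hSg : ∀ j, Convex ℝ (Sg j) := by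
    intro j x hx z hz α β hα hβ hs m hm k
    exact ⟨fun h => convex_pos _ ((hx m hm k).1 h) ((hz m hm k).1 h) hα hβ hs,
      fun h => convex_neg _ ((hx m hm k).2 h) ((hz m hm k).2 h) hα hβ hs⟩
  have hu : ∀ (a' : Fin D) (j : Fin D → Fin 5), ∃ u ∈ R a' (mn a' (j a')), u ∈ Sg j ∧
      ∀ m, φ m (mn m (j m)) u = 0 := by
    intro a' j
    refine pt_AllM hO hB hM a' (fun m => mn m (j m)) (fun m => dn m (j m)) (fun m => up m (j m))
      (fun m => h1 m (j m)) (Sg j) (hSg j) ?_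
    intro J hJ m hm k
    exact ⟨fun h => ypos_AllM hB hM _ m _ ((h2 m hm _ _ h).1.trans_le (hJ m).1) a',
      fun h => yneg_AllM hB hM _ m _ ((hJ m).2.trans_lt (h2 m hm _ _ h).2) a'⟩
  choose u huR huS hu0 using hu
  have heseg : ∀ j, e j ∈ segment ℝ (u a j) (u c j) := by
    intro j
    refine hmid (fun m => mn m (j m)) _ (huR a j) _ ?_ _ (huR c j) (hu0 a j) (he0 j) (hu0 c j)
    show e j ∈ R b (mn b (j b))
    rw [hb]
    exact heR j
  have heS : ∀ j, e j ∈ Sg j := fun j => (hSg j).segment_subset (huS a j) (huS c j) (heseg j)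
  -- inner parts of the plates
  let A : Fin D → Fin 5 → Set E := fun a' s => {x | x ∈ R a' (mn a' s) ∧
    ∀ m, m ≠ a' → m ≠ b → 0 < φ m (mn m 0) x ∧ φ m (mn m 4) x < 0}
  have hA : ∀ a' s, Convex ℝ (A a' s) := by
    intro a' s x hx z hz α β hα hβ hs
    exact ⟨hB.conv _ _ hx.1 hz.1 hα hβ hs, fun m h h' =>
      ⟨convex_pos _ (hx.2 m h h').1 (hz.2 m h h').1 hα hβ hs,
        convex_neg _ (hx.2 m h h').2 (hz.2 m h h').2 hα hβ hs⟩⟩
  have hnz : ∀ a', a' ≠ b → ∀ s, ∀ x ∈ A a' s ∩ {x | φ b b0 x = 0}, g x ≠ 0 := by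
    intro a' ha' s x hx hgx
    let jj : (Fin D → Bool) → Fin D → Fin 5 := fun ε m =>
      if m = a' then s else if ε m = true then 4 else 0
    have hja : ∀ ε, jj ε a' = s := fun ε => by simp only [jj, if_true]
    have hxb : x ∈ R b b0 := by
      refine cube_AllM hS hE a' b ha' (fun m => φ m (mn m (jj (fun _ => true) m)))
        (hB.ind _) g (w (jj fun _ => true)) (hw0 _) (hgw _) (fun m => φ m (mn m 0))
        (fun m => φ m (mn m 4)) (fun ε => e (jj ε)) ?_ ?_ ?_ x ?_ hx.1.2 _ (hB.conv b b0)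
        (fun ε => heR _)
      · intro ε
        refine ⟨?_, ?_, hge _⟩
        · have := he0 (jj ε) a'
          rw [hja] at this
          simpa only [hja] using this
        · have := he0 (jj ε) b
          rw [hb] at this
          simpa only [hb] using this
      · intro m hm hm' ε hε
        have hj : jj ε m = 0 := by simp [jj, hm, hε]
        refine ⟨?_, ((heS (jj ε)) m hm' 4).2 (by rw [hj]; decide)⟩
        have := he0 (jj ε) m
        rwa [hj] at this
      · intro m hm hm' ε hε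
        have hj : jj ε m = 4 := by simp [jj, hm, hε]
        refine ⟨((heS (jj ε)) m hm' 0).1 (by rw [hj]; decide), ?_⟩
        have := he0 (jj ε) m
        rwa [hj] at this
      · refine ⟨?_, ?_, hgx⟩
        · simpa only [hja] using hB.on _ _ _ hx.1.1
        · have h5 : φ b b0 x = 0 := hx.2
          simpa only [hb] using h5
    exact disjoint_left.1 (hB.disj a' b _ _ ha') hx.1.1 hxb
  -- inner positions
  let r : Fin 3 → Fin 5 := ![1, 2, 3]
  have hr : ∀ s, 0 < r s ∧ r s < 4 := by decide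
  have hri : Function.Injective r := by decide
  let jp : Fin 3 → Fin 3 → Fin D → Fin 5 := fun s t m => if m = c then r t else r s
  have hjpa : ∀ s t, jp s t a = r s := fun s t => by simp only [jp, if_neg hac]
  have hjpc : ∀ s t, jp s t c = r t := fun s t => by simp only [jp, if_true]
  have hjp : ∀ s t m, 0 < jp s t m ∧ jp s t m < 4 := by
    intro s t m
    simp only [jp]
    split_ifs
    · exact hr t
    · exact hr s
  have huA : ∀ a' s t, u a' (jp s t) ∈ A a' (jp s t a') ∩ {x | φ b b0 x = 0} := by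
    intro a' s t
    refine ⟨⟨huR _ _, fun m _ hm => ⟨((huS a' _) m hm 0).1 (hjp s t m).1,
      ((huS a' _) m hm 4).2 (hjp s t m).2⟩⟩, ?_⟩
    have := hu0 a' (jp s t) b
    rwa [hb] at this
  have hopp : ∀ s t, ∀ x ∈ A a (r s) ∩ {x | φ b b0 x = 0},
      ∀ z ∈ A c (r t) ∩ {x | φ b b0 x = 0}, g x * g z < 0 := by
    intro s t x hx z hz
    have ha' := huA a s t
    have hc' := huA c s t
    rw [hjpa] at ha'
    rw [hjpc] at hc'
    exact opp_AllM g ((hA _ _).inter (convex_zero _)) ((hA _ _).inter (convex_zero _))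
      (hnz a hab _) (hnz c hcb _) ha' hc' hx hz
      (seg_AllM g (heseg _) (hge _) (hnz a hab _ _ ha') (hnz c hcb _ _ hc'))
  -- the tuples off the plate `b0`
  let τ : Fin N → Fin 3 → Fin 3 → Fin D → Fin N := fun β s t m =>
    if m = b then β else mn m (jp s t m)
  have hτb : ∀ β s t, τ β s t b = β := fun β s t => by simp only [τ, if_true]
  have hτ : ∀ β s t m, m ≠ b → τ β s t m = mn m (jp s t m) := fun β s t m hm => by
    simp only [τ, if_neg hm]
  have hyA : ∀ β s t a', a' ≠ b → y (τ β s t) a' ∈ A a' (jp s t a') := by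
    intro β s t a' ha'
    refine ⟨?_, fun m _ hm => ⟨ypos_AllM hB hM _ m _ ?_ a', yneg_AllM hB hM _ m _ ?_ a'⟩⟩
    · have := hB.yR (τ β s t) a'
      rwa [hτ β s t a' ha'] at this
    · rw [hτ β s t m hm]; exact hmono m hm _ _ (hjp s t m).1
    · rw [hτ β s t m hm]; exact hmono m hm _ _ (hjp s t m).2
  have hyAa : ∀ β s t, y (τ β s t) a ∈ A a (r s) := fun β s t => by
    have := hyA β s t a hab
    rwa [hjpa] at this
  have hyAc : ∀ β s t, y (τ β s t) c ∈ A c (r t) := fun β s t => by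
    have := hyA β s t c hcb
    rwa [hjpc] at this
  have hlt : ∀ s, τ (bl s) s s b < b0 := fun s => by rw [hτb]; exact hbl s
  have hgt : ∀ s t, b0 < τ bp s t b := fun s t => by rw [hτb]; exact hbp
  have hpen : ∀ β s t o, β ≠ b0 → β ≠ bl o → s ≠ o → t ≠ o → ∀ m',
      0 < pen (φ b b0) g (p (τ (bl o) o o)) (p (τ β s t)) *
        pen (φ b b0) g (p (τ (bl o) o o)) (y (τ β s t) m') := by
    intro β s t o hβ hβ' hs ht
    refine hB.pencil (τ β s t) T (hT _ (by rw [hτb]; exact hβ)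
      (fun m hm => ⟨_, hτ β s t m hm⟩)) g hg b b0 (by rw [hτb]; exact hβ.symm) _ ?_ ?_
    · intro m
      by_cases hm : m = b
      · subst hm
        rw [hτb, hτb]
        exact hβ'
      · rw [hτ _ _ _ m hm, hτ _ _ _ m hm]
        have hne : jp s t m ≠ jp o o m := by
          simp only [jp]
          split_ifs
          · exact fun h => ht (hri h)
          · exact fun h => hs (hri h)
        rcases lt_or_gt_of_ne hne with h | h
        · exact (hmono m hm _ _ h).ne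
        · exact (hmono m hm _ _ h).ne'
    · intro h0
      have h3 := pen_linear (φ b b0) g (p (τ (bl o) o o)) (w (jp o o))
      have h4 := hw0 (jp o o) b
      rw [hb] at h4
      rw [h0, h4, LinearMap.zero_apply, mul_zero, sub_zero] at h3
      exact mul_ne_zero ((hM b _ b0).2 (hlt o)).ne (hgw _) h3.symm
  have hbp' : ∀ o, bp ≠ bl o := fun o => ((hbl o).trans hbp).ne'
  have ha0 := huA a 0 0
  have hc0 := huA c 0 0
  rw [hjpa] at ha0
  rw [hjpc] at hc0
  rcases lt_or_gt_of_ne (hnz a hab _ _ ha0) with hneg | hpos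
  · have hC : ∀ t, ∀ z ∈ A c (r t), φ b b0 z = 0 → 0 < g z := fun t z hz hz0 =>
      (neg_iff_pos_of_mul_neg (hopp 0 t _ ha0 z ⟨hz, hz0⟩)).1 hneg
    have hA' : ∀ s, ∀ x ∈ A a (r s), φ b b0 x = 0 → g x < 0 := fun s x hx hx0 =>
      (neg_iff_pos_of_mul_neg (hopp s 0 x ⟨hx, hx0⟩ _ hc0)).2 (hC 0 _ hc0.1 hc0.2)
    refine hSl E (φ b b0) g (fun s => A a (r s)) (fun s => A c (r s))
      (fun s => p (τ (bl s) s s)) (fun s => y (τ (bl s) s s) a) (fun s => y (τ (bl s) s s) c)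
      (fun s t => p (τ bp s t)) (fun s t => y (τ bp s t) a) (fun s t => y (τ bp s t) c)
      (fun s => ⟨hA _ _, hA _ _⟩) hA' hC
      (fun s => ⟨(hM b _ b0).2 (hlt s), yneg_AllM hB hM _ b _ (hlt s) _,
        yneg_AllM hB hM _ b _ (hlt s) _, hyAa _ _ _, hyAc _ _ _⟩)
      (fun s t => ⟨ypos_AllM hB hM _ b _ (hgt s t) _, ypos_AllM hB hM _ b _ (hgt s t) _,
        hyAa _ _ _, hyAc _ _ _⟩)
      (fun s t hst => ⟨hpen _ s s t (hbl s).ne (fun h => hst (hbi h)) hst hst _,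
        hpen _ s s t (hbl s).ne (fun h => hst (hbi h)) hst hst _⟩)
      (fun s t o hs ht => ⟨hpen _ s t o hbp.ne' (hbp' o) hs ht _,
        hpen _ s t o hbp.ne' (hbp' o) hs ht _⟩)
  · have hC : ∀ t, ∀ z ∈ A c (r t), φ b b0 z = 0 → g z < 0 := fun t z hz hz0 =>
      (pos_iff_neg_of_mul_neg (hopp 0 t _ ha0 z ⟨hz, hz0⟩)).1 hpos
    have hA' : ∀ s, ∀ x ∈ A a (r s), φ b b0 x = 0 → 0 < g x := fun s x hx hx0 =>
      (pos_iff_neg_of_mul_neg (hopp s 0 x ⟨hx, hx0⟩ _ hc0)).2 (hC 0 _ hc0.1 hc0.2)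
    refine hSl E (φ b b0) g (fun s => A c (r s)) (fun s => A a (r s))
      (fun s => p (τ (bl s) s s)) (fun s => y (τ (bl s) s s) c) (fun s => y (τ (bl s) s s) a)
      (fun s t => p (τ bp t s)) (fun s t => y (τ bp t s) c) (fun s t => y (τ bp t s) a)
      (fun s => ⟨hA _ _, hA _ _⟩) hC hA'
      (fun s => ⟨(hM b _ b0).2 (hlt s), yneg_AllM hB hM _ b _ (hlt s) _,
        yneg_AllM hB hM _ b _ (hlt s) _, hyAc _ _ _, hyAa _ _ _⟩)
      (fun s t => ⟨ypos_AllM hB hM _ b _ (hgt t s) _, ypos_AllM hB hM _ b _ (hgt t s) _,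
        hyAc _ _ _, hyAa _ _ _⟩)
      (fun s t hst => ⟨hpen _ s s t (hbl s).ne (fun h => hst (hbi h)) hst hst _,
        hpen _ s s t (hbl s).ne (fun h => hst (hbi h)) hst hst _⟩)
      (fun s t o hs ht => ⟨hpen _ t s o hbp.ne' (hbp' o) ht hs _,
        hpen _ t s o hbp.ne' (hbp' o) ht hs _⟩)

end allm

/-- Positions given by natural numbers. -/
def ix_AllM (N n : ℕ) : Fin (N + 1) := ⟨min n N, by omega⟩

theorem ix_lt_AllM {N n n' : ℕ} (h : n < n') (h' : n' ≤ N) : ix_AllM N n < ix_AllM N n' := by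
  show min n N < min n' N
  omega

theorem sAllM (hH : SHom) (hO : SOrth) (hL : SLin) (hX : SExit) (hS : SliceStmt)
    (hSl : SSlope) : SAllM := by
  intro D
  obtain ⟨L, hL5⟩ := hH D 5 (Fin (2 ^ (2 ^ D) * (D + 2)))
  refine ⟨2 * L + 4 + 1, ?_⟩
  intro E _ _ _ hE Hc hHc φ R p v y hB a b c hab hcb hac hM hmid
  let ix := ix_AllM (2 * L + 4)
  let co : (Fin D → Bool) → Fin D → Fin (2 * L + 4 + 1) := fun ε m =>
    if m = b then ix 3 else if ε m = true then ix (2 * L + 4) else ix 0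
  let J : (Fin D → Fin L) → Fin D → Fin (2 * L + 4 + 1) := fun j m =>
    if m = b then ix 3 else ix (2 * (j m).1 + 2)
  let T : Finset E := Finset.univ.image (fun ε => v (co ε) b)
  have hTc : T.card ≤ 2 ^ D := Finset.card_image_le.trans (by simp)
  have hcard : Fintype.card (Hc T) ≤ Fintype.card (Fin (2 ^ (2 ^ D) * (D + 2))) := by
    rw [Fintype.card_coe, Fintype.card_fin]
    refine (hHc T).1.trans ?_
    rw [hE]
    exact Nat.mul_le_mul_right _ (Nat.pow_le_pow_right (by norm_num) hTc)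
  obtain ⟨emb⟩ := Function.Embedding.nonempty_of_card_le hcard
  have hex := fun j : Fin D → Fin L => exit_AllM hO hL hX hE hHc hB hM b (ix 3) co
    (fun ε => by simp only [co, if_true]) (J j) (by simp only [J, if_true]) (by
      intro ε m hm
      have := (j m).2
      refine ⟨fun h => ?_, fun h => ?_⟩
      · simp only [J, co, if_neg hm, h, if_true]
        exact ix_lt_AllM (by omega) le_rfl
      · simp only [J, co, if_neg hm, h]
        exact ix_lt_AllM (by omega) (by omega))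
  choose gg hgg hex using hex
  obtain ⟨s, hs, -, c0, hc0⟩ := hL5 (fun _ _ _ => 0) (fun j => emb ⟨gg j, hgg j⟩)
  have hgc : ∀ j : Fin D → Fin 5, gg (fun m => s m (j m)) = gg (fun m => s m 0) := by
    intro j
    have := emb.injective ((hc0 j).trans (hc0 (fun _ => 0)).symm)
    exact congrArg Subtype.val this
  have hsl : ∀ m k, (s m k).1 < L := fun m k => (s m k).2
  refine core_AllM hO hS hSl hE hB hM a b c hab hcb hac hmid (ix 3) (ix 4) (fun t => ix t.1)
    (fun t => ix_lt_AllM t.2 (by omega)) ?_ (ix_lt_AllM (by omega) (by omega))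
    (fun m k => if m = b then ix 3 else ix (2 * (s m k).1 + 2))
    (fun m k => if m = b then ix 2 else ix (2 * (s m k).1 + 1))
    (fun m k => if m = b then ix 4 else ix (2 * (s m k).1 + 3))
    (fun k => by simp only [if_true]) ?_ ?_ T ?_ (gg fun m => s m 0) (hgg _) ?_
  · intro t t' h
    by_contra hne
    have h1 := t.2
    have h2 := t'.2
    rcases lt_or_gt_of_ne hne with h3 | h3
    · exact (ix_lt_AllM (N := 2 * L + 4) (show t.1 < t'.1 from h3) (by omega)).ne h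
    · exact (ix_lt_AllM (N := 2 * L + 4) (show t'.1 < t.1 from h3) (by omega)).ne' h
  · intro m k
    have := hsl m k
    by_cases hm : m = b
    · simp only [if_pos hm]
      exact ⟨ix_lt_AllM (by omega) (by omega), ix_lt_AllM (by omega) (by omega)⟩
    · simp only [if_neg hm]
      exact ⟨ix_lt_AllM (by omega) (by omega), ix_lt_AllM (by omega) (by omega)⟩
  · intro m hm k k' hk
    have h1 := hsl m k
    have h2 := hsl m k'
    have h3 : (s m k).1 < (s m k').1 := hs m hk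
    simp only [if_neg hm]
    exact ⟨ix_lt_AllM (by omega) (by omega), ix_lt_AllM (by omega) (by omega)⟩
  · intro j hjb hj z hz
    obtain ⟨ε, -, rfl⟩ := Finset.mem_image.1 hz
    refine ⟨co ε, fun m => ?_, Or.inr ⟨b, rfl⟩⟩
    by_cases hm : m = b
    · subst hm
      simpa only [co, if_true] using hjb
    · obtain ⟨k, hk⟩ := hj m hm
      have h1 := hsl m k
      rw [hk]
      simp only [co, if_neg hm]
      split_ifs
      · exact (ix_lt_AllM (by omega) le_rfl).ne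
      · exact (ix_lt_AllM (by omega) (by omega)).ne'
  · intro j
    have := hex (fun m => s m (j m))
    rw [hgc j] at this
    exact this

end Pool.Agent.MP_a2955b_co.Gen

end

section
set_option autoImplicit false

namespace Pool.Agent.MP_a2955b_co.Gen

open Set Module Pool.Agent.MP_a2955b_co.Up
open scoped Classical

section

variable {E : Type} [NormedAddCommGroup E] [NormedSpace ℝ E] {D N N' : ℕ}
  {Hc : Finset E → Finset (Af E)} {φ : Fin D → Fin N → Af E} {R : Fin D → Fin N → Set E}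
  {p : (Fin D → Fin N) → E} {v y : (Fin D → Fin N) → Fin D → E}

theorem res_Box (h : Bx Hc φ R p v y) (s : Fin D → Fin N' → Fin N)
    (hs : ∀ m, Function.Injective (s m)) :
    Bx Hc (fun m k => φ m (s m k)) (fun m k => R m (s m k)) (fun j => p fun m => s m (j m))
      (fun j => v fun m => s m (j m)) (fun j => y fun m => s m (j m)) := by
  have hd : ∀ j j' : Fin D → Fin N', Dis j j' →
      Dis (fun m => s m (j m)) (fun m => s m (j' m)) := fun j j' hj m e => hj m (hs m e)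
  have hS : ∀ (j : Fin D → Fin N') T, Src (fun j => p fun m => s m (j m))
      (fun j => v fun m => s m (j m)) j T → Src p v (fun m => s m (j m)) T :=
    fun j T hT z hz => by
      obtain ⟨j', h1, h2⟩ := hT z hz
      exact ⟨_, hd j j' h1, h2⟩
  exact
    { conv := fun m k => h.conv m _
      on := fun m k => h.on m _
      disj := fun m m' k k' => h.disj m m' _ _
      ind := fun j => h.ind fun m => s m (j m)
      zero := fun j m => h.zero (fun m => s m (j m)) m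
      vR := fun j m => h.vR (fun m => s m (j m)) m
      yR := fun j m => h.yR (fun m => s m (j m)) m
      vs := fun j m k hk => h.vs (fun m => s m (j m)) m _ fun e => hk (hs m e)
      ys := fun j m k hk => h.ys (fun m => s m (j m)) m _ fun e => hk (hs m e)
      hull := fun j T hT => h.hull _ T (hS j T hT)
      pencil := fun j T hT g hg m k hk j' hj =>
        h.pencil _ T (hS j T hT) g hg m _ (fun e => hk (hs m e)) _ (hd j j' hj) }

theorem smul_Box (e : ℝ) (f : Af E) (z : E) : (e • f) z = e * f z := rfl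

theorem sq_Box {e a b : ℝ} (he : e ≠ 0) (h : 0 < a * b) : 0 < e * a * (e * b) := by
  rw [mul_mul_mul_comm]
  exact mul_pos (mul_self_pos.2 he) h

theorem pen_Box (e : ℝ) (f g : Af E) (q : E) : pen (e • f) g q = e • pen f g q := by
  ext z
  rw [smul_Box, pen_apply, pen_apply, smul_Box, smul_Box]
  ring

theorem flip_Box (h : Bx Hc φ R p v y) (e : Fin D → ℝ) (he : ∀ m, e m ≠ 0) :
    Bx Hc (fun m k => e m • φ m k) R p v y :=
  { conv := h.conv
    on := fun m k z hz => by rw [smul_Box, h.on m k z hz, mul_zero]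
    disj := h.disj
    ind := fun j => (h.ind j).units_smul fun m => Units.mk0 (e m) (he m)
    zero := fun j m => by rw [smul_Box, h.zero, mul_zero]
    vR := h.vR
    yR := h.yR
    vs := fun j m k hk m' => sq_Box (he m) (h.vs j m k hk m')
    ys := fun j m k hk m' => sq_Box (he m) (h.ys j m k hk m')
    hull := h.hull
    pencil := fun j T hT g hg m k hk j' hj hl m' => by
      rw [pen_Box] at hl ⊢
      refine sq_Box (he m) (h.pencil j T hT g hg m k hk j' hj (fun e0 => hl ?_) m')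
      rw [AffineMap.smul_linear, e0, smul_zero] }

theorem mt_Box {m : Fin D} (h : MT φ p m) (s : Fin D → Fin N' → Fin N)
    (hs : ∀ m, StrictMono (s m)) :
    MT (fun m k => φ m (s m k)) (fun j => p fun m => s m (j m)) m := fun j _ =>
  ⟨fun hk => (h (fun m => s m (j m)) _).1 (hs m hk),
    fun hk => (h (fun m => s m (j m)) _).2 (hs m hk)⟩

theorem ct_Box {m : Fin D} (h : CT φ p m) (s : Fin D → Fin N' → Fin N)
    (hs : ∀ m, StrictMono (s m)) :
    CT (fun m k => φ m (s m k)) (fun j => p fun m => s m (j m)) m := fun j _ hk =>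
  h (fun m => s m (j m)) _ fun e => hk ((hs m).injective e)

end

theorem pos_Box {x : ℝ} {σ : SignType} (h : SignType.sign x = σ) (h0 : x ≠ 0) : 0 < (σ : ℝ) * x := by
  rw [← h, sign_mul_self]
  exact abs_pos.2 h0

theorem neg_Box {x : ℝ} {σ σ' : SignType} (h : SignType.sign x = σ') (h0 : x ≠ 0) (h1 : σ ≠ 0)
    (h2 : σ' ≠ σ) : (σ : ℝ) * x < 0 := by
  have h3 := pos_Box h h0
  have h4 : σ' ≠ 0 := fun e => h0 (sign_eq_zero_iff.1 (h.trans e))
  have h5 : σ' = -σ := by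
    revert h1 h2 h4
    cases σ <;> cases σ' <;> decide
  rw [h5, SignType.coe_neg] at h3
  linarith

theorem sBox (h1 : SHom) (h2 : SLin) (h3 : SMid) (h4 : STwoC) (h5 : SOneC) (h6 : SAllM) :
    SBox := by
  intro D hD
  obtain ⟨N1, k1⟩ := h5 D
  obtain ⟨N2, k2⟩ := h6 D
  obtain ⟨L, kL⟩ := h1 D (N1 + N2 + 3) (Fin D × Fin D × Fin D)
  refine ⟨L + 1, Nat.succ_pos L, fun E _ _ _ hE Hc hH φ' R' p' v' y' hB' => ?_⟩
  obtain ⟨φ, R, p, v, y, hB⟩ : ∃ (φ : Fin D → Fin L → Af E) (R : Fin D → Fin L → Set E)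
      (p : (Fin D → Fin L) → E) (v y : (Fin D → Fin L) → Fin D → E), Bx Hc φ R p v y :=
    ⟨_, _, _, _, _, res_Box hB' (fun _ => Fin.castSucc) fun _ => Fin.castSucc_injective L⟩
  have hm : ∀ j : Fin D → Fin L, ∃ t : Fin D × Fin D × Fin D, t.1 ≠ t.2.1 ∧ t.2.2 ≠ t.2.1 ∧
      t.1 ≠ t.2.2 ∧ Mid {z | ∀ m, φ m (j m) z = 0} (R t.1 (j t.1)) (R t.2.1 (j t.2.1))
        (R t.2.2 (j t.2.2)) := fun j => by
    obtain ⟨x, w, -, -, -, hx⟩ := h2 E D hE (fun m => φ m (j m)) (hB.ind j)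
    obtain ⟨a, b, c, ab, ac, bc⟩ : ∃ a b c : Fin D, a ≠ b ∧ a ≠ c ∧ b ≠ c :=
      ⟨⟨0, by omega⟩, ⟨1, by omega⟩, ⟨2, by omega⟩, by simp, by simp, by simp⟩
    rcases h3 E {z | ∀ m, φ m (j m) z = 0} (R a (j a)) (R b (j b)) (R c (j c)) x w hx
      (hB.conv _ _) (hB.conv _ _) (hB.conv _ _) (hB.disj _ _ _ _ ab) (hB.disj _ _ _ _ ac)
      (hB.disj _ _ _ _ bc) with h | h | h
    · exact ⟨(b, a, c), ab.symm, ac.symm, bc, h⟩
    · exact ⟨(a, b, c), ab, bc.symm, ac, h⟩
    · exact ⟨(a, c, b), ac, bc, ab, h⟩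
  choose χ hχ using hm
  obtain ⟨s, hs, ⟨σ, σ', hσ⟩, ⟨a, b, c⟩, hc⟩ := kL (fun j i k => SignType.sign (φ i k (p j))) χ
  have hB1 := res_Box hB s fun m => (hs m).injective
  have hne : ∀ (j : Fin D → Fin (N1 + N2 + 3)) m k, k ≠ j m →
      φ m (s m k) (p fun m => s m (j m)) ≠ 0 := fun j m k hk =>
    left_ne_zero_of_mul (hB1.vs j m k hk m).ne'
  have s0 : ∀ m, σ m ≠ 0 := fun m e => by
    have k : (⟨0, by omega⟩ : Fin (N1 + N2 + 3)) < ⟨1, by omega⟩ := Fin.mk_lt_mk.2 zero_lt_one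
    exact hne (fun _ => ⟨1, by omega⟩) m _ k.ne
      (sign_eq_zero_iff.1 (((hσ (fun _ => ⟨1, by omega⟩) m _).1 k).trans e))
  have e0 : ∀ m, (σ m : ℝ) ≠ 0 := fun m e => s0 m (by
    revert e
    cases σ m <;> simp)
  have hB2 := flip_Box hB1 (fun m => (σ m : ℝ)) e0
  have hmid := fun j : Fin D → Fin (N1 + N2 + 3) => hχ fun m => s m (j m)
  simp only [hc] at hmid
  obtain ⟨ab, cb, ac, -⟩ := hmid fun _ => ⟨0, by omega⟩
  have hM : MidT (fun m k => (σ m : ℝ) • φ m (s m k)) (fun m k => R m (s m k)) a b c :=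
    fun j za ha zb hb zc hc' la lb lc => (hmid j).2.2.2 za ha zb hb zc hc'
      (fun m => (mul_eq_zero.1 (la m)).resolve_left (e0 m))
      (fun m => (mul_eq_zero.1 (lb m)).resolve_left (e0 m))
      (fun m => (mul_eq_zero.1 (lc m)).resolve_left (e0 m))
  have hT : ∀ m, CT (fun m k => (σ m : ℝ) • φ m (s m k)) (fun j => p fun m => s m (j m)) m ∨
      MT (fun m k => (σ m : ℝ) • φ m (s m k)) (fun j => p fun m => s m (j m)) m := fun m => by
    by_cases h : σ' m = σ m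
    · refine Or.inl fun j k hk => ?_
      rcases lt_or_gt_of_ne hk with k1 | k1
      · exact pos_Box ((hσ j m k).1 k1) (hne j m k hk)
      · exact pos_Box (((hσ j m k).2 k1).trans h) (hne j m k hk)
    · exact Or.inr fun j k => ⟨fun k1 => pos_Box ((hσ j m k).1 k1) (hne j m k k1.ne),
        fun k1 => neg_Box ((hσ j m k).2 k1) (hne j m k k1.ne') (s0 m) h⟩
  generalize (fun m k => (σ m : ℝ) • φ m (s m k)) = φ2 at hB2 hM hT
  generalize (fun m k => R m (s m k)) = R2 at hB2 hM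
  generalize (fun j : Fin D → Fin (N1 + N2 + 3) => p fun m => s m (j m)) = p2 at hB2 hT
  have mono : ∀ (n : ℕ) (h : n ≤ N1 + N2 + 3) (_ : Fin D), StrictMono (Fin.castLE h) :=
    fun n h _ _ _ k => k
  by_cases c1 : ∃ κ, CT φ2 p2 κ
  · obtain ⟨κ, hκ⟩ := c1
    by_cases c2 : ∃ m, m ≠ κ ∧ CT φ2 p2 m
    · obtain ⟨m, hm, hm'⟩ := c2
      have l3 : 3 ≤ N1 + N2 + 3 := by omega
      have hB3 := res_Box hB2 (fun _ => Fin.castLE l3) fun m => (mono 3 l3 m).injective
      exact h4 E D hE _ _ hB3.ind hB3.zero m κ hm (ct_Box hm' _ (mono 3 l3))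
        (ct_Box hκ _ (mono 3 l3))
    · have l1 : N1 ≤ N1 + N2 + 3 := by omega
      obtain ⟨a', b', q1, q2, q3⟩ : ∃ a' b' : Fin D, a' ≠ κ ∧ b' ≠ κ ∧ a' ≠ b' := by
        by_cases q : a = κ
        · exact ⟨c, b, q ▸ ac.symm, q ▸ ab.symm, cb⟩
        · by_cases q' : b = κ
          · exact ⟨a, c, q, q' ▸ cb, ac⟩
          · exact ⟨a, b, q, q', ab⟩
      exact k1 E hE Hc hH _ _ _ _ _
        (res_Box hB2 (fun _ => Fin.castLE l1) fun m => (mono N1 l1 m).injective) κ a' b' q1 q2 q3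
        (ct_Box hκ _ (mono N1 l1)) fun m hm =>
          mt_Box ((hT m).resolve_left fun h => c2 ⟨m, hm, h⟩) _ (mono N1 l1)
  · have l2 : N2 ≤ N1 + N2 + 3 := by omega
    exact k2 E hE Hc hH _ _ _ _ _
      (res_Box hB2 (fun _ => Fin.castLE l2) fun m => (mono N2 l2 m).injective) a b c ab cb ac
      (fun m => mt_Box ((hT m).resolve_left fun h => c1 ⟨m, h⟩) _ (mono N2 l2))
      fun j => hM fun m => Fin.castLE l2 (j m)

end Pool.Agent.MP_a2955b_co.Gen

end

section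
set_option autoImplicit false

namespace Pool.Agent.MP_a2955b_co.Gen

open Set Module Pool.Agent.MP_a2955b_co.Up
open scoped Classical

theorem lens_Greedy {X Y : Type} [Fintype X] [Fintype Y] (π : X → Y) (up : X → Y → X)
    (h1 : ∀ e y, π (up e y) = y) (h2 : ∀ e y, up (up e y) (π e) = e) (S : X → Set Y)
    (h3 : ∀ e y, S (up e y) = S e) (t : ℕ) (h4 : ∀ e, (S e).ncard ≤ t) :
    {e | π e ∈ S e}.ncard * Fintype.card Y ≤ Fintype.card X * t := by
  let f : {e | π e ∈ S e} × Y → Σ e : X, S e := fun p => ⟨up p.1 p.2, π p.1, (h3 _ _).symm ▸ p.1.2⟩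
  have hf : Function.Injective f := by
    rintro ⟨⟨e, he⟩, y⟩ ⟨⟨e', he'⟩, y'⟩ h
    have k1 : up e y = up e' y' := congrArg Sigma.fst h
    have k2 : π e = π e' := congrArg (fun p : Σ e : X, S e => (p.2 : Y)) h
    have k3 : e = e' := by rw [← h2 e y, k1, k2, h2]
    have k4 : y = y' := by rw [← h1 e y, k1, h1]
    subst k3 k4
    rfl
  have k := Nat.card_le_card_of_injective f hf
  rw [Nat.card_prod, Nat.card_sigma, Nat.card_coe_set_eq, Nat.card_eq_fintype_card] at k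
  refine k.trans ?_
  simpa using Finset.sum_le_card_nsmul Finset.univ (fun e => Nat.card (S e)) t fun e _ => h4 e

theorem cover_Greedy {X I : Type} [Finite X] [Fintype I] (A : I → Set X) (c b : ℕ)
    (h : ∀ i, (A i).ncard * c ≤ b) : (⋃ i, A i).ncard * c ≤ Fintype.card I * b := by
  have k : ∀ s : Finset I, (⋃ i ∈ s, A i).ncard * c ≤ s.card * b := by
    intro s
    induction s using Finset.induction_on with
    | empty => simp
    | insert i s hi ih =>
      rw [Finset.set_biUnion_insert, Finset.card_insert_of_notMem hi]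
      have := Nat.mul_le_mul_right c (ncard_union_le (A i) (⋃ i ∈ s, A i))
      have := h i
      linarith
  simpa using k Finset.univ

theorem round_Greedy (h : SuperStmt) (ι : Type) [Fintype ι] [Nonempty ι] (D L : ℕ) (hL : 0 < L)
    (U0 U : Set (Fin D → ι)) (Bad : (Fin D → ι) → Set ι) (Kl : Finset ι → Set (Fin D → ι))
    (T q : ℕ) (h1 : ∀ τ ∈ U0, (Bad τ).ncard ≤ T)
    (h2 : ∀ e : Fin D → Fin L → ι, (∀ j, tup e j ∈ U0) →
      (∀ j m k, k ≠ j m → e m k ∉ Bad (tup e j)) → ∃ j, tup e j ∈ Kl (non e j))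
    (h3 : 2 * L ^ D * (D * L) * T * q ^ (L ^ D) ≤ Fintype.card ι) (hU : U ⊆ U0)
    (h4 : Fintype.card ι ^ D ≤ q * U.ncard) :
    ∃ β : Finset ι, β.card ≤ D * L ∧
      Fintype.card ι ^ D ≤ 2 * L ^ D * q ^ (L ^ D) * (U ∩ Kl β).ncard := by
  have : Nonempty (Fin L) := ⟨⟨0, hL⟩⟩
  obtain ⟨⟨e0, j0⟩, h0⟩ := Finite.exists_max
    fun p : (Fin D → Fin L → ι) × (Fin D → Fin L) => (U ∩ Kl (non p.1 p.2)).ncard
  refine ⟨non e0 j0, Finset.card_image_le.trans ((Finset.card_filter_le _ _).trans (by simp)), ?_⟩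
  have hX : Fintype.card (Fin D → Fin L → ι) = Fintype.card ι ^ (D * L) := by
    simp [← pow_mul, mul_comm]
  have k1 := cover_Greedy (fun a : (Fin D → Fin L) × Fin D × Fin L => {e : Fin D → Fin L → ι |
      e a.2.1 a.2.2 ∈ {x | a.2.2 ≠ a.1 a.2.1 ∧ tup e a.1 ∈ U0 ∧ x ∈ Bad (tup e a.1)}})
      (Fintype.card ι) (Fintype.card ι ^ (D * L) * T) (by
    rintro ⟨j, m, k⟩
    rw [← hX]
    refine lens_Greedy (fun e : Fin D → Fin L → ι => e m k)
      (fun e x m' k' => if m' = m ∧ k' = k then x else e m' k') (by simp) ?_ _ ?_ T ?_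
    · intro e y
      funext m' k'
      split_ifs with c
      · rw [c.1, c.2]
      · exact if_neg c
    · intro e y
      ext x
      refine and_congr_right fun c => ?_
      have : tup (fun m' k' => if m' = m ∧ k' = k then y else e m' k') j = tup e j := by
        funext m'
        exact if_neg fun c' => c (by rw [← c'.2, c'.1])
      rw [this]
    · intro e
      by_cases c : tup e j ∈ U0
      · exact (ncard_le_ncard (fun x hx => hx.2.2) (toFinite _)).trans (h1 _ c)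
      · simp [c])
  have k2 := cover_Greedy (fun j : Fin D → Fin L => {e : Fin D → Fin L → ι |
      tup e j ∈ U ∩ Kl (non e j)}) (Fintype.card ι ^ D)
      (Fintype.card ι ^ (D * L) * (U ∩ Kl (non e0 j0)).ncard) (by
    intro j
    rw [← hX, show Fintype.card ι ^ D = Fintype.card (Fin D → ι) by simp]
    refine lens_Greedy (fun e : Fin D → Fin L → ι => tup e j)
      (fun e τ m k => if k = j m then τ m else e m k) (fun e τ => funext fun m => if_pos rfl) ?_
      (fun e => U ∩ Kl (non e j)) ?_ _ fun e => h0 (e, j)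
    · intro e y
      funext m k
      split_ifs with c
      · rw [c, tup]
      · exact if_neg c
    · intro e y
      have : non (fun m k => if k = j m then y m else e m k) j = non e j :=
        Finset.image_congr fun a ha => if_neg (Finset.mem_filter.1 ha).2
      rw [this])
  have k3 := h ι D L hL U
  have k4 := (ncard_le_ncard (show {e : Fin D → Fin L → ι | ∀ j : Fin D → Fin L,
      (fun i => e i (j i)) ∈ U} ⊆ (⋃ a : (Fin D → Fin L) × Fin D × Fin L,
      {e | e a.2.1 a.2.2 ∈ {x | a.2.2 ≠ a.1 a.2.1 ∧ tup e a.1 ∈ U0 ∧ x ∈ Bad (tup e a.1)}}) ∪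
      ⋃ j : Fin D → Fin L, {e | tup e j ∈ U ∩ Kl (non e j)} from fun e he => by
    by_cases c : ∀ j m k, k ≠ j m → e m k ∉ Bad (tup e j)
    · obtain ⟨j, hj⟩ := h2 e (fun j => hU (he j)) c
      exact Or.inr (mem_iUnion.2 ⟨j, he j, hj⟩)
    · push Not at c
      obtain ⟨j, m, k, c1, c2⟩ := c
      exact Or.inl (mem_iUnion.2 ⟨(j, m, k), c1, hU (he j), c2⟩)) (toFinite _)).trans
    (ncard_union_le _ _)
  have k5 := Nat.pow_le_pow_left h4 (L ^ D)
  have hn : 0 < Fintype.card ι := Fintype.card_pos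
  rw [mul_pow] at k5
  simp only [Fintype.card_prod, Fintype.card_pi, Fintype.card_fin, Finset.prod_const,
    Finset.card_univ] at k1 k2
  generalize (U ∩ Kl (non e0 j0)).ncard = t at *
  generalize ncard (⋃ a : (Fin D → Fin L) × Fin D × Fin L, _) = b at k1 k4
  generalize ncard (⋃ j : Fin D → Fin L, _) = g at k2 k4
  generalize ncard {e : Fin D → Fin L → ι | _} = x at k3 k4
  have p1 : 0 < Fintype.card ι ^ (D * L) := pow_pos hn _
  have p2 : 0 < (Fintype.card ι ^ D) ^ L ^ D := pow_pos (pow_pos hn _) _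
  generalize Fintype.card ι ^ (D * L) = V at *
  generalize (Fintype.card ι ^ D) ^ L ^ D = W at *
  generalize Fintype.card ι ^ D = w at *
  generalize q ^ L ^ D = Q at *
  generalize U.ncard ^ L ^ D = u at *
  generalize L ^ D = P at *
  generalize Fintype.card ι = n at *
  have m1 : V ≤ Q * x := Nat.le_of_mul_le_mul_left (by
    calc W * V ≤ Q * u * V := by gcongr
      _ = Q * (u * V) := by ring
      _ ≤ Q * (x * W) := by gcongr
      _ = W * (Q * x) := by ring) p2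
  have m2 : 2 * Q * b ≤ V := Nat.le_of_mul_le_mul_left (by
    calc n * (2 * Q * b) = 2 * Q * (b * n) := by ring
      _ ≤ 2 * Q * (P * (D * L) * (V * T)) := by gcongr
      _ = 2 * P * (D * L) * T * Q * V := by ring
      _ ≤ n * V := by gcongr) hn
  have m3 : V ≤ 2 * Q * g := by nlinarith [Nat.mul_le_mul_left Q k4]
  refine Nat.le_of_mul_le_mul_left ?_ p1
  calc V * w ≤ 2 * Q * g * w := by gcongr
    _ = 2 * Q * (g * w) := by ring
    _ ≤ 2 * Q * (P * (V * t)) := by gcongr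
    _ = _ := by ring

theorem sGreedy (h : SuperStmt) : SGreedy := by
  intro ι _ _ D L hL U0 Bad Kl T q hq h1 h2 h3
  have hM : 0 < 2 * L ^ D * q ^ L ^ D := by positivity
  have hr := fun U => round_Greedy h ι D L hL U0 U Bad Kl T q h1 h2 h3
  generalize 2 * L ^ D * q ^ L ^ D = M at *
  have key : ∀ r : ℕ, ∃ B : Finset (Finset ι), B.card ≤ r ∧ (∀ β ∈ B, β.card ≤ D * L) ∧
      (q * {τ | τ ∈ U0 ∧ ∀ β ∈ B, τ ∉ Kl β}.ncard ≤ Fintype.card ι ^ D ∨
        M * {τ | τ ∈ U0 ∧ ∀ β ∈ B, τ ∉ Kl β}.ncard + r * Fintype.card ι ^ D ≤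
          M * Fintype.card ι ^ D) := by
    intro r
    induction r with
    | zero =>
      refine ⟨∅, le_rfl, by simp, Or.inr ?_⟩
      rw [zero_mul, add_zero]
      exact Nat.mul_le_mul_left _ (by simpa using ncard_le_card (s := U0))
    | succ r ih =>
      obtain ⟨B, k1, k2, k3⟩ := ih
      by_cases c : q * {τ | τ ∈ U0 ∧ ∀ β ∈ B, τ ∉ Kl β}.ncard ≤ Fintype.card ι ^ D
      · exact ⟨B, by omega, k2, Or.inl c⟩
      obtain ⟨β, b1, b2⟩ := hr _ (fun τ hτ => hτ.1) (not_le.1 c).le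
      refine ⟨insert β B, (Finset.card_insert_le _ _).trans (by omega), ?_, Or.inr ?_⟩
      · simpa [b1] using k2
      · have e : {τ | τ ∈ U0 ∧ ∀ β' ∈ insert β B, τ ∉ Kl β'} =
            {τ | τ ∈ U0 ∧ ∀ β ∈ B, τ ∉ Kl β} \ Kl β := by
          ext τ
          simp only [Finset.forall_mem_insert, mem_ofPred_eq, mem_sdiff]
          tauto
        have := congrArg (M * ·) (ncard_inter_add_ncard_sdiff_eq_ncard
          {τ | τ ∈ U0 ∧ ∀ β ∈ B, τ ∉ Kl β} (Kl β) (toFinite _))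
        have := k3.resolve_left c
        rw [e]
        linarith
  obtain ⟨B, k1, k2, k3⟩ := key M
  refine ⟨B, k1, k2, k3.elim id fun c => ?_⟩
  have : {τ | τ ∈ U0 ∧ ∀ β ∈ B, τ ∉ Kl β}.ncard = 0 := by
    by_contra c'
    have := Nat.mul_pos hM (Nat.pos_of_ne_zero c')
    omega
  simp [this]

end Pool.Agent.MP_a2955b_co.Gen

end

section
set_option autoImplicit false

namespace Pool.Agent.MP_a2955b_co.Gen

open Set Module Pool.Agent.MP_a2955b_co.Up
open scoped Classical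

theorem sNet (h1 : SgnStmt) (h2 : SampleStmt) : SNet := by
  intro E _ _ _ ι _ h k t lam hl hk
  have a1 := h1 E ι h
  have a2 := h1 E ι fun i => -h i
  set A := {P : Set ι | ∃ x, P = {i | 0 < h i x}}
  set B := {P : Set ι | ∃ x, P = {i | 0 < (-h i) x}}
  have hs : {r : Set ι | ∃ y y', r = {x | ¬ 0 < h x y * h x y'}} ⊆
      (fun q : (Set ι × Set ι) × Set ι × Set ι => (q.1.1 ∩ q.1.2 ∪ q.2.1 ∩ q.2.2)ᶜ) ''
        ((A ×ˢ A) ×ˢ B ×ˢ B) := by
    rintro _ ⟨y, y', rfl⟩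
    refine ⟨(({i | 0 < h i y}, {i | 0 < h i y'}), {i | 0 < (-h i) y}, {i | 0 < (-h i) y'}),
      ⟨⟨⟨y, rfl⟩, ⟨y', rfl⟩⟩, ⟨y, rfl⟩, ⟨y', rfl⟩⟩, ?_⟩
    ext x
    simp [mul_pos_iff]
  have hc := (ncard_le_ncard hs (toFinite _)).trans (ncard_image_le (toFinite _))
  rw [ncard_prod, ncard_prod, ncard_prod] at hc
  have hc' := hc.trans (Nat.mul_le_mul (Nat.mul_le_mul a1 a1) (Nat.mul_le_mul a2 a2))
  obtain ⟨R, hR, hR', -⟩ := h2 ι 0 {r : Set ι | ∃ y y', r = {x | ¬ 0 < h x y * h x y'}} ∅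
    (fun x hx => hx.elim) k t lam (by
      refine lt_of_le_of_lt (Nat.mul_le_mul_left 2 (hc'.trans (le_of_eq ?_))) hl
      ring) hk
  exact ⟨R, hR, fun y y' hy => hR' _ ⟨y, y', rfl⟩ (disjoint_left.2 fun x hx hx' => hx (hy x hx'))⟩

theorem sCuts : SCuts := by
  intro D M
  obtain ⟨P, hP⟩ : ∃ P, P = M ^ D + M ^ D * D := ⟨_, rfl⟩
  obtain ⟨Q, hQ⟩ : ∃ Q, Q = 2 ^ P * (2 ^ P * (D + 1 + 1)) := ⟨_, rfl⟩
  refine ⟨M + Q + M * (Q * M ^ D), fun E _ _ _ hD Hc hH ι h hh p v => ?_⟩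
  let Tup : Finset ι → Finset (Fin D → ι) := fun β => Fintype.piFinset fun _ => β
  let Pts : Finset ι → Finset E := fun β =>
    (Tup β).image p ∪ (Tup β ×ˢ Finset.univ).image fun a => v a.1 a.2
  let HH : Finset ι → Finset (Af E) := fun β => (Pts β).powerset.biUnion Hc
  let Pe : Finset ι → Finset (Af E) := fun β =>
    (β ×ˢ HH β ×ˢ Tup β).image fun a => pen (h a.1) a.2.1 (p a.2.2)
  refine ⟨fun β => β.image h ∪ HH β ∪ (Pe β).filter fun g => g.linear ≠ 0, fun β =>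
    ⟨fun hβ => ?_, fun g hg => ?_, fun x hx => ?_, fun T hT g hg => ?_⟩⟩
  · have c1 : (Tup β).card ≤ M ^ D := by
      rw [Fintype.card_piFinset_const]
      exact Nat.pow_le_pow_left hβ _
    have c2 : (Pts β).card ≤ P := by
      refine (Finset.card_union_le _ _).trans (hP ▸ Nat.add_le_add (Finset.card_image_le.trans c1)
        (Finset.card_image_le.trans ?_))
      rw [Finset.card_product, Finset.card_univ, Fintype.card_fin]
      exact Nat.mul_le_mul_right _ c1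
    have c3 : (HH β).card ≤ Q := by
      refine (Finset.card_biUnion_le_card_mul _ _ (2 ^ P * (D + 1 + 1)) fun T hT => ?_).trans ?_
      · refine (hH T).1.trans (hD ▸ Nat.mul_le_mul_right _ (Nat.pow_le_pow_right two_pos ?_))
        exact (Finset.card_le_card (Finset.mem_powerset.1 hT)).trans c2
      · rw [Finset.card_powerset, hQ]
        exact Nat.mul_le_mul_right _ (Nat.pow_le_pow_right two_pos c2)
    have c4 : (Pe β).card ≤ M * (Q * M ^ D) := by
      refine Finset.card_image_le.trans ?_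
      rw [Finset.card_product, Finset.card_product]
      exact Nat.mul_le_mul hβ (Nat.mul_le_mul c3 c1)
    exact (Finset.card_union_le _ _).trans (Nat.add_le_add ((Finset.card_union_le _ _).trans
      (Nat.add_le_add (Finset.card_image_le.trans hβ) c3)) ((Finset.card_filter_le _ _).trans c4))
  · rcases Finset.mem_union.1 hg with hg | hg
    · rcases Finset.mem_union.1 hg with hg | hg
      · obtain ⟨x, -, rfl⟩ := Finset.mem_image.1 hg
        exact hh x
      · obtain ⟨T, -, hT⟩ := Finset.mem_biUnion.1 hg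
        exact (hH T).2.1 g hT
    · exact (Finset.mem_filter.1 hg).2
  · exact Finset.mem_union_left _ (Finset.mem_union_left _ (Finset.mem_image_of_mem _ hx))
  · have h1 : g ∈ HH β := by
      refine Finset.mem_biUnion.2 ⟨T, Finset.mem_powerset.2 fun z hz => ?_, hg⟩
      obtain ⟨τ, h1, rfl | ⟨m, rfl⟩⟩ := hT z hz
      · exact Finset.mem_union_left _ (Finset.mem_image_of_mem _ (Fintype.mem_piFinset.2 h1))
      · exact Finset.mem_union_right _ (Finset.mem_image.2 ⟨(τ, m),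
          Finset.mk_mem_product (Fintype.mem_piFinset.2 h1) (Finset.mem_univ _), rfl⟩)
    refine ⟨Finset.mem_union_left _ (Finset.mem_union_right _ h1), fun x hx τ hτ h2 => ?_⟩
    exact Finset.mem_union_right _ (Finset.mem_filter.2 ⟨Finset.mem_image.2 ⟨(x, g, τ),
      Finset.mk_mem_product hx (Finset.mk_mem_product h1 (Fintype.mem_piFinset.2 hτ)), rfl⟩, h2⟩)

end Pool.Agent.MP_a2955b_co.Gen

end

section
/-! Few cuts kill most tuples. -/

set_option autoImplicit false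

namespace Pool.Agent.MP_a2955b_co.Gen

open Set Module Pool.Agent.MP_a2955b_co.Up
open scoped Classical

theorem mem_non_Kill {ι : Type} {D L : ℕ} (e : Fin D → Fin L → ι) (j : Fin D → Fin L) (m : Fin D)
    (k : Fin L) (h : k ≠ j m) : e m k ∈ non e j :=
  Finset.mem_image.2 ⟨(m, k), Finset.mem_filter.2 ⟨Finset.mem_univ _, h⟩, rfl⟩

theorem alv_mono_Kill {E : Type} [NormedAddCommGroup E] [NormedSpace ℝ E] {ι : Type} {D : ℕ}
    {R : ι → Set E} {G G' : Finset (Af E)} (h : G ⊆ G') {τ : Fin D → ι} {q : E}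
    (ha : Alv R G' τ q) : Alv R G τ q :=
  let ⟨y, y1, y2⟩ := ha
  ⟨y, y1, fun g hg => y2 g (h hg)⟩

theorem sKill (h0 : HullStmt) (h1 : SBox) (h2 : SGreedy) (h3 : SNet) (h4 : SCuts) : SKill := by
  intro D hD
  obtain ⟨L, hL, hbox⟩ := h1 D hD
  obtain ⟨c0, hc0⟩ := h4 D (D * L)
  refine ⟨L ^ D, 2 * L ^ D * (D * L) * D + 2 * L ^ D * c0,
    fun E _ _ _ hE ι _ _ F R h hP p hp q t k lam hq hlam htk hc => ?_⟩
  choose Hc hHc using h0 E
  obtain ⟨R0, r1, r2⟩ := h3 E ι h k t lam (by rw [hE]; exact hlam) htk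
  have hv : ∀ τ : Fin D → ι, Alv R (R0.image h) τ (p τ) → ∃ y : Fin D → E,
      (∀ m, y m ∈ R (τ m)) ∧ ∀ g ∈ R0.image h, ∀ m, 0 < g (p τ) * g (y m) := fun τ hτ => hτ
  choose! v v1 v2 using hv
  obtain ⟨G, hG⟩ := hc0 E hE Hc hHc ι h hP.lin p v
  refine (h2 ι D L hL {τ | IndT h τ ∧ Alv R (R0.image h) τ (p τ)}
    (fun τ => ⋃ m, {x | ¬ 0 < h x (p τ) * h x (v τ m)}) (fun β => {τ | ¬ Alv R (G β) τ (p τ)})
    (D * t) q hq (fun τ hτ => ?_) (fun e he hb => ?_) ?_).elim fun B ⟨b1, b2, b3⟩ => ?_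
  rotate_right
  · refine ⟨R0.image h ∪ B.biUnion G, fun g hg => ?_, ?_, le_trans (Nat.mul_le_mul_left _
      (ncard_le_ncard (fun τ hτ => ?_) (toFinite _))) b3⟩
    · rcases Finset.mem_union.1 hg with hg | hg
      · obtain ⟨x, -, rfl⟩ := Finset.mem_image.1 hg
        exact hP.lin x
      · obtain ⟨β, -, hg⟩ := Finset.mem_biUnion.1 hg
        exact (hG β).2.1 g hg
    · refine (Finset.card_union_le _ _).trans (add_le_add (Finset.card_image_le.trans r1) ?_)
      refine (Finset.card_biUnion_le_card_mul _ _ c0 fun β hβ => (hG β).1 (b2 β hβ)).trans ?_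
      refine (Nat.mul_le_mul_right _ b1).trans ?_
      rw [add_mul, mul_right_comm]
      exact Nat.le_add_left _ _
    · exact ⟨⟨hτ.1, alv_mono_Kill Finset.subset_union_left hτ.2⟩, fun β hβ hk =>
        hk (alv_mono_Kill ((Finset.subset_biUnion_of_mem G hβ).trans Finset.subset_union_right)
          hτ.2)⟩
  · refine (ncard_iUnion_le_of_fintype _).trans ((Finset.sum_le_card_nsmul _ _ t fun m _ =>
      r2 _ _ fun x hx => v2 τ hτ.2 _ (Finset.mem_image_of_mem h hx) m).trans (le_of_eq ?_))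
    simp
  · by_contra hn
    have hy : ∀ j, ∃ y : Fin D → E, (∀ m, y m ∈ R (tup e j m)) ∧
        ∀ g ∈ G (non e j), ∀ m, 0 < g (p (tup e j)) * g (y m) := fun j =>
      not_not.1 fun hj => hn ⟨j, hj⟩
    choose y y1 y2 using hy
    have src : ∀ j T, Src (fun j => p (tup e j)) (fun j => v (tup e j)) j T →
        ∀ z ∈ T, ∃ τ, (∀ m, τ m ∈ non e j) ∧ (z = p τ ∨ ∃ m, z = v τ m) := fun j T hT z hz =>
      let ⟨j', d, hz'⟩ := hT z hz
      ⟨tup e j', fun m => mem_non_Kill e j m _ (d m).symm, hz'⟩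
    refine hbox E hE Hc hHc (fun m k => h (e m k)) (fun m k => R (e m k)) (fun j => p (tup e j))
      (fun j => v (tup e j)) y
      ⟨fun m k => hP.rconv _, fun m k z hz => hP.on _ z (hP.sub _ hz), fun m m' k k' hm => ?_,
        fun j => (he j).1, fun j m => hp _ (he j).1 m, fun j m => v1 _ (he j).2 m, y1,
        fun j m k hk m' => ?_, fun j m k hk m' =>
          y2 j _ ((hG _).2.2.1 _ (mem_non_Kill e j m k hk)) m',
        fun j T hT g hg m' => y2 j g ((hG _).2.2.2 T (src j T hT) g hg).1 m',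
        fun j T hT g hg m k hk j' d hl m' => y2 j _ (((hG _).2.2.2 T (src j T hT) g hg).2 _
          (mem_non_Kill e j m k hk) (tup e j') (fun m => mem_non_Kill e j m _ (d m).symm) hl) m'⟩
    · refine (hP.disj _ _ fun hx => hm ?_).mono_right (hP.sub _)
      refine (he (Function.update (fun _ => k) m' k')).1.injective ?_
      simp only [tup, Function.update_self, Function.update_of_ne hm, hx]
    · exact not_not.1 fun hx => hb j m k hk (mem_iUnion.2 ⟨m', hx⟩)
  · refine le_trans ?_ hc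
    rw [← mul_assoc]
    exact Nat.mul_le_mul_right _ (Nat.mul_le_mul_right _ (Nat.le_add_right _ _))

end Pool.Agent.MP_a2955b_co.Gen

end

section
/-! Choice of the parameters. -/

set_option autoImplicit false

namespace Pool.Agent.MP_a2955b_co.Gen

open Set Module Pool.Agent.MP_a2955b_co.Up
open scoped Classical

theorem mono_Num (D w g : ℕ) {n n' : ℕ} (h : n ≤ n') : Bnd D w g n ≤ Bnd D w g n' := by
  unfold Bnd
  gcongr

theorem bnd_Num (d w g n G : ℕ) (hn : 1 ≤ n) (hG : w + g + 1 ≤ G) :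
    Bnd (d + 2) w g n ≤ (2 + 2 * (d + 3) * 2 ^ d) * G ^ (2 * (d + 2) + 3) * n ^ (d + 1) := by
  have h1 : (n + 1) ^ d ≤ 2 ^ d * n ^ d := by
    rw [← mul_pow]
    exact Nat.pow_le_pow_left (by omega) d
  have h2 : 1 ≤ G ^ (d + 3) * n ^ d :=
    Nat.mul_pos (Nat.pow_pos (by omega)) (Nat.pow_pos hn)
  have h3 : 1 + n ≤ 2 * n * (G ^ (d + 3) * n ^ d) :=
    (by omega : 1 + n ≤ 2 * n * 1).trans (Nat.mul_le_mul_left _ h2)
  have h4 : g + 1 ≤ G := by omega
  calc Bnd (d + 2) w g n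
      = (g + 1) ^ (d + 4) *
        (1 + n + n * (2 * (d + 3) * (w + g + 1) ^ (d + 3) * (n + 1) ^ d)) := rfl
    _ ≤ G ^ (d + 4) * (2 * n * (G ^ (d + 3) * n ^ d) +
        n * (2 * (d + 3) * G ^ (d + 3) * (2 ^ d * n ^ d))) := by gcongr
    _ = _ := by ring

theorem root_Num (Z n : ℕ) (hZ : 0 < Z) : ∃ y : ℕ, y ^ Z ≤ n ∧ n < (y + 1) ^ Z := by
  have h : ∃ y : ℕ, n < (y + 1) ^ Z :=
    ⟨n, (Nat.lt_succ_self n).trans_le (Nat.le_self_pow hZ.ne' _)⟩
  refine ⟨Nat.find h, ?_, Nat.find_spec h⟩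
  rcases hy : Nat.find h with _ | y
  · simp [hZ.ne']
  · exact not_lt.mp (Nat.find_min h (hy ▸ Nat.lt_succ_self y))

theorem real_Num (X C y n Z D : ℕ) (hZ : 0 < Z) (hn : 1 ≤ n) (hy : 1 ≤ y) (h1 : n < (y + 1) ^ Z)
    (h2 : X * y ≤ C * n ^ D) : (X : ℝ) ≤ 2 * C * (n : ℝ) ^ ((D : ℝ) - (Z : ℝ)⁻¹) := by
  have hn0 : (0 : ℝ) < n := by exact_mod_cast hn
  have hy0 : (1 : ℝ) ≤ y := by exact_mod_cast hy
  have h3 : (n : ℝ) ^ (Z : ℝ)⁻¹ ≤ y + 1 := by
    have h4 : (n : ℝ) ≤ ((y : ℝ) + 1) ^ Z := by exact_mod_cast h1.le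
    refine (Real.rpow_le_rpow hn0.le h4 (by positivity)).trans_eq ?_
    exact Real.pow_rpow_inv_natCast (by positivity) hZ.ne'
  have h5 : (n : ℝ) ^ D = (n : ℝ) ^ ((D : ℝ) - (Z : ℝ)⁻¹) * (n : ℝ) ^ (Z : ℝ)⁻¹ := by
    rw [← Real.rpow_add hn0, sub_add_cancel, Real.rpow_natCast]
  have h6 : (X : ℝ) * y ≤ C * (n : ℝ) ^ D := by exact_mod_cast h2
  have h7 : (0 : ℝ) ≤ C * (n : ℝ) ^ ((D : ℝ) - (Z : ℝ)⁻¹) := by positivity
  have h8 := mul_le_mul_of_nonneg_left (h3.trans (by linarith : (y : ℝ) + 1 ≤ 2 * y)) h7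
  refine le_of_mul_le_mul_right ?_ (by linarith : (0 : ℝ) < y)
  rw [h5] at h6
  linarith

theorem sNum : SNum := by
  intro D w M c hD
  obtain ⟨d, rfl⟩ := Nat.exists_eq_add_of_le' hD
  obtain ⟨Z, hZ⟩ : ∃ Z, Z = (M + 1) * (2 * (d + 2) + 3) + 1 := ⟨_, rfl⟩
  have hZ0 : 0 < Z := by omega
  have hZM : M + 1 ≤ Z := by nlinarith
  have hZ1 : (1 : ℝ) ≤ Z := by exact_mod_cast hZ0
  obtain ⟨L, hL⟩ : ∃ L, L = 4 * (d + 2 + 2) * Z := ⟨_, rfl⟩
  obtain ⟨C1, hC1⟩ : ∃ C1, C1 = 4 * (c + 1) * (L + 2) + 2 * c + (w + 1) := ⟨_, rfl⟩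
  obtain ⟨C2, hC2⟩ : ∃ C2, C2 = (2 + 2 * (d + 3) * 2 ^ d) * C1 ^ (2 * (d + 2) + 3) := ⟨_, rfl⟩
  obtain ⟨S, hS⟩ : ∃ S, S = Bnd (d + 2) w 0 ((c + 1) ^ Z) + 2 * ((c + 1) ^ Z) ^ (d + 2) :=
    ⟨_, rfl⟩
  refine ⟨(Z : ℝ)⁻¹, by positivity, S + 2 * ((C2 + 2 : ℕ) : ℝ), (c + 1) ^ Z, fun n hn => ?_⟩
  have hn1 : (1 : ℝ) ≤ n := by exact_mod_cast hn
  have hp : (1 : ℝ) ≤ (n : ℝ) ^ (((d + 2 : ℕ) : ℝ) - (Z : ℝ)⁻¹) := by
    refine Real.one_le_rpow hn1 ?_
    have h1 := inv_le_one_of_one_le₀ hZ1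
    have h2 : (0 : ℝ) ≤ d := Nat.cast_nonneg d
    push_cast
    linarith
  have hS0 : (0 : ℝ) ≤ S := Nat.cast_nonneg S
  have hC0 : (0 : ℝ) ≤ ((C2 + 2 : ℕ) : ℝ) := Nat.cast_nonneg _
  refine ⟨fun h => ?_, fun h => ?_⟩
  · have h1 : Bnd (d + 2) w 0 n + 2 * n ^ (d + 2) ≤ S := by
      rw [hS]
      exact add_le_add (mono_Num _ _ _ h.le) (by gcongr)
    have h2 : ((Bnd (d + 2) w 0 n + 2 * n ^ (d + 2) : ℕ) : ℝ) ≤ S := by exact_mod_cast h1
    exact h2.trans ((by linarith : (S : ℝ) ≤ S + 2 * ((C2 + 2 : ℕ) : ℝ)).trans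
      (le_mul_of_one_le_right (by linarith) hp))
  obtain ⟨y, hy1, hy2⟩ := root_Num Z n hZ0
  have hcy : c + 1 ≤ y :=
    Nat.lt_succ_iff.mp (lt_of_pow_lt_pow_left₀ Z (Nat.zero_le _) (h.trans_lt hy2))
  have hy : 1 ≤ y := by omega
  have hyM : 1 ≤ y ^ M := Nat.pow_pos hy
  have hE : (c + 1) * y ^ M ≤ n :=
    calc (c + 1) * y ^ M ≤ y * y ^ M := Nat.mul_le_mul_right _ hcy
      _ = y ^ (M + 1) := by ring
      _ ≤ y ^ Z := Nat.pow_le_pow_right hy hZM
      _ ≤ n := hy1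
  have hE0 : 0 < (c + 1) * y ^ M := Nat.mul_pos (by omega) hyM
  have ht1 : 1 ≤ n / ((c + 1) * y ^ M) := Nat.div_pos hE hE0
  have ht2 := Nat.lt_mul_div_succ n hE0
  have ht3 := Nat.mul_div_le n ((c + 1) * y ^ M)
  generalize n / ((c + 1) * y ^ M) = t at ht1 ht2 ht3
  refine ⟨y, t, 2 * ((c + 1) * y ^ M) * (L * y + 2), L * y + 2, hy, ?_, ?_, ?_, ?_⟩
  · have h1 : n + 1 ≤ (2 ^ y) ^ Z :=
      (Nat.succ_le_of_lt hy2).trans (Nat.pow_le_pow_left Nat.lt_two_pow_self Z)
    have h2 : (n + 1) ^ (4 * (d + 2 + 2)) ≤ 2 ^ (L * y) := by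
      refine (Nat.pow_le_pow_left h1 _).trans_eq ?_
      rw [← pow_mul, ← pow_mul, hL]
      congr 1
      ring
    have h3 : 0 < 2 ^ (L * y) := Nat.pow_pos (by norm_num)
    rw [pow_add]
    omega
  · have h1 : n ≤ (c + 1) * y ^ M * (2 * t) :=
      ht2.le.trans (Nat.mul_le_mul_left _ (by omega))
    exact (Nat.mul_le_mul_left _ h1).trans_eq (by ring)
  · calc c * t * y ^ M ≤ (c + 1) * t * y ^ M := by gcongr; omega
      _ = (c + 1) * y ^ M * t := by ring
      _ ≤ n := ht3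
  · intro g a0 a1 hg h0 h1
    have h2 : w + g + 1 ≤ C1 * y ^ (M + 1) := by
      have b1 : L * y + 2 ≤ (L + 2) * y := by nlinarith
      have b2 : y ^ M ≤ y ^ (M + 1) := Nat.pow_le_pow_right hy (by omega)
      calc w + g + 1 = g + (w + 1) * 1 := by ring
        _ ≤ 2 * (2 * ((c + 1) * y ^ M) * ((L + 2) * y) + c * y ^ (M + 1)) +
            (w + 1) * y ^ (M + 1) :=
          add_le_add (hg.trans (by gcongr)) (Nat.mul_le_mul_left _ (hyM.trans b2))
        _ = _ := by rw [hC1]; ring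
    have h3 : Bnd (d + 2) w g n * y ≤ C2 * n ^ (d + 2) :=
      calc Bnd (d + 2) w g n * y
          ≤ (2 + 2 * (d + 3) * 2 ^ d) * (C1 * y ^ (M + 1)) ^ (2 * (d + 2) + 3) * n ^ (d + 1) * y :=
            Nat.mul_le_mul_right _ (bnd_Num d w g n _ hn h2)
        _ = C2 * n ^ (d + 1) * y ^ Z := by
            rw [hC2, hZ, mul_pow, ← pow_mul, pow_succ y]
            ring
        _ ≤ C2 * n ^ (d + 1) * n := Nat.mul_le_mul_left _ hy1
        _ = _ := by ring
    have h4 : (Bnd (d + 2) w g n + (a0 + a1)) * y ≤ (C2 + 2) * n ^ (d + 2) := by nlinarith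
    refine (real_Num _ _ y n Z _ hZ0 hn hy hy2 h4).trans ?_
    exact mul_le_mul_of_nonneg_right (by linarith) (by linarith)

end Pool.Agent.MP_a2955b_co.Gen

end

section
/-! Final assembly of the general upper bound from the steps. -/

set_option autoImplicit false

namespace Pool.Agent.MP_a2955b_co.Gen

open Set Module Pool.Agent.MP_a2955b_co.Up
open scoped Classical

theorem Alv.anti_Fin {E : Type} [NormedAddCommGroup E] [NormedSpace ℝ E] {ι : Type} {D : ℕ}
    {R : ι → Set E} {G G' : Finset (Af E)} (h : G ⊆ G') {τ : Fin D → ι} {q : E}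
    (hq : Alv R G' τ q) : Alv R G τ q := by
  obtain ⟨y, h1, h2⟩ := hq
  exact ⟨y, h1, fun g hg => h2 g (h hg)⟩

theorem ncard_le_Fin {D n : ℕ} (S : Set (Fin D → Fin n)) : S.ncard ≤ n ^ D := by
  have := Set.ncard_le_card S
  simpa using this

theorem sFinal_of (h1 : SFace) (h2 : SEnd) (h3 : SKill) (h4 : SB) (h5 : SNum)
    (h6 : ToPartStmt) : SFinal := by
  intro d hd
  obtain ⟨D, rfl⟩ : ∃ D, d = D + 1 := ⟨d - 1, by omega⟩
  have hE : finrank ℝ (EuclideanSpace ℝ (Fin (D + 1))) = D + 1 := by simp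
  obtain ⟨M, c, hK⟩ := h3 D (by omega)
  obtain ⟨δ, hδ, A, n0, hN⟩ := h5 D (2 * (D + 1)) M c (by omega)
  refine ⟨δ, hδ, A, fun n P hn hP => ?_⟩
  obtain ⟨F, R, h, hpl, hfr⟩ := h1 (D + 1) n (by omega) P hP
  obtain ⟨p, hp⟩ := h2 _ D hE (Fin n) F R h hpl ⟨0, by omega⟩
  obtain ⟨σ, hσ, hPσ⟩ := exists_cell hP.1.isBounded
  rw [hE] at hσ
  have hexp : (((D + 1 : ℕ) : ℝ) - 1 - δ) = (D : ℝ) - δ := by push_cast; ring
  rw [hexp]
  have key : ∀ G : Finset (Af (EuclideanSpace ℝ (Fin (D + 1)))), (∀ g ∈ G, g.linear ≠ 0) →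
      ((Bnd D (2 * (D + 1)) G.card n + ({τ | IndT h τ ∧ Alv R G τ (p τ false)}.ncard +
        {τ | IndT h τ ∧ Alv R G τ (p τ true)}.ncard) : ℕ) : ℝ) ≤ A * (n : ℝ) ^ ((D : ℝ) - δ) →
      ∃ (M : ℕ) (K : Fin M → Set (EuclideanSpace ℝ (Fin (D + 1)))), IsConvexPartition P K ∧
        (M : ℝ) ≤ A * (n : ℝ) ^ ((D : ℝ) - δ) := by
    intro G hG hb
    obtain ⟨C, hC, hCF, hCc⟩ := h4 _ D hE (by omega) (Fin n) F R h hpl _ p hp _ σ hσ G hG
    obtain ⟨M', K, hK1, hK2⟩ := h6 (D + 1) P σ hP.2.1 hPσ hσ.1 C hC (by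
      intro O hO
      rw [hfr, disjoint_iUnion_right]
      exact hCF O hO)
    refine ⟨M', K, hK1, le_trans ?_ hb⟩
    rw [Fintype.card_fin] at hCc
    exact_mod_cast hK2.trans hCc
  rcases lt_or_ge n n0 with hlt | hge
  · refine key ∅ (by simp) (le_trans ?_ ((hN n hn).1 hlt))
    have a1 := ncard_le_Fin {τ | IndT h τ ∧ Alv R ∅ τ (p τ false)}
    have a2 := ncard_le_Fin {τ | IndT h τ ∧ Alv R ∅ τ (p τ true)}
    rw [Finset.card_empty]
    exact_mod_cast (by omega)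
  · obtain ⟨q, t, k, lam, hq, e1, e2, e3, hfin⟩ := (hN n hn).2 hge
    have : Nonempty (Fin n) := ⟨⟨0, hn⟩⟩
    have hk := fun b : Bool => hK _ hE (Fin n) F R h hpl (fun τ => p τ b)
      (fun τ hτ m => (hp τ hτ).1 b m) q t k lam hq (by rwa [Fintype.card_fin])
      (by rwa [Fintype.card_fin]) (by rwa [Fintype.card_fin])
    obtain ⟨G0, a0, b0, c0⟩ := hk false
    obtain ⟨G1, a1, b1, c1⟩ := hk true
    rw [Fintype.card_fin] at c0 c1
    refine key (G0 ∪ G1) (fun g hg => (Finset.mem_union.1 hg).elim (a0 g) (a1 g))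
      (hfin _ _ _ ((Finset.card_union_le _ _).trans (by omega)) ?_ ?_)
    · refine le_trans (Nat.mul_le_mul_left _ (Set.ncard_le_ncard ?_ (Set.toFinite _))) c0
      exact fun τ hτ => ⟨hτ.1, hτ.2.anti_Fin Finset.subset_union_left⟩
    · refine le_trans (Nat.mul_le_mul_left _ (Set.ncard_le_ncard ?_ (Set.toFinite _))) c1
      exact fun τ hτ => ⟨hτ.1, hτ.2.anti_Fin Finset.subset_union_right⟩

end Pool.Agent.MP_a2955b_co.Gen

end
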