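import Pool.Agent.Mg.F41f2d3.G7bde06
import Pool.Agent.MP_a2955b_co.Gen.PartA
import Pool.Agent.MP_a2955b_co.Gen.PartK

/-! The general upper bound for convex partitions of polyhedra. -/

set_option autoImplicit false

namespace Pool.Agent.MP_a2955b_co.Gen

open Pool.Agent.MP_a2955b_co.Up

theorem sFinal : SFinal := by
  have hOne := sSplitOne sSplit
  have hKey := sKey (sCell sWc (sCut sWc hOne))
  have hProc := sProc sWc (sInit sWc hOne) (sJob sSplit) sLeaf (sConv sSweep)
  have hB := sB (sArr sgn) (sOne hProc (sCount sWc hKey) (sBase hKey (sOut sWc)))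
  have hBox := sBox sHom sLin sMid sTwoC (sOneC sHom sOrth sFan)
    (sAllM sHom sOrth sLin sExit slice sSlope)
  exact sFinal_of sFace (sEnd sLin (sLine sWc))
    (sKill hull hBox (sGreedy super) (sNet sgn sample) sCuts) hB sNum (toPart_of poly)

end Pool.Agent.MP_a2955b_co.Gen
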