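import Pool.Agent.Mg.F41f2d3.Ge87435

/-! Convex partitions of arbitrary polyhedra: definitions and statements of the steps. -/

set_option autoImplicit false

namespace Pool.Agent.MP_a2955b_co.Gen

open Set Module Pool.Agent.MP_a2955b_co.Up
open scoped Classical

section defs

variable {E : Type} [NormedAddCommGroup E] [NormedSpace ℝ E]

/-- Number of connected components. -/
noncomputable def wc (A : Set E) : ℕ∞ :=
  {C : Set E | ∃ y ∈ A, C = connectedComponentIn A y}.encard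

/-- Affine subspaces, as sets. -/
def Flat (L : Set E) : Prop := ∀ x ∈ L, ∀ y ∈ L, ∀ a : ℝ, x + a • (y - x) ∈ L

/-- Relatively open subsets of `L`. -/
def RO (L V : Set E) : Prop := V ⊆ L ∧ ∀ y ∈ V, ∃ ε : ℝ, 0 < ε ∧ Metric.ball y ε ∩ L ⊆ V

/-- The weight of a cell `A` with non-strict cell `B`. -/
noncomputable def wt (K A B : Set E) : ℕ∞ :=
  if A.Nonempty ∧ (B ∩ K).Nonempty then wc (A \ K) else 0

/-- The cells of a list of affine functions in the flat `L`. -/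
noncomputable def lv : List (Af E) → Set E → Set E → Set E → List (Set E × Set E)
  | [], _, U, B => [(U, B)]
  | z :: Z, L, U, B =>
    if ∀ y ∈ L, z y = 0 then lv Z L U B
    else lv Z L (U ∩ {y | 0 < z y}) (B ∩ {y | 0 ≤ z y}) ++
      lv Z L (U ∩ {y | z y < 0}) (B ∩ {y | z y ≤ 0})

/-- Total weight of the cells. -/
noncomputable def tot (K : Set E) (Z : List (Af E)) (L U B : Set E) : ℕ∞ :=
  ((lv Z L U B).map (fun c => wt K (L ∩ c.1) c.2)).sum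

theorem tot_nil (K L U B : Set E) : tot K [] L U B = wt K (L ∩ U) B := by
  simp [tot, lv]

theorem tot_skip (K : Set E) (z : Af E) (Z : List (Af E)) (L U B : Set E)
    (h : ∀ y ∈ L, z y = 0) : tot K (z :: Z) L U B = tot K Z L U B := by
  simp only [tot, lv, if_pos h]

theorem tot_cons (K : Set E) (z : Af E) (Z : List (Af E)) (L U B : Set E)
    (h : ¬ ∀ y ∈ L, z y = 0) : tot K (z :: Z) L U B =
      tot K Z L (U ∩ {y | 0 < z y}) (B ∩ {y | 0 ≤ z y}) +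
        tot K Z L (U ∩ {y | z y < 0}) (B ∩ {y | z y ≤ 0}) := by
  simp only [tot, lv, if_neg h, List.map_append, List.sum_append]

/-- The flat cut out by a finite set of functions. -/
def FL {ι : Type} (h : ι → Af E) (t : Finset ι) : Set E := {y | ∀ x ∈ t, h x y = 0}

/-- Independent finite sets of functions. -/
def Ind {ι : Type} (h : ι → Af E) (t : Finset ι) : Prop :=
  LinearIndependent ℝ (fun x : t => (h x).linear)

/-- Independent tuples of functions. -/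
def IndT {ι : Type} {D : ℕ} (h : ι → Af E) (τ : Fin D → ι) : Prop :=
  LinearIndependent ℝ (fun m => (h (τ m)).linear)

/-- Compact convex plates in hyperplanes with disjoint relative interiors `R`. -/
structure Plates {ι : Type} (F R : ι → Set E) (h : ι → Af E) : Prop where
  cpt : ∀ x, IsCompact (F x)
  conv : ∀ x, Convex ℝ (F x)
  rconv : ∀ x, Convex ℝ (R x)
  sub : ∀ x, R x ⊆ F x
  dense : ∀ x, F x ⊆ closure (R x)
  disj : ∀ x y, x ≠ y → Disjoint (R x) (F y)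
  lin : ∀ x, (h x).linear ≠ 0
  on : ∀ x, ∀ y ∈ F x, h x y = 0

/-- The points `p τ b` control the weight of the line of `τ` for the plate `τ i`. -/
def EndP {ι : Type} {D : ℕ} (F : ι → Set E) (h : ι → Af E) (i : Fin D)
    (p : (Fin D → ι) → Bool → E) : Prop :=
  ∀ τ, IndT h τ → (∀ b m, h (τ m) (p τ b) = 0) ∧ ∀ U : Set E, IsOpen U → Convex ℝ U →
    wt (F (τ i)) ({y | ∀ m, h (τ m) y = 0} ∩ U) ({y | ∀ m, h (τ m) y = 0} ∩ U) ≤
      (if p τ false ∈ U then 1 else 0) + (if p τ true ∈ U then 1 else 0)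

/-- No function of `G` separates `q` from the plates of `τ`. -/
def Alv {ι : Type} {D : ℕ} (R : ι → Set E) (G : Finset (Af E)) (τ : Fin D → ι) (q : E) : Prop :=
  ∃ y : Fin D → E, (∀ m, y m ∈ R (τ m)) ∧ ∀ g ∈ G, ∀ m, 0 < g q * g (y m)

/-- Hull cuts. -/
def HcOK (Hc : Finset E → Finset (Af E)) : Prop :=
  ∀ T : Finset E, (Hc T).card ≤ 2 ^ T.card * (finrank ℝ E + 1) ∧ (∀ g ∈ Hc T, g.linear ≠ 0) ∧
    ∀ z z', (∀ g ∈ Hc T, SignType.sign (g z) = SignType.sign (g z')) →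
      z ∈ convexHull ℝ (T : Set E) → z' ∈ convexHull ℝ (T : Set E)

/-- The member of the pencil of `φ` and `g` through `q`. -/
noncomputable def pen (φ g : Af E) (q : E) : Af E := φ q • g - g q • φ

theorem pen_apply (φ g : Af E) (q z : E) : pen φ g q z = φ q * g z - g q * φ z := by
  simp [pen]

theorem pen_linear (φ g : Af E) (q w : E) :
    (pen φ g q).linear w = φ q * g.linear w - g q * φ.linear w := by
  simp [pen]

/-- Positions without common coordinate. -/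
def Dis {D N : ℕ} (j j' : Fin D → Fin N) : Prop := ∀ m, j m ≠ j' m

/-- The points of `T` come from positions disjoint from `j`. -/
def Src {D N : ℕ} (p : (Fin D → Fin N) → E) (v : (Fin D → Fin N) → Fin D → E)
    (j : Fin D → Fin N) (T : Finset E) : Prop :=
  ∀ z ∈ T, ∃ j', Dis j j' ∧ (z = p j' ∨ ∃ m, z = v j' m)

/-- A box of plates all of whose tuples are alive. -/
structure Bx {D N : ℕ} (Hc : Finset E → Finset (Af E)) (φ : Fin D → Fin N → Af E)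
    (R : Fin D → Fin N → Set E) (p : (Fin D → Fin N) → E)
    (v y : (Fin D → Fin N) → Fin D → E) : Prop where
  conv : ∀ m k, Convex ℝ (R m k)
  on : ∀ m k, ∀ z ∈ R m k, φ m k z = 0
  disj : ∀ m m' k k', m ≠ m' → Disjoint (R m k) (R m' k')
  ind : ∀ j : Fin D → Fin N, LinearIndependent ℝ (fun m => (φ m (j m)).linear)
  zero : ∀ j m, φ m (j m) (p j) = 0
  vR : ∀ j m, v j m ∈ R m (j m)
  yR : ∀ j m, y j m ∈ R m (j m)
  vs : ∀ j m k, k ≠ j m → ∀ m', 0 < φ m k (p j) * φ m k (v j m')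
  ys : ∀ j m k, k ≠ j m → ∀ m', 0 < φ m k (p j) * φ m k (y j m')
  hull : ∀ j T, Src p v j T → ∀ g ∈ Hc T, ∀ m', 0 < g (p j) * g (y j m')
  pencil : ∀ j T, Src p v j T → ∀ g ∈ Hc T, ∀ m k, k ≠ j m → ∀ j', Dis j j' →
    (pen (φ m k) g (p j')).linear ≠ 0 →
    ∀ m', 0 < pen (φ m k) g (p j') (p j) * pen (φ m k) g (p j') (y j m')

/-- Monotone family. -/
def MT {D N : ℕ} (φ : Fin D → Fin N → Af E) (p : (Fin D → Fin N) → E) (m : Fin D) : Prop :=
  ∀ j k, (k < j m → 0 < φ m k (p j)) ∧ (j m < k → φ m k (p j) < 0)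

/-- Family in convex position. -/
def CT {D N : ℕ} (φ : Fin D → Fin N → Af E) (p : (Fin D → Fin N) → E) (m : Fin D) : Prop :=
  ∀ j k, k ≠ j m → 0 < φ m k (p j)

/-- On `L` the set `B` lies between `A` and `C`. -/
def Mid (L A B C : Set E) : Prop :=
  ∀ za ∈ A, ∀ zb ∈ B, ∀ zc ∈ C, za ∈ L → zb ∈ L → zc ∈ L → zb ∈ segment ℝ za zc

/-- The family `b` is the middle one on every line of the box. -/
def MidT {D N : ℕ} (φ : Fin D → Fin N → Af E) (R : Fin D → Fin N → Set E) (a b c : Fin D) :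
    Prop :=
  ∀ j : Fin D → Fin N, Mid {z | ∀ m, φ m (j m) z = 0} (R a (j a)) (R b (j b)) (R c (j c))

theorem Flat.convex {L : Set E} (h : Flat L) : Convex ℝ L := by
  intro x hx y hy a b _ _ hab
  have := h x hx y hy b
  have ha : a = 1 - b := by linarith
  rw [ha]
  convert this using 1
  module

theorem flat_univ : Flat (univ : Set E) := fun _ _ _ _ _ => mem_univ _

theorem Flat.inter_zero {L : Set E} (h : Flat L) (z : Af E) : Flat (L ∩ {y | z y = 0}) := by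
  intro x hx y hy a
  refine ⟨h x hx.1 y hy.1 a, ?_⟩
  have h1 : z x = 0 := hx.2
  have h2 : z y = 0 := hy.2
  show z (x + a • (y - x)) = 0
  rw [af_add, map_smul, af_sub, h1, h2]
  simp

theorem flat_zeros {ι : Type} (h : ι → Af E) (P : ι → Prop) :
    Flat {y | ∀ x, P x → h x y = 0} := by
  intro x hx y hy a i hi
  rw [af_add, map_smul, af_sub, hx i hi, hy i hi]
  simp

/-- The common kernel of independent functionals. -/
theorem finrank_ker_add [FiniteDimensional ℝ E] {I : Type} [Fintype I] (ℓ : I → E →ₗ[ℝ] ℝ)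
    (hℓ : LinearIndependent ℝ ℓ) :
    finrank ℝ (⨅ i, LinearMap.ker (ℓ i) : Submodule ℝ E) + Fintype.card I = finrank ℝ E := by
  have h1 : (⨅ i, LinearMap.ker (ℓ i) : Submodule ℝ E) =
      (Submodule.span ℝ (range ℓ) : Submodule ℝ (Module.Dual ℝ E)).dualCoannihilator := by
    ext x
    rw [Submodule.mem_iInf, Submodule.mem_dualCoannihilator]
    constructor
    · intro hx f hf
      refine Submodule.span_induction (p := fun f _ => f x = 0) ?_ ?_ ?_ ?_ hf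
      · rintro _ ⟨i, rfl⟩; exact hx i
      · simp
      · intro a b _ _ ha hb; simp [ha, hb]
      · intro c a _ ha; simp [ha]
    · intro hx i
      exact hx _ (Submodule.subset_span ⟨i, rfl⟩)
  have h2 := Subspace.finrank_add_finrank_dualCoannihilator_eq
    (Submodule.span ℝ (range ℓ) : Submodule ℝ (Module.Dual ℝ E))
  rw [finrank_span_eq_card hℓ] at h2
  rw [h1]
  omega

end defs

/-- The tuple of the box `e` at position `j`. -/
def tup {ι : Type} {D L : ℕ} (e : Fin D → Fin L → ι) (j : Fin D → Fin L) : Fin D → ι :=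
  fun m => e m (j m)

/-- The entries of the box `e` outside the position `j`. -/
noncomputable def non {ι : Type} {D L : ℕ} (e : Fin D → Fin L → ι) (j : Fin D → Fin L) :
    Finset ι :=
  ((Finset.univ : Finset (Fin D × Fin L)).filter (fun a => a.2 ≠ j a.1)).image
    (fun a => e a.1 a.2)

/-- The lower order part of the number of cells. -/
def Bnd (D w g n : ℕ) : ℕ :=
  (g + 1) ^ (D + 2) * (1 + n + n * (2 * (D + 1) * (w + g + 1) ^ (D + 1) * (n + 1) ^ (D - 2)))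

/-! ### Part B -/

/-- Basic facts on the number of components. -/
def SWc : Prop :=
  ∀ (E : Type) [NormedAddCommGroup E] [NormedSpace ℝ E] [FiniteDimensional ℝ E],
    (∀ (A A' : Set E) (z : Af E), (∀ y ∈ A, 0 < z y) → (∀ y ∈ A', z y < 0) →
      wc A + wc A' ≤ wc (A ∪ A')) ∧
    (∀ A : Set E, A.Nonempty → 1 ≤ wc A) ∧
    (∀ A : Set E, IsPreconnected A → wc A ≤ 1) ∧
    wc (∅ : Set E) = 0 ∧
    (∀ (I : Type) (s : Finset I) (A : Set E) (P : I → Set E),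
      (∀ i ∈ s, IsPreconnected (P i) ∧ P i ⊆ A) → (∀ y ∈ A, ∃ i ∈ s, y ∈ P i) → wc A ≤ s.card)

/-- Removing a piece of a hyperplane whose two sides are connected. -/
def SSplit : Prop :=
  ∀ (E : Type) [NormedAddCommGroup E] [NormedSpace ℝ E] [FiniteDimensional ℝ E]
    (L V S Cp Cm : Set E) (h : Af E), Flat L → RO L V → RO L (V \ S) → S ⊆ V →
    (∀ y ∈ S, h y = 0) → (∃ y ∈ L, h y ≠ 0) → IsPreconnected Cp → IsPreconnected Cm →
    Cp ⊆ V \ S → Cm ⊆ V \ S →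
    (∀ s ∈ S, ∃ ε : ℝ, 0 < ε ∧ ∀ y ∈ Metric.ball s ε, y ∈ L →
      (0 < h y → y ∈ Cp) ∧ (h y < 0 → y ∈ Cm)) →
    wc (V \ S) ≤ wc V + 1

/-- Removing a preconnected piece of a hyperplane. -/
def SSplitOne : Prop :=
  ∀ (E : Type) [NormedAddCommGroup E] [NormedSpace ℝ E] [FiniteDimensional ℝ E]
    (L V S : Set E) (h : Af E), Flat L → RO L V → RO L (V \ S) → S ⊆ V →
    (∀ y ∈ S, h y = 0) → (∃ y ∈ L, h y ≠ 0) → IsPreconnected S → wc (V \ S) ≤ wc V + 1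

/-- One job of the cutting process. -/
def SJob : Prop :=
  ∀ (E : Type) [NormedAddCommGroup E] [NormedSpace ℝ E] [FiniteDimensional ℝ E]
    (V U : Set E) (h : Af E), IsOpen V → IsOpen U → Convex ℝ U → h.linear ≠ 0 →
    (∀ y ∈ U, h y ≠ 0 → y ∈ V) →
    ∃ V' : Set E, V' ⊆ V ∧ IsOpen V' ∧ wc V' ≤ wc V + 1 ∧ (∀ y ∈ V, h y ≠ 0 → y ∈ V') ∧
      (∀ y ∈ U, h y = 0 → y ∉ V') ∧
      ∀ q ∈ V, q ∉ V' → h q = 0 ∧ ∃ ε : ℝ, 0 < ε ∧ ∀ y ∈ Metric.ball q ε, h y = 0 → y ∉ V'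

/-- Removing a whole hyperplane. -/
def SCut : Prop :=
  ∀ (E : Type) [NormedAddCommGroup E] [NormedSpace ℝ E] [FiniteDimensional ℝ E]
    (L V : Set E) (h : Af E), Flat L → RO L V → (∃ y ∈ L, h y ≠ 0) →
    wc (V ∩ {y | h y ≠ 0}) ≤ wc V + wc (V ∩ {y | h y = 0})

/-- Deletion and restriction for one cell. -/
def SCell : Prop :=
  ∀ (E : Type) [NormedAddCommGroup E] [NormedSpace ℝ E] [FiniteDimensional ℝ E]
    (K L U B : Set E) (z : Af E), Convex ℝ K → IsClosed K → Flat L → IsOpen U → Convex ℝ U →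
    Convex ℝ B → L ∩ U ⊆ B → (¬ ∀ y ∈ L, z y = 0) →
    wt K (L ∩ (U ∩ {y | 0 < z y})) (B ∩ {y | 0 ≤ z y}) +
        wt K (L ∩ (U ∩ {y | z y < 0})) (B ∩ {y | z y ≤ 0}) ≤
      wt K (L ∩ U) B + wt K ((L ∩ {y | z y = 0}) ∩ U) (B ∩ {y | z y = 0})

/-- Deletion and restriction for the total weight. -/
def SKey : Prop :=
  ∀ (E : Type) [NormedAddCommGroup E] [NormedSpace ℝ E] [FiniteDimensional ℝ E]
    (K : Set E) (Z : List (Af E)) (L U B : Set E) (z : Af E), Convex ℝ K → IsClosed K →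
    Flat L → IsOpen U → Convex ℝ U → Convex ℝ B → L ∩ U ⊆ B →
    (L ∩ U = ∅ → tot K Z L U B = 0) ∧
    ((¬ ∀ y ∈ L, z y = 0) → tot K (z :: Z) L U B ≤
      tot K Z L U B + tot K Z (L ∩ {y | z y = 0}) U (B ∩ {y | z y = 0}))

/-- Properties of the cells. -/
def SLeaf : Prop :=
  ∀ (E : Type) [NormedAddCommGroup E] [NormedSpace ℝ E] [FiniteDimensional ℝ E]
    (Z : List (Af E)) (L U B : Set E), Flat L → IsOpen U → Convex ℝ U →
    (∀ c ∈ lv Z L U B, IsOpen c.1 ∧ Convex ℝ c.1 ∧ c.1 ⊆ U ∧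
      ∀ z ∈ Z, (∀ y ∈ L, z y = 0) ∨ ∀ y ∈ c.1, z y ≠ 0) ∧
    ∀ q ∈ B, ∃ ε : ℝ, 0 < ε ∧ Metric.ball q ε ∩ (L ∩ U) ⊆
      closure {y | ∃ c ∈ lv Z L U B, q ∈ c.2 ∧ y ∈ L ∩ c.1}

/-- The total weight in a hyperplane is bounded by the weights of the subflats. -/
def SCount : Prop :=
  ∀ (E : Type) [NormedAddCommGroup E] [NormedSpace ℝ E] [FiniteDimensional ℝ E]
    (D : ℕ), finrank ℝ E = D + 1 → 2 ≤ D → ∀ (ι : Type) (h : ι → Af E) (K U : Set E),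
    Convex ℝ K → IsClosed K → IsOpen U → Convex ℝ U → ∀ (b0 : ℕ) (β : Finset ι → ℕ) (j : ι),
    (h j).linear ≠ 0 →
    (∀ t : Finset ι, Ind h t → t.card < D → wt K (FL h t ∩ U) (FL h t ∩ U) ≤ b0) →
    (∀ t : Finset ι, j ∈ t → Ind h t → t.card = D →
      wt K (FL h t ∩ U) (FL h t ∩ U) ≤ β t) →
    ∀ l : List ι, l.Nodup →
    tot K (l.map h) {y | h j y = 0} U ({y | h j y = 0} ∩ U) ≤
      ((b0 * (l.length + 1) ^ (D - 2) +
        ∑ s ∈ (l.toFinset.powersetCard (D - 1)).filter (fun s => j ∉ s ∧ Ind h (insert j s)),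
          β (insert j s) : ℕ) : ℕ∞)

/-- The complement of a compact convex set in a flat. -/
def SOut : Prop :=
  ∀ (E : Type) [NormedAddCommGroup E] [NormedSpace ℝ E] [FiniteDimensional ℝ E]
    (K L : Set E), IsCompact K → Convex ℝ K → Flat L → (L ∩ K).Nonempty →
    wc (L \ K) ≤ ((2 * finrank ℝ E : ℕ) : ℕ∞)

/-- The weight of a flat inside a cell with few walls. -/
def SBase : Prop :=
  ∀ (E : Type) [NormedAddCommGroup E] [NormedSpace ℝ E] [FiniteDimensional ℝ E]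
    (K L : Set E) (G : Finset (Af E)), IsCompact K → Convex ℝ K → Flat L →
    wt K (L ∩ {y | ∀ g ∈ G, 0 < g y}) (L ∩ {y | ∀ g ∈ G, 0 < g y}) ≤
      ((2 * finrank ℝ E * (G.card + 1) ^ finrank ℝ E : ℕ) : ℕ∞)

/-- The weight of a line is controlled by two points. -/
def SLine : Prop :=
  ∀ (E : Type) [NormedAddCommGroup E] [NormedSpace ℝ E] [FiniteDimensional ℝ E]
    (K L : Set E) (x w : E), IsCompact K → Convex ℝ K → Flat L → x ∈ L →
    (∀ y ∈ L, ∃ a : ℝ, y = x + a • w) →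
    ∃ p : Bool → E, (∀ b, p b ∈ L) ∧ ∀ U : Set E, IsOpen U → Convex ℝ U →
      wt K (L ∩ U) (L ∩ U) ≤ (if p false ∈ U then 1 else 0) + (if p true ∈ U then 1 else 0)

/-- Independent tuples cut out lines. -/
def SLin : Prop :=
  ∀ (E : Type) [NormedAddCommGroup E] [NormedSpace ℝ E] [FiniteDimensional ℝ E]
    (D : ℕ), finrank ℝ E = D + 1 → ∀ φ : Fin D → Af E,
    LinearIndependent ℝ (fun m => (φ m).linear) →
    ∃ x w : E, w ≠ 0 ∧ (∀ m, φ m x = 0) ∧ (∀ m, (φ m).linear w = 0) ∧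
      ∀ y, (∀ m, φ m y = 0) → ∃ a : ℝ, y = x + a • w

/-- The end points. -/
def SEnd : Prop :=
  ∀ (E : Type) [NormedAddCommGroup E] [NormedSpace ℝ E] [FiniteDimensional ℝ E]
    (D : ℕ), finrank ℝ E = D + 1 → ∀ (ι : Type) (F R : ι → Set E) (h : ι → Af E),
    Plates F R h → ∀ i : Fin D, ∃ p : (Fin D → ι) → Bool → E, EndP F h i p

/-- The faces of a polyhedron are plates. -/
def SFace : Prop :=
  ∀ (d n : ℕ), 1 ≤ d → ∀ P : Set (EuclideanSpace ℝ (Fin d)), IsPolyhedron P n →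
    ∃ (F R : Fin n → Set (EuclideanSpace ℝ (Fin d)))
      (h : Fin n → Af (EuclideanSpace ℝ (Fin d))), Plates F R h ∧ frontier P = ⋃ i, F i

/-- Removing the plates. -/
def SInit : Prop :=
  ∀ (E : Type) [NormedAddCommGroup E] [NormedSpace ℝ E] [FiniteDimensional ℝ E]
    (ι : Type) (F R : ι → Set E) (h : ι → Af E), Plates F R h → ∀ O : Set E, IsOpen O →
    Convex ℝ O → ∀ X : Finset ι, wc (O \ ⋃ x ∈ X, F x) ≤ 1 + (X.card : ℕ∞)

/-- Local walls force convex components. -/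
def SSweep : Prop :=
  ∀ (E : Type) [NormedAddCommGroup E] [NormedSpace ℝ E] [FiniteDimensional ℝ E]
    (O V : Set E), Convex ℝ O → IsOpen V → V ⊆ O →
    (∀ q ∈ O, q ∉ V → ∃ g : Af E, g q = 0 ∧
      ∃ ε : ℝ, 0 < ε ∧ ∀ y ∈ Metric.ball q ε, g y = 0 → y ∉ V) →
    ∀ x ∈ V, Convex ℝ (connectedComponentIn V x)

/-- The components form a polyhedral partition. -/
def SConv : Prop :=
  ∀ (E : Type) [NormedAddCommGroup E] [NormedSpace ℝ E] [FiniteDimensional ℝ E]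
    (O V : Set E) (G : Finset (Af E)), OP O → IsOpen V → V ⊆ O → (∀ g ∈ G, g.linear ≠ 0) →
    (∀ y ∈ O, (∀ g ∈ G, g y ≠ 0) → y ∈ V) →
    (∀ q ∈ O, q ∉ V → ∃ g ∈ G, g q = 0 ∧
      ∃ ε : ℝ, 0 < ε ∧ ∀ y ∈ Metric.ball q ε, g y = 0 → y ∉ V) →
    ∀ N : ℕ, wc V ≤ N → ∃ C : Finset (Set E), Part O C ∧ C.card ≤ N ∧ ∀ U ∈ C, U ⊆ V

/-- The cutting process in one cell. -/
def SProc : Prop :=
  ∀ (E : Type) [NormedAddCommGroup E] [NormedSpace ℝ E] [FiniteDimensional ℝ E]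
    (ι : Type) (F R : ι → Set E) (h : ι → Af E), Plates F R h → ∀ O : Set E, OP O →
    ∀ X : Finset ι, ∃ C : Finset (Set E), Part O C ∧ (∀ U ∈ C, ∀ x ∈ X, Disjoint U (F x)) ∧
      (C.card : ℕ∞) ≤ 1 + (X.card : ℕ∞) +
        ∑ j ∈ X, tot (F j) (X.toList.map h) {y | h j y = 0} O ({y | h j y = 0} ∩ O)

/-- The cells of an arrangement, with their walls. -/
def SArr : Prop :=
  ∀ (E : Type) [NormedAddCommGroup E] [NormedSpace ℝ E] [FiniteDimensional ℝ E]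
    (G0 G : Finset (Af E)), (∀ g ∈ G, g.linear ≠ 0) →
    ∃ C : Finset (Set E), Part {y | ∀ g ∈ G0, 0 < g y} C ∧
      C.card ≤ (G.card + 1) ^ (finrank ℝ E + 1) ∧
      ∀ O ∈ C, (∀ g ∈ G, ∀ x ∈ O, g x ≠ 0) ∧
        ∃ G' : Finset (Af E), G'.card ≤ G0.card + G.card ∧ O = {y | ∀ g ∈ G', 0 < g y}

/-- The output sensitive bound in one cell. -/
def SOne : Prop :=
  ∀ (E : Type) [NormedAddCommGroup E] [NormedSpace ℝ E] [FiniteDimensional ℝ E]
    (D : ℕ), finrank ℝ E = D + 1 → 2 ≤ D → ∀ (ι : Type) [Fintype ι] (F R : ι → Set E)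
    (h : ι → Af E), Plates F R h → ∀ (i : Fin D) (p : (Fin D → ι) → Bool → E), EndP F h i p →
    ∀ (G' : Finset (Af E)) (O : Set E), O = {y | ∀ g ∈ G', 0 < g y} →
    ∃ C : Finset (Set E), Part O C ∧ (∀ U ∈ C, ∀ x, Disjoint U (F x)) ∧
      C.card ≤ 1 + Fintype.card ι + Fintype.card ι *
          (2 * (D + 1) * (G'.card + 1) ^ (D + 1) * (Fintype.card ι + 1) ^ (D - 2)) +
        ({τ | IndT h τ ∧ p τ false ∈ O ∧ ∀ m, (F (τ m) ∩ O).Nonempty}.ncard +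
          {τ | IndT h τ ∧ p τ true ∈ O ∧ ∀ m, (F (τ m) ∩ O).Nonempty}.ncard)

/-- The output sensitive bound. -/
def SB : Prop :=
  ∀ (E : Type) [NormedAddCommGroup E] [NormedSpace ℝ E] [FiniteDimensional ℝ E]
    (D : ℕ), finrank ℝ E = D + 1 → 2 ≤ D → ∀ (ι : Type) [Fintype ι] (F R : ι → Set E)
    (h : ι → Af E), Plates F R h → ∀ (i : Fin D) (p : (Fin D → ι) → Bool → E), EndP F h i p →
    ∀ (w : ℕ) (σ : Set E), Cell w σ → ∀ G : Finset (Af E), (∀ g ∈ G, g.linear ≠ 0) →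
    ∃ C : Finset (Set E), Part σ C ∧ (∀ U ∈ C, ∀ x, Disjoint U (F x)) ∧
      C.card ≤ Bnd D w G.card (Fintype.card ι) +
        ({τ | IndT h τ ∧ Alv R G τ (p τ false)}.ncard +
          {τ | IndT h τ ∧ Alv R G τ (p τ true)}.ncard)

/-! ### Part K -/

/-- Homogeneous boxes. -/
def SHom : Prop :=
  ∀ (D N : ℕ) (C : Type) [Finite C], ∃ L : ℕ,
    ∀ (f : (Fin D → Fin L) → Fin D → Fin L → SignType) (χ : (Fin D → Fin L) → C),
    ∃ s : Fin D → Fin N → Fin L, (∀ i, StrictMono (s i)) ∧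
      (∃ σ σ' : Fin D → SignType, ∀ (j : Fin D → Fin N) (i : Fin D) (k : Fin N),
        (k < j i → f (fun i' => s i' (j i')) i (s i k) = σ i) ∧
        (j i < k → f (fun i' => s i' (j i')) i (s i k) = σ' i)) ∧
      ∃ c : C, ∀ j : Fin D → Fin N, χ (fun i' => s i' (j i')) = c

/-- Points in all orthants have a common zero in their hull. -/
def SOrth : Prop :=
  ∀ (E : Type) [NormedAddCommGroup E] [NormedSpace ℝ E] (I : Type) (s : Finset I)
    (φ : I → Af E) (u : (I → Bool) → E),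
    (∀ ε, ∀ i ∈ s, (ε i = true → 0 < φ i (u ε)) ∧ (ε i = false → φ i (u ε) < 0)) →
    ∃ z ∈ convexHull ℝ (range u), ∀ i ∈ s, φ i z = 0

/-- Of three disjoint convex sets one is the middle one on a line. -/
def SMid : Prop :=
  ∀ (E : Type) [NormedAddCommGroup E] [NormedSpace ℝ E] (L A B C : Set E) (x w : E),
    (∀ y ∈ L, ∃ a : ℝ, y = x + a • w) → Convex ℝ A → Convex ℝ B → Convex ℝ C →
    Disjoint A B → Disjoint A C → Disjoint B C → Mid L B A C ∨ Mid L A B C ∨ Mid L A C B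

/-- A line leaves a hull through one of the hull cuts. -/
def SExit : Prop :=
  ∀ (E : Type) [NormedAddCommGroup E] [NormedSpace ℝ E] [FiniteDimensional ℝ E]
    (Hc : Finset E → Finset (Af E)), HcOK Hc → ∀ (T : Finset E) (z w : E),
    z ∈ convexHull ℝ (T : Set E) → w ≠ 0 →
    ∃ t : ℝ, ∃ g ∈ Hc T, z + t • w ∈ convexHull ℝ (T : Set E) ∧ g (z + t • w) = 0 ∧
      g.linear w ≠ 0

/-- Two families in convex position. -/
def STwoC : Prop :=
  ∀ (E : Type) [NormedAddCommGroup E] [NormedSpace ℝ E] [FiniteDimensional ℝ E]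
    (D : ℕ), finrank ℝ E = D + 1 → ∀ (φ : Fin D → Fin 3 → Af E) (p : (Fin D → Fin 3) → E),
    (∀ j : Fin D → Fin 3, LinearIndependent ℝ (fun m => (φ m (j m)).linear)) →
    (∀ j m, φ m (j m) (p j) = 0) → ∀ a b : Fin D, a ≠ b → CT φ p a → CT φ p b → False

/-- The plane lemma. -/
def SFan : Prop :=
  ∀ (E : Type) [NormedAddCommGroup E] [NormedSpace ℝ E] [FiniteDimensional ℝ E]
    (V : Submodule ℝ E), finrank ℝ V ≤ 2 → ∀ (f : Fin 6 → Af E) (u y r : Fin 6 → E) (a : Af E)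
    (Z : Fin 6 → Set E), (∀ k, u k - u 0 ∈ V ∧ y k - u 0 ∈ V ∧ r k - u 0 ∈ V) →
    (∀ k, f k (u k) = 0 ∧ f k (y k) = 0) →
    (∀ k k', k' ≠ k → 0 < f k' (u k) ∧ ∀ z ∈ Z k, 0 < f k' z) →
    (∀ k, Convex ℝ (Z k) ∧ y k ∈ Z k ∧ r k ∈ Z k ∧
      Disjoint (Z k) (convexHull ℝ {x | ∃ k', k' ≠ k ∧ x = u k'})) →
    (∀ k, a (r k) = 0) → (∃ z, z - u 0 ∈ V ∧ a z ≠ 0) → False

/-- One family in convex position. -/
def SOneC : Prop :=
  ∀ D : ℕ, ∃ N : ℕ, ∀ (E : Type) [NormedAddCommGroup E] [NormedSpace ℝ E]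
    [FiniteDimensional ℝ E], finrank ℝ E = D + 1 → ∀ Hc : Finset E → Finset (Af E), HcOK Hc →
    ∀ (φ : Fin D → Fin N → Af E) (R : Fin D → Fin N → Set E) (p : (Fin D → Fin N) → E)
      (v y : (Fin D → Fin N) → Fin D → E), Bx Hc φ R p v y →
    ∀ κ a b : Fin D, a ≠ κ → b ≠ κ → a ≠ b → CT φ p κ → (∀ m, m ≠ κ → MT φ p m) → False

/-- The slope argument. -/
def SSlope : Prop :=
  ∀ (E : Type) [NormedAddCommGroup E] [NormedSpace ℝ E] (φ g : Af E) (A C : Fin 3 → Set E)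
    (p ya yc : Fin 3 → E) (q za zc : Fin 3 → Fin 3 → E),
    (∀ s, Convex ℝ (A s) ∧ Convex ℝ (C s)) →
    (∀ s, ∀ x ∈ A s, φ x = 0 → g x < 0) → (∀ s, ∀ x ∈ C s, φ x = 0 → 0 < g x) →
    (∀ s, φ (p s) < 0 ∧ φ (ya s) < 0 ∧ φ (yc s) < 0 ∧ ya s ∈ A s ∧ yc s ∈ C s) →
    (∀ s t, 0 < φ (za s t) ∧ 0 < φ (zc s t) ∧ za s t ∈ A s ∧ zc s t ∈ C t) →
    (∀ s t, s ≠ t → 0 < pen φ g (p t) (p s) * pen φ g (p t) (ya s) ∧
      0 < pen φ g (p t) (p s) * pen φ g (p t) (yc s)) →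
    (∀ s t o, s ≠ o → t ≠ o → 0 < pen φ g (p o) (q s t) * pen φ g (p o) (za s t) ∧
      0 < pen φ g (p o) (q s t) * pen φ g (p o) (zc s t)) → False

/-- All families monotone. -/
def SAllM : Prop :=
  ∀ D : ℕ, ∃ N : ℕ, ∀ (E : Type) [NormedAddCommGroup E] [NormedSpace ℝ E]
    [FiniteDimensional ℝ E], finrank ℝ E = D + 1 → ∀ Hc : Finset E → Finset (Af E), HcOK Hc →
    ∀ (φ : Fin D → Fin N → Af E) (R : Fin D → Fin N → Set E) (p : (Fin D → Fin N) → E)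
      (v y : (Fin D → Fin N) → Fin D → E), Bx Hc φ R p v y →
    ∀ a b c : Fin D, a ≠ b → c ≠ b → a ≠ c → (∀ m, MT φ p m) → MidT φ R a b c → False

/-- The box lemma. -/
def SBox : Prop :=
  ∀ D : ℕ, 3 ≤ D → ∃ N : ℕ, 0 < N ∧ ∀ (E : Type) [NormedAddCommGroup E] [NormedSpace ℝ E]
    [FiniteDimensional ℝ E], finrank ℝ E = D + 1 → ∀ Hc : Finset E → Finset (Af E), HcOK Hc →
    ∀ (φ : Fin D → Fin N → Af E) (R : Fin D → Fin N → Set E) (p : (Fin D → Fin N) → E)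
      (v y : (Fin D → Fin N) → Fin D → E), Bx Hc φ R p v y → False

/-- Greedy killing. -/
def SGreedy : Prop :=
  ∀ (ι : Type) [Fintype ι] [Nonempty ι] (D L : ℕ), 0 < L → ∀ (U0 : Set (Fin D → ι))
    (Bad : (Fin D → ι) → Set ι) (Kl : Finset ι → Set (Fin D → ι)) (T q : ℕ), 1 ≤ q →
    (∀ τ ∈ U0, (Bad τ).ncard ≤ T) →
    (∀ e : Fin D → Fin L → ι, (∀ j, tup e j ∈ U0) →
      (∀ j m k, k ≠ j m → e m k ∉ Bad (tup e j)) → ∃ j, tup e j ∈ Kl (non e j)) →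
    2 * L ^ D * (D * L) * T * q ^ (L ^ D) ≤ Fintype.card ι →
    ∃ B : Finset (Finset ι), B.card ≤ 2 * L ^ D * q ^ (L ^ D) ∧ (∀ β ∈ B, β.card ≤ D * L) ∧
      q * {τ | τ ∈ U0 ∧ ∀ β ∈ B, τ ∉ Kl β}.ncard ≤ Fintype.card ι ^ D

/-- A net for pairs of points. -/
def SNet : Prop :=
  ∀ (E : Type) [NormedAddCommGroup E] [NormedSpace ℝ E] [FiniteDimensional ℝ E]
    (ι : Type) [Fintype ι] (h : ι → Af E) (k t lam : ℕ),
    2 * (Fintype.card ι + 1) ^ (4 * (finrank ℝ E + 1)) < 2 ^ lam →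
    lam * Fintype.card ι ≤ t * k →
    ∃ R0 : Finset ι, R0.card ≤ k ∧ ∀ y y' : E, (∀ x ∈ R0, 0 < h x y * h x y') →
      {x | ¬ 0 < h x y * h x y'}.ncard ≤ t

/-- The cuts defined by a bounded set of plates. -/
def SCuts : Prop :=
  ∀ D M : ℕ, ∃ c : ℕ, ∀ (E : Type) [NormedAddCommGroup E] [NormedSpace ℝ E]
    [FiniteDimensional ℝ E], finrank ℝ E = D + 1 → ∀ Hc : Finset E → Finset (Af E), HcOK Hc →
    ∀ (ι : Type) (h : ι → Af E), (∀ x, (h x).linear ≠ 0) →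
    ∀ (p : (Fin D → ι) → E) (v : (Fin D → ι) → Fin D → E),
    ∃ G : Finset ι → Finset (Af E), ∀ β : Finset ι, (β.card ≤ M → (G β).card ≤ c) ∧
      (∀ g ∈ G β, g.linear ≠ 0) ∧ (∀ x ∈ β, h x ∈ G β) ∧
      ∀ T : Finset E, (∀ z ∈ T, ∃ τ, (∀ m, τ m ∈ β) ∧ (z = p τ ∨ ∃ m, z = v τ m)) →
        ∀ g ∈ Hc T, g ∈ G β ∧ ∀ x ∈ β, ∀ τ, (∀ m, τ m ∈ β) →
          (pen (h x) g (p τ)).linear ≠ 0 → pen (h x) g (p τ) ∈ G β

/-- Few cuts kill most tuples. -/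
def SKill : Prop :=
  ∀ D : ℕ, 3 ≤ D → ∃ M c : ℕ, ∀ (E : Type) [NormedAddCommGroup E] [NormedSpace ℝ E]
    [FiniteDimensional ℝ E], finrank ℝ E = D + 1 → ∀ (ι : Type) [Fintype ι] [Nonempty ι]
    (F R : ι → Set E) (h : ι → Af E), Plates F R h → ∀ p : (Fin D → ι) → E,
    (∀ τ, IndT h τ → ∀ m, h (τ m) (p τ) = 0) → ∀ q t k lam : ℕ, 1 ≤ q →
    2 * (Fintype.card ι + 1) ^ (4 * (D + 2)) < 2 ^ lam → lam * Fintype.card ι ≤ t * k →
    c * t * q ^ M ≤ Fintype.card ι →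
    ∃ G : Finset (Af E), (∀ g ∈ G, g.linear ≠ 0) ∧ G.card ≤ k + c * q ^ M ∧
      q * {τ | IndT h τ ∧ Alv R G τ (p τ)}.ncard ≤ Fintype.card ι ^ D

/-- Choice of the parameters. -/
def SNum : Prop :=
  ∀ D w M c : ℕ, 2 ≤ D → ∃ δ : ℝ, 0 < δ ∧ ∃ (A : ℝ) (n0 : ℕ), ∀ n : ℕ, 1 ≤ n →
    (n < n0 → ((Bnd D w 0 n + 2 * n ^ D : ℕ) : ℝ) ≤ A * (n : ℝ) ^ ((D : ℝ) - δ)) ∧
    (n0 ≤ n → ∃ q t k lam : ℕ, 1 ≤ q ∧ 2 * (n + 1) ^ (4 * (D + 2)) < 2 ^ lam ∧
      lam * n ≤ t * k ∧ c * t * q ^ M ≤ n ∧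
      ∀ g a0 a1 : ℕ, g ≤ 2 * (k + c * q ^ M) → q * a0 ≤ n ^ D → q * a1 ≤ n ^ D →
        ((Bnd D w g n + (a0 + a1) : ℕ) : ℝ) ≤ A * (n : ℝ) ^ ((D : ℝ) - δ))

/-- The final statement. -/
def SFinal : Prop :=
  ∀ d : ℕ, 4 ≤ d → ∃ δ : ℝ, 0 < δ ∧ ∃ A : ℝ,
    ∀ (n : ℕ) (P : Set (EuclideanSpace ℝ (Fin d))), 1 ≤ n → IsPolyhedron P n →
    ∃ (M : ℕ) (K : Fin M → Set (EuclideanSpace ℝ (Fin d))), IsConvexPartition P K ∧
      (M : ℝ) ≤ A * (n : ℝ) ^ ((d : ℝ) - 1 - δ)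

end Pool.Agent.MP_a2955b_co.Gen
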